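import Mathlib
import Pool.Agent.Helper8.LK.Defs

/-!
# Exceptional weights and the total number of inspected bits
-/

set_option autoImplicit false

namespace Pool.Agent.Helper7.LKX

open Pool.Agent.Helper22.ETModel Pool.Agent.Helper8.LK

open Classical in
/-- The number of all bits that are inspected in a run. -/
noncomputable def inspected {n L R : ℕ} (A : LAlg n L R) (I : Inst n) (ρ : Fin R → Bool) : ℕ :=
  ((Finset.range L).filter fun t =>
    ∃ i j φ, A.next I.flag ρ (A.run I ρ t).1 = Act.bit i j φ).card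

/-- On every valid instance and for all random bits there are at most `D` queries, and at most `B`
bits are inspected in total. -/
def WithinTotal {n L R : ℕ} (A : LAlg n L R) (D B : ℕ) : Prop :=
  ∀ I : Inst n, I.Valid → ∀ ρ, A.queries I ρ ≤ D ∧ inspected A I ρ ≤ B

/-- On every valid instance and for all random bits there are at most `D` queries, and more than
`b` bits are inspected for at most `n ^ 2 / 2 ^ 17` of the `n ^ 2` ordered pairs `(i, j)`; no bound
for the number of bits is assumed for these pairs. -/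
def WithinX {n L R : ℕ} (A : LAlg n L R) (D b : ℕ) : Prop :=
  ∀ I : Inst n, I.Valid → ∀ ρ, A.queries I ρ ≤ D ∧
    2 ^ 17 * (Finset.univ.filter fun p : Fin n × Fin n => b < A.bits I ρ p.1 p.2).card ≤ n ^ 2

variable {n L R : ℕ}

lemma bits_le (A : LAlg n L R) (I : Inst n) (ρ : Fin R → Bool) (i j : Fin n) :
    A.bits I ρ i j ≤ L := by
  classical
  unfold LAlg.bits
  exact (Finset.card_filter_le _ _).trans (le_of_eq (Finset.card_range L))

lemma WithinX.within {A : LAlg n L R} {D b : ℕ} (h : WithinX A D b) : A.Within D L :=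
  fun I hI ρ => ⟨(h I hI ρ).1, fun i j => bits_le A I ρ i j⟩

lemma sum_bits_le (A : LAlg n L R) (I : Inst n) (ρ : Fin R → Bool) :
    ∑ p : Fin n × Fin n, A.bits I ρ p.1 p.2 ≤ 2 * inspected A I ρ := by
  classical
  unfold LAlg.bits inspected
  simp_rw [Finset.card_filter]
  rw [Finset.sum_comm, Finset.mul_sum]
  refine Finset.sum_le_sum fun t _ => ?_
  by_cases h : ∃ i j φ, A.next I.flag ρ (A.run I ρ t).1 = Act.bit i j φ
  · rw [if_pos h]
    obtain ⟨i, j, φ, hφ⟩ := h
    rw [hφ, ← Finset.card_filter]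
    have h1 : (Finset.univ.filter fun p : Fin n × Fin n => ∃ φ', Act.bit i j φ = Act.bit p.1 p.2 φ' ∨
        Act.bit i j φ = Act.bit p.2 p.1 φ') ⊆ {(i, j), (j, i)} := by
      intro p hp
      rw [Finset.mem_filter] at hp
      obtain ⟨_, φ', h2⟩ := hp
      rw [Finset.mem_insert, Finset.mem_singleton]
      rcases h2 with h2 | h2
      · left
        simp only [Act.bit.injEq] at h2
        exact Prod.ext h2.1.symm h2.2.1.symm
      · right
        simp only [Act.bit.injEq] at h2
        exact Prod.ext h2.2.1.symm h2.1.symm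
    exact (Finset.card_le_card h1).trans ((Finset.card_insert_le _ _).trans (by simp))
  · rw [if_neg h]
    rw [mul_zero, Nat.le_zero, Finset.sum_eq_zero_iff]
    intro p _
    rw [if_neg]
    rintro ⟨φ, h1 | h1⟩
    · exact h ⟨_, _, φ, h1⟩
    · exact h ⟨_, _, φ, h1⟩

/-- Markov's inequality. -/
lemma WithinTotal.withinX {A : LAlg n L R} {D B : ℕ} (h : WithinTotal A D B) :
    WithinX A D (2 ^ 18 * B / n ^ 2) := by
  classical
  intro I hI ρ
  refine ⟨(h I hI ρ).1, ?_⟩
  rcases Nat.eq_zero_or_pos n with hn | hn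
  · subst hn
    simp
  have hn2 : 0 < n ^ 2 := by positivity
  set b := 2 ^ 18 * B / n ^ 2 with hb
  set S := Finset.univ.filter fun p : Fin n × Fin n => b < A.bits I ρ p.1 p.2 with hS
  have h1 : S.card * (b + 1) ≤ 2 * B := by
    calc S.card * (b + 1) = ∑ _p ∈ S, (b + 1) := by rw [Finset.sum_const, smul_eq_mul]
      _ ≤ ∑ p ∈ S, A.bits I ρ p.1 p.2 := Finset.sum_le_sum fun p hp => (Finset.mem_filter.1 hp).2
      _ ≤ ∑ p : Fin n × Fin n, A.bits I ρ p.1 p.2 :=
          Finset.sum_le_sum_of_subset (Finset.subset_univ _)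
      _ ≤ 2 * inspected A I ρ := sum_bits_le A I ρ
      _ ≤ 2 * B := Nat.mul_le_mul_left 2 (h I hI ρ).2
  have h2 : 2 ^ 18 * B < n ^ 2 * (b + 1) := Nat.lt_mul_div_succ _ hn2
  by_contra hcon
  push Not at hcon
  have h3 : n ^ 2 * (b + 1) ≤ 2 ^ 17 * S.card * (b + 1) := Nat.mul_le_mul_right _ hcon.le
  have h4 : 2 ^ 17 * S.card * (b + 1) ≤ 2 ^ 18 * B := by
    calc 2 ^ 17 * S.card * (b + 1) = 2 ^ 17 * (S.card * (b + 1)) := by ring
      _ ≤ 2 ^ 17 * (2 * B) := Nat.mul_le_mul_left _ h1
      _ = 2 ^ 18 * B := by ring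
  omega

end Pool.Agent.Helper7.LKX
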