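import Mathlib
import Pool.Agent.Helper7.LK.Plant

/-!
# The leakage core with exceptional edges

As `Pool/Agent/Helper7/LK/Core2.lean`, for an arbitrary predicate `the edge is bad after s steps`,
which holds for instance when the cell of the edge is small, or when more than `b` bits of it have
been read.
-/

set_option autoImplicit false

namespace Pool.Agent.Helper7.LKX

open Finset Pool.Agent.Helper95.LK Pool.Agent.Helper7.LK

variable {n : ℕ} {Γ : Type*} [Fintype Γ] [DecidableEq Γ] (X : Plant n Γ)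

/-- Second moment bound over the `n` triangles of the edge `(i, p)`. -/
lemma edge_boundX (P : BoxPart (Edge n) Γ) (i : Fin 3) (p : Fin n × Fin n) (K : ℕ) (κ : ℝ)
    (hκ0 : 0 ≤ κ)
    (hK : K ≤ n) (rare : (Edge n → Γ) → Prop) [DecidablePred rare]
    (hrm : ∀ r r', r' ∈ P.box r → (rare r' ↔ rare r))
    (hrare : ((Finset.univ.filter rare).card : ℝ) ≤ κ * (Fintype.card (Edge n → Γ) : ℝ))
    (good : Fin n → (Edge n → Γ) → Prop) [∀ c, DecidablePred (good c)]
    (hgm : ∀ c r r', r' ∈ P.box r → (good c r' ↔ good c r))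
    (hgood : ∀ c r, good c r →
      ∀ j, j ≠ i → Fintype.card Γ ≤ (P.C r (ed j (mkTri i (p, c)))).card * K) :
    ∑ c, ∑ r : Edge n → Γ, (if rare r ∧ good c r then
        X.g (mkTri i (p, c)) * X.ind (mkTri i (p, c)) r else 0) ≤
      (n : ℝ) * (Fintype.card (Edge n → Γ) : ℝ) * Real.sqrt (2 * X.C * κ) := by
  classical
  set M : ℝ := (Fintype.card (Edge n → Γ) : ℝ) with hM
  have hM0 : 0 ≤ M := Nat.cast_nonneg _
  have hC1 := X.one_le_C
  have hC0 : 0 ≤ X.C := le_trans zero_le_one hC1
  set e : Edge n := (i, p.1, p.2) with he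
  have hed : ∀ c, ed i (mkTri i (p, c)) = e := fun c => ed_mkTri i (p, c)
  set Q := P.freeze e with hQ
  let G : Fin n → ℝ := fun c => X.g (mkTri i (p, c))
  have hG0 : ∀ c, 0 ≤ G c := fun c => X.g_nonneg _
  -- indicators
  let ρ : (Edge n → Γ) → ℝ := fun r => if rare r then 1 else 0
  let γ : Fin n → (Edge n → Γ) → ℝ := fun c r => if good c r then 1 else 0
  have hρP : P.Meas ρ := by
    intro r r' h
    simp only [ρ, hrm r r' h]
  have hγP : ∀ c, P.Meas (γ c) := by
    intro c r r' h
    simp only [γ, hgm c r r' h]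
  have hρQ : Q.Meas ρ := P.freeze_meas e hρP
  have hγQ : ∀ c, Q.Meas (γ c) := fun c => P.freeze_meas e (hγP c)
  have hγ0 : ∀ c r, 0 ≤ γ c r := by intro c r; simp only [γ]; split_ifs <;> norm_num
  have hγ1 : ∀ c r, γ c r ≤ 1 := by intro c r; simp only [γ]; split_ifs <;> norm_num
  have hρ0 : ∀ r, 0 ≤ ρ r := by intro r; simp only [ρ]; split_ifs <;> norm_num
  let A : Fin n → (Edge n → Γ) → ℝ := fun c r => Q.avg (X.ind (mkTri i (p, c))) r
  have hA0 : ∀ c r, 0 ≤ A c r := fun c r => Q.avg_nonneg (fun r => X.ind_nonneg _ r) r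
  let F : (Edge n → Γ) → ℝ := fun r => ∑ c, G c * A c r * γ c r
  -- step 1: rewrite with the averages
  have step1 : ∑ c, ∑ r : Edge n → Γ, (if rare r ∧ good c r then
        G c * X.ind (mkTri i (p, c)) r else 0) = ∑ r, ρ r * F r := by
    have h1 : ∀ c, ∑ r : Edge n → Γ, (if rare r ∧ good c r then
        G c * X.ind (mkTri i (p, c)) r else 0) = ∑ r, ρ r * (G c * A c r * γ c r) := by
      intro c
      have h2 := Q.tower (fun r => ρ r * γ c r) (X.ind (mkTri i (p, c)))
        (BoxPart.Meas.mul Q hρQ (hγQ c))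
      have h3 : ∑ r : Edge n → Γ, (if rare r ∧ good c r then
          G c * X.ind (mkTri i (p, c)) r else 0) =
          G c * ∑ r, (ρ r * γ c r) * X.ind (mkTri i (p, c)) r := by
        rw [Finset.mul_sum]
        refine Finset.sum_congr rfl fun r _ => ?_
        simp only [ρ, γ]
        by_cases h4 : rare r <;> by_cases h5 : good c r <;> simp [h4, h5]
      rw [h3, ← h2, Finset.mul_sum]
      refine Finset.sum_congr rfl fun r _ => ?_
      simp only [A]
      ring
    rw [Finset.sum_congr rfl fun c _ => h1 c, Finset.sum_comm]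
    refine Finset.sum_congr rfl fun r _ => ?_
    simp only [F]
    rw [Finset.mul_sum]
  have step1' : ∑ c, ∑ r : Edge n → Γ, (if rare r ∧ good c r then
        X.g (mkTri i (p, c)) * X.ind (mkTri i (p, c)) r else 0) = ∑ r, ρ r * F r := step1
  rw [step1']
  -- step 2: Cauchy-Schwarz
  have hCS := Finset.sum_mul_sq_le_sq_mul_sq Finset.univ ρ F
  have hρsq : ∑ r, ρ r ^ 2 = ((Finset.univ.filter rare).card : ℝ) := by
    have : ∀ r, ρ r ^ 2 = if rare r then (1 : ℝ) else 0 := by
      intro r; simp only [ρ]; split_ifs <;> norm_num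
    rw [Finset.sum_congr rfl fun r _ => this r, Finset.sum_ite]
    simp
  -- step 3: second moment of F
  have hoff : ∀ c c', c ≠ c' → ∑ r, (G c * A c r * γ c r) * (G c' * A c' r * γ c' r) ≤
      X.C * M := by
    intro c c' hcc
    have hne : mkTri i (p, c) ≠ mkTri i (p, c') := fun h => hcc (mkTri_inj h)
    have h1 : ∀ r, A c r * A c' r =
        Q.avg (fun r => X.ind (mkTri i (p, c)) r * X.ind (mkTri i (p, c')) r) r := by
      intro r
      have := X.avg_mul_freeze P hne i ((hed c).trans (hed c').symm) r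
      rw [hed c] at this
      exact this.symm
    have h2 : ∑ r, A c r * A c' r =
        ∑ r : Edge n → Γ, X.ind (mkTri i (p, c)) r * X.ind (mkTri i (p, c')) r := by
      have h3 := Q.tower (fun _ => 1)
        (fun r => X.ind (mkTri i (p, c)) r * X.ind (mkTri i (p, c')) r) (fun _ _ _ => rfl)
      simp only [one_mul] at h3
      rw [← h3]
      exact Finset.sum_congr rfl fun r _ => h1 r
    have h4 : ∑ r, (G c * A c r * γ c r) * (G c' * A c' r * γ c' r) ≤
        ∑ r, G c * G c' * (A c r * A c' r) := by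
      refine Finset.sum_le_sum fun r _ => ?_
      have h5 : γ c r * γ c' r ≤ 1 := by
        calc γ c r * γ c' r ≤ 1 * 1 :=
              mul_le_mul (hγ1 c r) (hγ1 c' r) (hγ0 c' r) (by norm_num)
          _ = 1 := by norm_num
      have h6 : 0 ≤ G c * G c' * (A c r * A c' r) := by
        have := hA0 c r
        have := hA0 c' r
        have := hG0 c
        have := hG0 c'
        positivity
      calc (G c * A c r * γ c r) * (G c' * A c' r * γ c' r)
          = G c * G c' * (A c r * A c' r) * (γ c r * γ c' r) := by ring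
        _ ≤ G c * G c' * (A c r * A c' r) * 1 := mul_le_mul_of_nonneg_left h5 h6
        _ = G c * G c' * (A c r * A c' r) := by ring
    refine h4.trans ?_
    rw [← Finset.mul_sum, h2]
    exact X.sum_ind_mul hne
  have hdiag : ∀ c, ∑ r, (G c * A c r * γ c r) * (G c * A c r * γ c r) ≤
      X.C * (K : ℝ) * M := by
    intro c
    have h1 : ∀ r, (G c * A c r * γ c r) * (G c * A c r * γ c r) ≤
        X.C * (K : ℝ) * (G c * A c r) := by
      intro r
      have hgA : 0 ≤ G c * A c r := mul_nonneg (hG0 c) (hA0 c r)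
      by_cases h2 : good c r
      · obtain ⟨j, hj⟩ : ∃ j : Fin 3, j ≠ i := ⟨i + 1, by fin_cases i <;> decide⟩
        have h3 := hgood c r h2 j hj
        have h4 : Fintype.card Γ ≤ (Q.C r (ed j (mkTri i (p, c)))).card * K := by
          rw [hQ, P.freeze_C_ne]
          · exact h3
          · rw [← hed c]
            exact ed_ne_of_ne hj _ _
        have h5 := X.avg_ind_le Q (mkTri i (p, c)) j r K h4
        have h6 : γ c r = 1 := by simp only [γ, if_pos h2]
        rw [h6, mul_one]
        exact mul_le_mul_of_nonneg_right h5 hgA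
      · have h6 : γ c r = 0 := by simp only [γ, if_neg h2]
        rw [h6]
        simp only [mul_zero]
        positivity
    refine (Finset.sum_le_sum fun r _ => h1 r).trans ?_
    rw [← Finset.mul_sum, ← Finset.mul_sum]
    have h3 := Q.tower (fun _ => 1) (X.ind (mkTri i (p, c))) (fun _ _ _ => rfl)
    simp only [one_mul] at h3
    have h4 : G c * ∑ r, A c r = M := by
      simp only [A]
      rw [h3]
      exact X.sum_ind _
    rw [h4]
  have hF2 : ∑ r, F r ^ 2 ≤ 2 * X.C * (n : ℝ) ^ 2 * M := by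
    have h1 : ∀ r, F r ^ 2 = ∑ c, ∑ c', (G c * A c r * γ c r) * (G c' * A c' r * γ c' r) := by
      intro r
      simp only [F]
      rw [pow_two, Finset.sum_mul_sum]
    rw [Finset.sum_congr rfl fun r _ => h1 r, Finset.sum_comm]
    have h2 : ∀ c, ∑ r, ∑ c', (G c * A c r * γ c r) * (G c' * A c' r * γ c' r) ≤
        2 * X.C * (n : ℝ) * M := by
      intro c
      rw [Finset.sum_comm]
      have hKM : 0 ≤ X.C * (K : ℝ) * M := by positivity
      have hCM : 0 ≤ X.C * M := by positivity
      calc ∑ c', ∑ r, (G c * A c r * γ c r) * (G c' * A c' r * γ c' r)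
          ≤ ∑ c', (if c' = c then X.C * (K : ℝ) * M else X.C * M) := by
            refine Finset.sum_le_sum fun c' _ => ?_
            split_ifs with h3
            · subst h3; exact hdiag c'
            · exact hoff c c' (fun h => h3 h.symm)
        _ ≤ ∑ c', ((if c' = c then X.C * (K : ℝ) * M else 0) + X.C * M) := by
            refine Finset.sum_le_sum fun c' _ => ?_
            split_ifs
            · linarith
            · linarith
        _ = X.C * (K : ℝ) * M + (n : ℝ) * (X.C * M) := by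
            rw [Finset.sum_add_distrib]
            simp
        _ ≤ 2 * X.C * (n : ℝ) * M := by
            have : (K : ℝ) ≤ (n : ℝ) := by exact_mod_cast hK
            nlinarith [mul_le_mul_of_nonneg_left this hCM]
    calc ∑ c, ∑ r, ∑ c', (G c * A c r * γ c r) * (G c' * A c' r * γ c' r)
        ≤ ∑ _c : Fin n, 2 * X.C * (n : ℝ) * M := Finset.sum_le_sum fun c _ => h2 c
      _ = 2 * X.C * (n : ℝ) ^ 2 * M := by
          rw [Finset.sum_const]
          simp only [Finset.card_univ, Fintype.card_fin, nsmul_eq_mul]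
          ring
  -- conclusion
  have hρ2 : ∑ r, ρ r ^ 2 ≤ κ * M := by
    rw [hρsq]
    exact hrare
  have hfin : (∑ r, ρ r * F r) ^ 2 ≤
      ((n : ℝ) * M * Real.sqrt (2 * X.C * κ)) ^ 2 := by
    refine hCS.trans ?_
    have h1 : (∑ r, ρ r ^ 2) * ∑ r, F r ^ 2 ≤
        (κ * M) * (2 * X.C * (n : ℝ) ^ 2 * M) :=
      mul_le_mul hρ2 hF2 (Finset.sum_nonneg fun _ _ => sq_nonneg _) (by positivity)
    refine h1.trans (le_of_eq ?_)
    rw [mul_pow, Real.sq_sqrt (by positivity)]
    ring
  exact (le_abs_self _).trans (abs_le_of_sq_le_sq hfin (by positivity))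

/-- A predicate `the edge is bad after s steps`. -/
structure BadP (R : Reading (Edge n) Γ) (K : ℕ) where
  bad : ℕ → Edge n → (Edge n → Γ) → Prop
  mono : ∀ s e r, bad s e r → bad (s + 1) e r
  meas : ∀ s e r r', (∀ e', r' e' ∈ R.cell s r e') → (bad s e r' ↔ bad s e r)
  zero : ∀ e r, ¬ bad 0 e r
  step : ∀ s e r, (¬ ∃ f, R.act s r = some (e, f)) → bad (s + 1) e r → bad s e r
  cell : ∀ s e r, ¬ bad s e r → Fintype.card Γ ≤ (R.cell s r e).card * K

section stop

variable {R : Reading (Edge n) Γ} {K : ℕ} (W : BadP R K) (L : ℕ)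

lemma BadP.mono' {s t : ℕ} (hst : s ≤ t) {e : Edge n} {r : Edge n → Γ} (h : W.bad s e r) :
    W.bad t e r := by
  induction t, hst using Nat.le_induction with
  | base => exact h
  | succ t _ ih => exact W.mono t e r ih

lemma BadP.meas' {s t : ℕ} (hst : s ≤ t) {e : Edge n} {r r' : Edge n → Γ}
    (h : ∀ e', r' e' ∈ R.cell t r e') : W.bad s e r' ↔ W.bad s e r :=
  W.meas s e r r' fun e' => R.cell_mono hst r e' (h e')

open Classical in
/-- The first time at which `e` is bad (or `L`). -/
noncomputable def stopX (e : Edge n) (r : Edge n → Γ) : ℕ :=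
  Nat.find (⟨L, Or.inr le_rfl⟩ : ∃ s, W.bad s e r ∨ L ≤ s)

lemma stopX_le (e : Edge n) (r : Edge n → Γ) : stopX W L e r ≤ L := by
  classical
  unfold stopX
  exact Nat.find_min' _ (Or.inr le_rfl)

lemma stopX_spec (e : Edge n) (r : Edge n → Γ) :
    W.bad (stopX W L e r) e r ∨ L ≤ stopX W L e r := by
  classical
  unfold stopX
  exact Nat.find_spec (⟨L, Or.inr le_rfl⟩ : ∃ s, W.bad s e r ∨ L ≤ s)

lemma stopX_min {e : Edge n} {r : Edge n → Γ} {s : ℕ} (h : W.bad s e r ∨ L ≤ s) :
    stopX W L e r ≤ s := by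
  classical
  unfold stopX
  exact Nat.find_min' _ h

lemma stopX_eq (e : Edge n) (r r' : Edge n → Γ)
    (h : ∀ e', r' e' ∈ R.cell (stopX W L e r) r e') :
    stopX W L e r' = stopX W L e r := by
  have h1 : stopX W L e r' ≤ stopX W L e r := by
    apply stopX_min
    rcases stopX_spec W L e r with h2 | h2
    · left
      exact (W.meas' le_rfl h).2 h2
    · exact Or.inr h2
  apply le_antisymm h1
  apply stopX_min
  rcases stopX_spec W L e r' with h2 | h2
  · left
    exact (W.meas' h1 h).1 h2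
  · exact Or.inr h2

/-- The partition stopped when `e` becomes bad. -/
noncomputable def stopPartX (e : Edge n) : BoxPart (Edge n) Γ :=
  R.part (stopX W L e) (fun r r' h => stopX_eq W L e r r' h)

/-- `e = ed i T` is the first edge of `T` to become bad. -/
def FirstX (i : Fin 3) (T : Tri n) (r : Edge n → Γ) : Prop :=
  W.bad (stopX W L (ed i T) r) (ed i T) r ∧
    ∀ j, j ≠ i → ¬ W.bad (stopX W L (ed i T) r) (ed j T) r

/-- If some edge of `T` is bad at the end, then some edge is the first one. -/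
lemma exists_firstX (T : Tri n) (r : Edge n → Γ)
    (h : ∃ j, W.bad L (ed j T) r) : ∃ i, FirstX W L i T r := by
  classical
  have hex : ∃ s, ∃ j, W.bad s (ed j T) r := ⟨L, h⟩
  set s := Nat.find hex with hs
  obtain ⟨i, hi⟩ : ∃ j, W.bad s (ed j T) r := Nat.find_spec hex
  have hsL : s ≤ L := Nat.find_min' hex h
  have hmin : ∀ s' < s, ∀ j, ¬ W.bad s' (ed j T) r := by
    intro s' hs' j hj
    exact Nat.find_min hex hs' ⟨j, hj⟩
  have hstop : stopX W L (ed i T) r = s := by
    apply le_antisymm (stopX_min W L (Or.inl hi))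
    by_contra hlt
    push Not at hlt
    rcases stopX_spec W L (ed i T) r with h2 | h2
    · exact hmin _ hlt i h2
    · omega
  have hs0 : s ≠ 0 := by
    intro h0
    rw [h0] at hi
    exact W.zero _ _ hi
  obtain ⟨s', hs'⟩ := Nat.exists_eq_succ_of_ne_zero hs0
  have hlt : s' < s := by omega
  refine ⟨i, ?_, ?_⟩
  · rw [hstop]; exact hi
  · intro j hj hr
    rw [hstop] at hr
    have hact : ∃ f, R.act s' r = some (ed i T, f) := by
      by_contra hno
      apply hmin s' hlt i
      rw [hs'] at hi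
      exact W.step s' _ r hno hi
    obtain ⟨f, hf⟩ := hact
    have hno : ¬ ∃ f', R.act s' r = some (ed j T, f') := by
      rintro ⟨f', hf'⟩
      rw [hf] at hf'
      simp only [Option.some.injEq, Prod.mk.injEq] at hf'
      exact hj (Prod.ext_iff.1 hf'.1).1.symm
    apply hmin s' hlt j
    rw [hs'] at hr
    exact W.step s' _ r hno hr

end stop

section Core

variable [AddCommGroup Γ] {R : Reading (Edge n) Γ} {K : ℕ} (W : BadP R K)

open Classical in
/-- The averaged probability that some edge of the planted triangle becomes rare. -/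
lemma sum_bad_leX (L : ℕ) (hK : K ≤ n) (ρ : Edge n → ℝ) (hρ0 : ∀ e, 0 ≤ ρ e)
    (hρ : ∀ e, ((Finset.univ.filter fun r : Edge n → Γ => W.bad L e r).card : ℝ) ≤
      ρ e * (Fintype.card (Edge n → Γ) : ℝ))
    (κ : ℝ) (hκ : ∀ i : Fin 3, ∑ p : Fin n × Fin n, ρ (i, p.1, p.2) ≤ (n : ℝ) ^ 2 * κ) :
    ∑ T : Tri n, ∑ r : Edge n → Γ, (if ∃ j, W.bad L (ed j T) r then
        X.g T * X.ind T r else 0) ≤
      3 * ((n : ℝ) ^ 3 * (Fintype.card (Edge n → Γ) : ℝ) * Real.sqrt (2 * X.C * κ)) := by
  set M : ℝ := (Fintype.card (Edge n → Γ) : ℝ) with hM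
  have h1 : ∀ T : Tri n, ∀ r : Edge n → Γ,
      (if ∃ j, W.bad L (ed j T) r then X.g T * X.ind T r else 0) ≤
        ∑ i : Fin 3, (if FirstX W L i T r then X.g T * X.ind T r else 0) := by
    intro T r
    have hnn : ∀ i ∈ (Finset.univ : Finset (Fin 3)),
        0 ≤ (if FirstX W L i T r then X.g T * X.ind T r else 0) := by
      intro i _
      split_ifs
      · exact mul_nonneg (X.g_nonneg T) (X.ind_nonneg T r)
      · exact le_rfl
    split_ifs with h
    · obtain ⟨i, hi⟩ := exists_firstX W L T r h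
      have := Finset.single_le_sum hnn (Finset.mem_univ i)
      rw [if_pos hi] at this
      exact this
    · exact Finset.sum_nonneg hnn
  have h2 : ∀ i : Fin 3, ∑ T : Tri n, ∑ r : Edge n → Γ,
      (if FirstX W L i T r then X.g T * X.ind T r else 0) ≤
        (n : ℝ) ^ 3 * M * Real.sqrt (2 * X.C * κ) := by
    intro i
    rw [sum_tri i]
    have h3 : ∀ p : Fin n × Fin n, ∑ c : Fin n, ∑ r : Edge n → Γ,
        (if FirstX W L i (mkTri i (p, c)) r then X.g (mkTri i (p, c)) * X.ind (mkTri i (p, c)) r else 0) ≤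
          (n : ℝ) * M * Real.sqrt (2 * X.C * ρ (i, p.1, p.2)) := by
      intro p
      set e : Edge n := (i, p.1, p.2) with he
      have hed : ∀ c, ed i (mkTri i (p, c)) = e := fun c => ed_mkTri i (p, c)
      set P := stopPartX W L e with hP
      have hcell : ∀ r r', r' ∈ P.box r →
          stopX W L e r' = stopX W L e r ∧ ∀ e' ∈ (Finset.univ : Finset (Edge n)),
            r' e' ∈ R.cell (stopX W L e r) r e' := by
        intro r r' h
        have hm : ∀ e', r' e' ∈ R.cell (stopX W L e r) r e' := P.mem_box.1 h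
        exact ⟨stopX_eq W L e r r' hm, fun e' _ => hm e'⟩
      have key := edge_boundX X P i p K (ρ (i, p.1, p.2)) (hρ0 _) hK
        (fun r => W.bad (stopX W L e r) e r)
        (by
          intro r r' h
          obtain ⟨h4, h5⟩ := hcell r r' h
          rw [h4]
          exact W.meas _ _ _ _ fun e' => h5 e' (Finset.mem_univ _))
        (by
          refine le_trans ?_ (hρ (i, p.1, p.2))
          exact_mod_cast Finset.card_le_card (by
            intro r hr
            rw [Finset.mem_filter] at hr ⊢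
            exact ⟨Finset.mem_univ r, W.mono' (stopX_le W L e r) hr.2⟩))
        (fun c r => ∀ j, j ≠ i → ¬ W.bad (stopX W L e r) (ed j (mkTri i (p, c))) r)
        (by
          intro c r r' h
          obtain ⟨h4, h5⟩ := hcell r r' h
          rw [h4]
          refine forall_congr' fun j => imp_congr_right fun _ => not_congr ?_
          exact W.meas _ _ _ _ fun e' => h5 e' (Finset.mem_univ _))
        (by
          intro c r h j hj
          exact W.cell _ _ _ (h j hj))
      refine le_trans (le_of_eq ?_) key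
      refine Finset.sum_congr rfl fun c _ => Finset.sum_congr rfl fun r _ => ?_
      unfold FirstX
      rw [hed c]
      by_cases hcond : W.bad (stopX W L e r) e r ∧
          ∀ j, j ≠ i → ¬ W.bad (stopX W L e r) (ed j (mkTri i (p, c))) r
      · rw [if_pos hcond, if_pos hcond]
      · rw [if_neg hcond, if_neg hcond]
    calc ∑ p : Fin n × Fin n, ∑ c : Fin n, ∑ r : Edge n → Γ,
        (if FirstX W L i (mkTri i (p, c)) r then X.g (mkTri i (p, c)) * X.ind (mkTri i (p, c)) r else 0)
        ≤ ∑ p : Fin n × Fin n, (n : ℝ) * M * Real.sqrt (2 * X.C * ρ (i, p.1, p.2)) :=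
          Finset.sum_le_sum fun p _ => h3 p
      _ = (n : ℝ) * M * ∑ p : Fin n × Fin n, Real.sqrt (2 * X.C * ρ (i, p.1, p.2)) := by
          rw [Finset.mul_sum]
      _ ≤ (n : ℝ) * M * ((n : ℝ) ^ 2 * Real.sqrt (2 * X.C * κ)) := by
          apply mul_le_mul_of_nonneg_left _ (by positivity)
          have hCS := Finset.sum_mul_sq_le_sq_mul_sq (Finset.univ : Finset (Fin n × Fin n))
            (fun _ => (1 : ℝ)) (fun p => Real.sqrt (2 * X.C * ρ (i, p.1, p.2)))
          simp only [one_mul, one_pow, Finset.sum_const, Finset.card_univ, Fintype.card_prod,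
            Fintype.card_fin, nsmul_eq_mul, mul_one] at hCS
          have hC0 : 0 ≤ X.C := le_trans zero_le_one X.one_le_C
          have h5 : ∀ p : Fin n × Fin n, Real.sqrt (2 * X.C * ρ (i, p.1, p.2)) ^ 2 =
              2 * X.C * ρ (i, p.1, p.2) := fun p =>
            Real.sq_sqrt (mul_nonneg (by positivity) (hρ0 _))
          rw [Finset.sum_congr rfl fun p _ => h5 p, ← Finset.mul_sum] at hCS
          have hκ0 : 0 ≤ (n : ℝ) ^ 2 * κ :=
            le_trans (Finset.sum_nonneg fun p _ => hρ0 _) (hκ i)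
          rcases Nat.eq_zero_or_pos n with hn0 | hn0
          · subst hn0
            simp
          have hn1 : (0 : ℝ) < (n : ℝ) ^ 2 := by positivity
          have hκ1 : 0 ≤ κ := by
            by_contra hneg
            push Not at hneg
            nlinarith
          refine (le_abs_self _).trans (abs_le_of_sq_le_sq ?_ (by positivity))
          rw [mul_pow, Real.sq_sqrt (by positivity)]
          refine hCS.trans ?_
          push_cast
          have h6 := mul_le_mul_of_nonneg_left (hκ i)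
            (show (0 : ℝ) ≤ (n : ℝ) * n * (2 * X.C) by positivity)
          nlinarith [h6]
      _ = (n : ℝ) ^ 3 * M * Real.sqrt (2 * X.C * κ) := by ring
  calc ∑ T : Tri n, ∑ r : Edge n → Γ,
        (if ∃ j, W.bad L (ed j T) r then X.g T * X.ind T r else 0)
      ≤ ∑ T : Tri n, ∑ r : Edge n → Γ, ∑ i : Fin 3,
          (if FirstX W L i T r then X.g T * X.ind T r else 0) :=
        Finset.sum_le_sum fun T _ => Finset.sum_le_sum fun r _ => h1 T r
    _ = ∑ i : Fin 3, ∑ T : Tri n, ∑ r : Edge n → Γ,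
          (if FirstX W L i T r then X.g T * X.ind T r else 0) := by
        rw [Finset.sum_congr rfl fun T _ => Finset.sum_comm]
        rw [Finset.sum_comm]
    _ ≤ ∑ _i : Fin 3, (n : ℝ) ^ 3 * M * Real.sqrt (2 * X.C * κ) :=
        Finset.sum_le_sum fun i _ => h2 i
    _ = 3 * ((n : ℝ) ^ 3 * M * Real.sqrt (2 * X.C * κ)) := by
        rw [Finset.sum_const]
        simp

open Classical in
/-- **Leakage core.** -/
theorem leak_coreX (L N : ℕ) (hn : 0 < n) (hK : K ≤ n) (ρ : Edge n → ℝ) (hρ0 : ∀ e, 0 ≤ ρ e)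
    (hρ : ∀ e, ((Finset.univ.filter fun r : Edge n → Γ => W.bad L e r).card : ℝ) ≤
      ρ e * (Fintype.card (Edge n → Γ) : ℝ))
    (κ : ℝ) (hκ : ∀ i : Fin 3, ∑ p : Fin n × Fin n, ρ (i, p.1, p.2) ≤ (n : ℝ) ^ 2 * κ)
    (acc : (Edge n → Γ) → ℝ) (h0 : ∀ r, 0 ≤ acc r) (h1 : ∀ r, acc r ≤ 1)
    (hacc : ∀ r r', (∀ e, r' e ∈ R.cell L r e) → acc r' = acc r)
    (Cov : (Edge n → Γ) → Finset (Tri n))
    (hCov : ∀ r r', (∀ e, r' e ∈ R.cell L r e) → Cov r' = Cov r)
    (hN : ∀ r, (Cov r).card ≤ N) :
    (n : ℝ) ^ 3 * ∑ r, acc r - (n : ℝ) ^ 3 * (Fintype.card (Edge n → Γ) : ℝ) *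
        (Real.sqrt (3 * (X.C * K) / (n : ℝ) ^ 2 +
            6 * Real.sqrt (2 * X.C * κ)) +
          (N : ℝ) * (X.C * K) / (n : ℝ) ^ 3) ≤
      ∑ T : Tri n, ∑ r : Edge n → Γ, (if T ∉ Cov r then X.g T * X.ind T r * acc r else 0) := by
  set ε := Real.sqrt (2 * X.C * κ) with hε
  set M : ℝ := (Fintype.card (Edge n → Γ) : ℝ) with hM
  have hC0 : 0 ≤ X.C := le_trans zero_le_one X.one_le_C
  have hM0 : 0 ≤ M := Nat.cast_nonneg _
  have hn0 : (0 : ℝ) < (n : ℝ) := by exact_mod_cast hn
  set Kc : ℝ := X.C * ((K : ℕ) : ℝ) with hKc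
  have hKc0 : 0 ≤ Kc := mul_nonneg hC0 (Nat.cast_nonneg _)
  have hKr : Kc = X.C * K := rfl
  set P := R.partAt L with hP
  have hmem : ∀ r r', r' ∈ P.box r → ∀ e, r' e ∈ R.cell L r e := fun r r' h => P.mem_box.1 h
  -- good triangles
  let γ : Tri n → (Edge n → Γ) → ℝ := fun T r => if ∃ j, W.bad L (ed j T) r then 0 else 1
  have hγP : ∀ T, P.Meas (γ T) := by
    intro T r r' h
    have hiff : (∃ j, W.bad L (ed j T) r') ↔ ∃ j, W.bad L (ed j T) r :=
      exists_congr fun j => W.meas _ _ _ _ (hmem r r' h)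
    by_cases h6 : ∃ j, W.bad L (ed j T) r
    · have h7 := hiff.2 h6
      simp only [γ, if_pos h6, if_pos h7]
    · have h7 := fun h => h6 (hiff.1 h)
      simp only [γ, if_neg h6, if_neg h7]
  have hγ0 : ∀ T r, 0 ≤ γ T r := by intro T r; simp only [γ]; split_ifs <;> norm_num
  have hγ1 : ∀ T r, γ T r ≤ 1 := by intro T r; simp only [γ]; split_ifs <;> norm_num
  let A : Tri n → (Edge n → Γ) → ℝ := fun T r => P.avg (X.ind T) r
  have hA0 : ∀ T r, 0 ≤ A T r := fun T r => P.avg_nonneg (fun r => X.ind_nonneg _ r) r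
  have hAK : ∀ T r, X.g T * A T r * γ T r ≤ Kc := by
    intro T r
    by_cases h2 : ∃ j, W.bad L (ed j T) r
    · simp only [γ, if_pos h2, mul_zero]
      exact hKc0
    · simp only [γ, if_neg h2, mul_one]
      have h3 : ¬ W.bad L (ed 0 T) r := fun h => h2 ⟨0, h⟩
      exact X.avg_ind_le P T 0 r K (W.cell _ _ _ h3)
  have hAnn : ∀ T r, 0 ≤ X.g T * A T r * γ T r := fun T r =>
    mul_nonneg (mul_nonneg (X.g_nonneg T) (hA0 T r)) (hγ0 T r)
  let Y : (Edge n → Γ) → ℝ := fun r => ∑ T, X.g T * A T r * γ T r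
  have hAsum : ∀ T, X.g T * ∑ r, A T r = M := by
    intro T
    have h3 := P.tower (fun _ => 1) (X.ind T) (fun _ _ _ => rfl)
    simp only [one_mul] at h3
    simp only [A]
    rw [h3]
    exact X.sum_ind T
  have hcardT : (Fintype.card (Tri n) : ℝ) = (n : ℝ) ^ 3 := by
    simp [Tri]
  -- first moment of X
  have hX1 : (n : ℝ) ^ 3 * M - 3 * ((n : ℝ) ^ 3 * M * ε) ≤ ∑ r, Y r := by
    have hbad := sum_bad_leX X W L hK ρ hρ0 hρ κ hκ
    have h2 : ∀ T : Tri n, ∑ r, X.g T * A T r * γ T r =
        M - ∑ r : Edge n → Γ, (if ∃ j, W.bad L (ed j T) r then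
          X.g T * X.ind T r else 0) := by
      intro T
      have h3 := P.tower (γ T) (X.ind T) (hγP T)
      have h4 : ∑ r, X.g T * A T r * γ T r = X.g T * ∑ r, γ T r * P.avg (X.ind T) r := by
        rw [Finset.mul_sum]
        exact Finset.sum_congr rfl fun r _ => by simp only [A]; ring
      have hMeq : M = X.g T * ∑ r : Edge n → Γ, X.ind T r := (X.sum_ind T).symm
      rw [h4, h3, hMeq, Finset.mul_sum, Finset.mul_sum, ← Finset.sum_sub_distrib]
      refine Finset.sum_congr rfl fun r _ => ?_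
      simp only [γ]
      split_ifs <;> ring
    have h5 : ∑ r, Y r = ∑ T : Tri n, ∑ r, X.g T * A T r * γ T r := by
      simp only [Y]
      rw [Finset.sum_comm]
    rw [h5, Finset.sum_congr rfl fun T _ => h2 T, Finset.sum_sub_distrib, Finset.sum_const,
      Finset.card_univ, nsmul_eq_mul, hcardT]
    linarith
  -- second moment of X
  have hX2 : ∑ r, Y r ^ 2 ≤ ((n : ℝ) ^ 6 + 3 * (n : ℝ) ^ 4 * Kc) * M := by
    have h2 : ∀ r, Y r ^ 2 = ∑ T, ∑ T', (X.g T * A T r * γ T r) * (X.g T' * A T' r * γ T' r) := by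
      intro r
      simp only [Y]
      rw [pow_two, Finset.sum_mul_sum]
    have hgen : ∀ T T' : Tri n, ∑ r, (X.g T * A T r * γ T r) * (X.g T' * A T' r * γ T' r) ≤
        M + ∑ i : Fin 3, (if ed i T = ed i T' then Kc * M else 0) := by
      intro T T'
      have hKM : 0 ≤ Kc * M := mul_nonneg hKc0 hM0
      by_cases hs : ∃ i, ed i T = ed i T'
      · obtain ⟨i, hi⟩ := hs
        have h3 : ∑ r, (X.g T * A T r * γ T r) * (X.g T' * A T' r * γ T' r) ≤ Kc * M := by
          have h4 : ∀ r, (X.g T * A T r * γ T r) * (X.g T' * A T' r * γ T' r) ≤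
              Kc * (X.g T' * A T' r) := by
            intro r
            have h5 : X.g T' * A T' r * γ T' r ≤ X.g T' * A T' r := by
              calc X.g T' * A T' r * γ T' r ≤ X.g T' * A T' r * 1 :=
                    mul_le_mul_of_nonneg_left (hγ1 T' r) (mul_nonneg (X.g_nonneg T') (hA0 T' r))
                _ = X.g T' * A T' r := mul_one _
            exact mul_le_mul (hAK T r) h5 (hAnn T' r) hKc0
          calc ∑ r, (X.g T * A T r * γ T r) * (X.g T' * A T' r * γ T' r)
              ≤ ∑ r, Kc * (X.g T' * A T' r) := Finset.sum_le_sum fun r _ => h4 r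
            _ = Kc * M := by rw [← Finset.mul_sum, ← Finset.mul_sum, hAsum T']
        have h6 : Kc * M ≤ ∑ i : Fin 3, (if ed i T = ed i T' then Kc * M else 0) := by
          have h7 : ∀ j ∈ (Finset.univ : Finset (Fin 3)),
              0 ≤ (if ed j T = ed j T' then Kc * M else 0) := by
            intro j _
            split_ifs
            · exact hKM
            · exact le_rfl
          have h8 := Finset.single_le_sum h7 (Finset.mem_univ i)
          rw [if_pos hi] at h8
          exact h8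
        linarith
      · push Not at hs
        have hne : T ≠ T' := by
          intro h
          exact hs 0 (by rw [h])
        have h3 : ∑ r, (X.g T * A T r * γ T r) * (X.g T' * A T' r * γ T' r) ≤ M := by
          have h4 : ∀ r, (X.g T * A T r * γ T r) * (X.g T' * A T' r * γ T' r) ≤
              X.g T * X.g T' * P.avg (fun r => X.ind T r * X.ind T' r) r := by
            intro r
            rw [X.avg_mul_disjoint P hs r]
            have h5 : γ T r * γ T' r ≤ 1 := by
              calc γ T r * γ T' r ≤ 1 * 1 :=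
                    mul_le_mul (hγ1 T r) (hγ1 T' r) (hγ0 T' r) (by norm_num)
                _ = 1 := by norm_num
            have h6 : 0 ≤ X.g T * X.g T' * (A T r * A T' r) := by
              have := hA0 T r
              have := hA0 T' r
              have := X.g_nonneg T
              have := X.g_nonneg T'
              positivity
            calc (X.g T * A T r * γ T r) * (X.g T' * A T' r * γ T' r)
                = X.g T * X.g T' * (A T r * A T' r) * (γ T r * γ T' r) := by ring
              _ ≤ X.g T * X.g T' * (A T r * A T' r) * 1 := mul_le_mul_of_nonneg_left h5 h6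
              _ = X.g T * X.g T' * (A T r * A T' r) := by ring
          have h7 := P.tower (fun _ => 1) (fun r => X.ind T r * X.ind T' r) (fun _ _ _ => rfl)
          simp only [one_mul] at h7
          calc ∑ r, (X.g T * A T r * γ T r) * (X.g T' * A T' r * γ T' r)
              ≤ ∑ r, X.g T * X.g T' * P.avg (fun r => X.ind T r * X.ind T' r) r :=
                Finset.sum_le_sum fun r _ => h4 r
            _ ≤ M := by
                rw [← Finset.mul_sum, h7]
                exact X.sum_ind_mul_disjoint hs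
        have h8 : 0 ≤ ∑ i : Fin 3, (if ed i T = ed i T' then Kc * M else 0) := by
          refine Finset.sum_nonneg fun i _ => ?_
          split_ifs
          · exact hKM
          · exact le_rfl
        linarith
    calc ∑ r, Y r ^ 2 = ∑ T, ∑ T', ∑ r, (X.g T * A T r * γ T r) * (X.g T' * A T' r * γ T' r) := by
          rw [Finset.sum_congr rfl fun r _ => h2 r, Finset.sum_comm]
          refine Finset.sum_congr rfl fun T _ => ?_
          rw [Finset.sum_comm]
      _ ≤ ∑ T : Tri n, ∑ T' : Tri n,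
            (M + ∑ i : Fin 3, (if ed i T = ed i T' then Kc * M else 0)) :=
          Finset.sum_le_sum fun T _ => Finset.sum_le_sum fun T' _ => hgen T T'
      _ = ∑ T : Tri n, ((n : ℝ) ^ 3 * M + ∑ i : Fin 3,
            ((Finset.univ.filter fun T' : Tri n => ed i T = ed i T').card : ℝ) *
              (Kc * M)) := by
          refine Finset.sum_congr rfl fun T _ => ?_
          rw [Finset.sum_add_distrib, Finset.sum_const, Finset.card_univ, nsmul_eq_mul, hcardT,
            Finset.sum_comm]
          congr 1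
          refine Finset.sum_congr rfl fun i _ => ?_
          rw [← Finset.sum_filter, Finset.sum_const, nsmul_eq_mul]
      _ ≤ ∑ T : Tri n, ((n : ℝ) ^ 3 * M + ∑ _i : Fin 3, (n : ℝ) * (Kc * M)) := by
          refine Finset.sum_le_sum fun T _ => ?_
          refine add_le_add le_rfl (Finset.sum_le_sum fun i _ => ?_)
          exact mul_le_mul_of_nonneg_right (card_share_le i T)
            (mul_nonneg hKc0 hM0)
      _ = ((n : ℝ) ^ 6 + 3 * (n : ℝ) ^ 4 * Kc) * M := by
          rw [Finset.sum_const, Finset.card_univ, nsmul_eq_mul, hcardT]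
          simp only [Finset.sum_const, Finset.card_univ, Fintype.card_fin, nsmul_eq_mul]
          push_cast
          ring
  -- deviation of X
  have hdev : ∑ r, |Y r - (n : ℝ) ^ 3| ≤
      (n : ℝ) ^ 3 * M * Real.sqrt (3 * Kc / (n : ℝ) ^ 2 + 6 * ε) := by
    have hsq : ∑ r, (Y r - (n : ℝ) ^ 3) ^ 2 ≤
        (3 * (n : ℝ) ^ 4 * Kc + 6 * (n : ℝ) ^ 6 * ε) * M := by
      have h2 : ∑ r, (Y r - (n : ℝ) ^ 3) ^ 2 =
          ∑ r, Y r ^ 2 - 2 * (n : ℝ) ^ 3 * ∑ r, Y r + (n : ℝ) ^ 6 * M := by
        have h3 : ∀ r, (Y r - (n : ℝ) ^ 3) ^ 2 =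
            Y r ^ 2 - 2 * (n : ℝ) ^ 3 * Y r + (n : ℝ) ^ 6 := by
          intro r; ring
        rw [Finset.sum_congr rfl fun r _ => h3 r, Finset.sum_add_distrib,
          Finset.sum_sub_distrib, ← Finset.mul_sum, Finset.sum_const, Finset.card_univ,
          nsmul_eq_mul]
        ring
      rw [h2]
      have h4 : 2 * (n : ℝ) ^ 3 * ((n : ℝ) ^ 3 * M - 3 * ((n : ℝ) ^ 3 * M * ε)) ≤
          2 * (n : ℝ) ^ 3 * ∑ r, Y r := mul_le_mul_of_nonneg_left hX1 (by positivity)
      nlinarith [hX2, h4]
    have hCS := Finset.sum_mul_sq_le_sq_mul_sq Finset.univ (fun _ : Edge n → Γ => (1 : ℝ))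
      (fun r => |Y r - (n : ℝ) ^ 3|)
    simp only [one_mul, one_pow, sq_abs, Finset.sum_const, Finset.card_univ, nsmul_eq_mul,
      mul_one] at hCS
    have hε0 : 0 ≤ ε := Real.sqrt_nonneg _
    have h5 : (∑ r, |Y r - (n : ℝ) ^ 3|) ^ 2 ≤
        ((n : ℝ) ^ 3 * M * Real.sqrt (3 * Kc / (n : ℝ) ^ 2 + 6 * ε)) ^ 2 := by
      refine hCS.trans ?_
      rw [mul_pow, Real.sq_sqrt (by positivity)]
      calc M * ∑ r, (Y r - (n : ℝ) ^ 3) ^ 2
          ≤ M * ((3 * (n : ℝ) ^ 4 * Kc + 6 * (n : ℝ) ^ 6 * ε) * M) :=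
            mul_le_mul_of_nonneg_left hsq hM0
        _ = ((n : ℝ) ^ 3 * M) ^ 2 * (3 * Kc / (n : ℝ) ^ 2 + 6 * ε) := by
            field_simp
    exact (le_abs_self _).trans (abs_le_of_sq_le_sq h5 (by positivity))
  -- lower bound for the accepted planted mass outside the covered triangles
  let κ : Tri n → (Edge n → Γ) → ℝ := fun T r => if T ∈ Cov r then 0 else 1
  have hκP : ∀ T, P.Meas (κ T) := by
    intro T r r' h
    simp only [κ, hCov r r' (hmem r r' h)]
  have haccP : P.Meas acc := fun r r' h => hacc r r' (hmem r r' h)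
  have hlow : ∑ T : Tri n, ∑ r, acc r * κ T r * (X.g T * A T r * γ T r) ≤
      ∑ T : Tri n, ∑ r : Edge n → Γ, (if T ∉ Cov r then X.g T * X.ind T r * acc r else 0) := by
    refine Finset.sum_le_sum fun T _ => ?_
    have h2 := P.tower (fun r => acc r * κ T r * γ T r) (X.ind T)
      (BoxPart.Meas.mul P (BoxPart.Meas.mul P haccP (hκP T)) (hγP T))
    have h3 : ∑ r, acc r * κ T r * (X.g T * A T r * γ T r) =
        X.g T * ∑ r, acc r * κ T r * γ T r * P.avg (X.ind T) r := by
      rw [Finset.mul_sum]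
      exact Finset.sum_congr rfl fun r _ => by simp only [A]; ring
    rw [h3, h2, Finset.mul_sum]
    refine Finset.sum_le_sum fun r _ => ?_
    by_cases h5 : T ∈ Cov r
    · simp [κ, h5]
    · simp only [κ, if_neg h5, mul_one]
      rw [if_pos h5]
      have h6 : acc r * γ T r ≤ acc r * 1 := mul_le_mul_of_nonneg_left (hγ1 T r) (h0 r)
      have h7 : 0 ≤ X.g T * X.ind T r := mul_nonneg (X.g_nonneg T) (X.ind_nonneg T r)
      calc X.g T * (acc r * γ T r * X.ind T r) = X.g T * X.ind T r * (acc r * γ T r) := by ring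
        _ ≤ X.g T * X.ind T r * (acc r * 1) := mul_le_mul_of_nonneg_left h6 h7
        _ = X.g T * X.ind T r * acc r := by ring
  refine le_trans ?_ hlow
  have h2 : ∑ T : Tri n, ∑ r, acc r * κ T r * (X.g T * A T r * γ T r) =
      ∑ r, acc r * (Y r - ∑ T ∈ Cov r, X.g T * A T r * γ T r) := by
    rw [Finset.sum_comm]
    refine Finset.sum_congr rfl fun r _ => ?_
    have h3 : ∑ T : Tri n, acc r * κ T r * (X.g T * A T r * γ T r) =
        acc r * ∑ T : Tri n, κ T r * (X.g T * A T r * γ T r) := by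
      rw [Finset.mul_sum]
      exact Finset.sum_congr rfl fun T _ => by ring
    rw [h3]
    congr 1
    have h4 : ∑ T ∈ Cov r, X.g T * A T r * γ T r =
        ∑ T : Tri n, (if T ∈ Cov r then X.g T * A T r * γ T r else 0) := by
      rw [Finset.sum_ite_mem, Finset.univ_inter]
    rw [h4]
    simp only [Y]
    rw [← Finset.sum_sub_distrib]
    refine Finset.sum_congr rfl fun T _ => ?_
    simp only [κ]
    split_ifs <;> ring
  rw [h2]
  have h3 : ∀ r, acc r * (n : ℝ) ^ 3 - |Y r - (n : ℝ) ^ 3| - (N : ℝ) * Kc ≤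
      acc r * (Y r - ∑ T ∈ Cov r, X.g T * A T r * γ T r) := by
    intro r
    have h4 : ∑ T ∈ Cov r, X.g T * A T r * γ T r ≤ (N : ℝ) * Kc := by
      calc ∑ T ∈ Cov r, X.g T * A T r * γ T r ≤ ∑ _T ∈ Cov r, Kc :=
            Finset.sum_le_sum fun T _ => hAK T r
        _ = ((Cov r).card : ℝ) * Kc := by rw [Finset.sum_const, nsmul_eq_mul]
        _ ≤ (N : ℝ) * Kc :=
            mul_le_mul_of_nonneg_right (by exact_mod_cast hN r) hKc0
    have hNK : 0 ≤ (N : ℝ) * Kc := by positivity
    have h5 : acc r * ((n : ℝ) ^ 3 - Y r) ≤ |Y r - (n : ℝ) ^ 3| := by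
      calc acc r * ((n : ℝ) ^ 3 - Y r) ≤ acc r * |Y r - (n : ℝ) ^ 3| :=
            mul_le_mul_of_nonneg_left (by rw [abs_sub_comm]; exact le_abs_self _) (h0 r)
        _ ≤ 1 * |Y r - (n : ℝ) ^ 3| := mul_le_mul_of_nonneg_right (h1 r) (abs_nonneg _)
        _ = |Y r - (n : ℝ) ^ 3| := one_mul _
    have h6 : acc r * ∑ T ∈ Cov r, X.g T * A T r * γ T r ≤ (N : ℝ) * Kc := by
      calc acc r * ∑ T ∈ Cov r, X.g T * A T r * γ T r ≤ acc r * ((N : ℝ) * Kc) :=
            mul_le_mul_of_nonneg_left h4 (h0 r)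
        _ ≤ 1 * ((N : ℝ) * Kc) := mul_le_mul_of_nonneg_right (h1 r) hNK
        _ = (N : ℝ) * Kc := one_mul _
    nlinarith [h5, h6]
  have h4 := Finset.sum_le_sum fun r (_ : r ∈ (Finset.univ : Finset (Edge n → Γ))) => h3 r
  refine le_trans ?_ h4
  rw [Finset.sum_sub_distrib, Finset.sum_sub_distrib, ← Finset.sum_mul, Finset.sum_const,
    Finset.card_univ, nsmul_eq_mul]
  have h5 : (n : ℝ) ^ 3 * M * ((N : ℝ) * (X.C * K) / (n : ℝ) ^ 3) = M * ((N : ℝ) * Kc) := by
    rw [hKr]
    field_simp
  rw [hKr] at hdev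
  rw [mul_add, h5]
  linarith

end Core

end Pool.Agent.Helper7.LKX
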