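import Mathlib
import Pool.Agent.Helper7.LKX.CoreF

/-!
# Readings that reveal bad coordinates

Adaptive questions with two answers about single coordinates. When the cell of a coordinate is
small, or when it has been asked more than `b` times, the coordinate is revealed.
-/

set_option autoImplicit false

namespace Pool.Agent.Helper7.LKX

open Finset Pool.Agent.Helper95.LK Pool.Agent.Helper7.LK

section raw

variable {E Γ : Type*} [DecidableEq E] [Fintype Γ] [DecidableEq Γ]

/-- The cells of the coordinates and the numbers of their readings. -/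
abbrev Raw (E Γ : Type*) := E → Finset Γ × ℕ

/-- The cell is small or has been read more than `b` times. -/
def badc (b K : ℕ) (x : Finset Γ × ℕ) : Prop := x.1.card * K < Fintype.card Γ ∨ b < x.2

instance (b K : ℕ) (x : Finset Γ × ℕ) : Decidable (badc b K x) := by
  unfold badc; infer_instance

/-- One reading; bad cells are not changed any more. -/
def rstep (b K : ℕ) (s : E → Γ) (w : Raw E Γ) : Option (E × (Γ → Bool)) → Raw E Γ
  | none => w
  | some (e, f) => Function.update w e
      (if badc b K (w e) then w e else ((w e).1.filter fun γ => f γ = f (s e), (w e).2 + 1))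

/-- The values that are consistent with the information about the coordinate `e`. -/
def known (b K : ℕ) (s : E → Γ) (w : Raw E Γ) (e : E) : Finset Γ :=
  if badc b K (w e) then {s e} else (w e).1

variable {b K : ℕ} {s s' : E → Γ} {w : Raw E Γ}

lemma rstep_bad {a : Option (E × (Γ → Bool))} {e : E} (h : badc b K (w e)) :
    rstep b K s w a e = w e := by
  rcases a with _ | ⟨e', f⟩
  · rfl
  · simp only [rstep]
    by_cases he : e = e'
    · subst he
      rw [Function.update_self, if_pos h]
    · rw [Function.update_of_ne he]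

lemma rstep_of_ne {a : Option (E × (Γ → Bool))} {e : E} (h : ∀ f, a ≠ some (e, f)) :
    rstep b K s w a e = w e := by
  rcases a with _ | ⟨e', f⟩
  · rfl
  · simp only [rstep]
    by_cases he : e = e'
    · subst he
      exact absurd rfl (h f)
    · rw [Function.update_of_ne he]

lemma rstep_of_some {e : E} {f : Γ → Bool} (h : ¬ badc b K (w e)) :
    rstep b K s w (some (e, f)) e = ((w e).1.filter fun γ => f γ = f (s e), (w e).2 + 1) := by
  simp only [rstep]
  rw [Function.update_self, if_neg h]

lemma mem_rstep {a : Option (E × (Γ → Bool))} {e : E} (h : s e ∈ (w e).1) :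
    s e ∈ (rstep b K s w a e).1 := by
  by_cases hb : badc b K (w e)
  · rw [rstep_bad hb]; exact h
  · by_cases ha : ∃ f, a = some (e, f)
    · obtain ⟨f, rfl⟩ := ha
      rw [rstep_of_some hb]
      exact Finset.mem_filter.2 ⟨h, rfl⟩
    · push Not at ha
      rw [rstep_of_ne ha]; exact h

lemma rstep_subset {a : Option (E × (Γ → Bool))} {e : E} :
    (rstep b K s w a e).1 ⊆ (w e).1 := by
  by_cases hb : badc b K (w e)
  · rw [rstep_bad hb]
  · by_cases ha : ∃ f, a = some (e, f)
    · obtain ⟨f, rfl⟩ := ha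
      rw [rstep_of_some hb]
      exact Finset.filter_subset _ _
    · push Not at ha
      rw [rstep_of_ne ha]

lemma mem_known {e : E} (h : s e ∈ (w e).1) : s e ∈ known b K s w e := by
  unfold known
  split_ifs
  · exact Finset.mem_singleton_self _
  · exact h

lemma known_subset {e : E} (h : s e ∈ (w e).1) : known b K s w e ⊆ (w e).1 := by
  unfold known
  split_ifs
  · exact Finset.singleton_subset_iff.2 h
  · exact subset_rfl

lemma known_anti {a : Option (E × (Γ → Bool))} {e : E} (h : s e ∈ (w e).1) :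
    known b K s (rstep b K s w a) e ⊆ known b K s w e := by
  by_cases hb : badc b K (w e)
  · unfold known
    rw [rstep_bad hb]
  · have h1 : known b K s w e = (w e).1 := by
      unfold known
      rw [if_neg hb]
    rw [h1]
    exact (known_subset (mem_rstep h)).trans rstep_subset

/-- The next cells are the same for consistent points. -/
lemma rstep_congr {a : Option (E × (Γ → Bool))} (hs : ∀ e, s e ∈ (w e).1)
    (h : ∀ e, s' e ∈ known b K s (rstep b K s w a) e) :
    rstep b K s' w a = rstep b K s w a := by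
  funext e
  by_cases hb : badc b K (w e)
  · rw [rstep_bad hb, rstep_bad hb]
  · by_cases ha : ∃ f, a = some (e, f)
    · obtain ⟨f, rfl⟩ := ha
      have h1 : s' e ∈ (rstep b K s w (some (e, f)) e).1 :=
        known_subset (mem_rstep (hs e)) (h e)
      rw [rstep_of_some hb] at h1 ⊢
      rw [rstep_of_some hb]
      rw [(Finset.mem_filter.1 h1).2]
    · push Not at ha
      rw [rstep_of_ne ha, rstep_of_ne ha]

end raw

/-- An adaptive reading with revealing of the bad coordinates. -/
structure RR (E Γ : Type*) [Fintype E] [DecidableEq E] [Fintype Γ] [DecidableEq Γ] (b K : ℕ) where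
  raw : ℕ → (E → Γ) → Raw E Γ
  act : ℕ → (E → Γ) → Option (E × (Γ → Bool))
  zero : ∀ s, raw 0 s = fun _ => (Finset.univ, 0)
  succ : ∀ t s, raw (t + 1) s = rstep b K s (raw t s) (act t s)
  adapted : ∀ t s s', (∀ e, s' e ∈ known b K s (raw t s) e) → raw t s' = raw t s ∧
    act t s' = act t s

namespace RR

section general

variable {E Γ : Type*} [Fintype E] [DecidableEq E] [Fintype Γ] [DecidableEq Γ] {b K : ℕ}
  (R : RR E Γ b K)

lemma mem_raw (t : ℕ) (s : E → Γ) (e : E) : s e ∈ (R.raw t s e).1 := by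
  induction t with
  | zero => rw [R.zero]; exact Finset.mem_univ _
  | succ t ih => rw [R.succ]; exact mem_rstep ih

/-- The boxes. -/
def filt : Filt E Γ where
  C t s e := known b K s (R.raw t s) e
  mem t s e := mem_known (R.mem_raw t s e)
  eqv t s s' h := by
    have h1 := (R.adapted t s s' h).1
    funext e
    unfold known
    rw [h1]
    split_ifs with hb
    · have h2 := h e
      unfold known at h2
      rw [if_pos hb, Finset.mem_singleton] at h2
      rw [h2]
    · rfl
  anti t s e := by
    rw [R.succ]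
    exact known_anti (R.mem_raw t s e)

/-- The coordinate `e` is bad after `t` steps. -/
def bad (t : ℕ) (e : E) (s : E → Γ) : Prop := badc b K (R.raw t s e)

instance (t : ℕ) (e : E) (s : E → Γ) : Decidable (R.bad t e s) := by
  unfold bad; infer_instance

lemma bad_mono (t : ℕ) (e : E) (s : E → Γ) (h : R.bad t e s) : R.bad (t + 1) e s := by
  unfold bad at h ⊢
  rw [R.succ, rstep_bad h]
  exact h

lemma bad_mono' {t t' : ℕ} (htt : t ≤ t') (e : E) (s : E → Γ) (h : R.bad t e s) :
    R.bad t' e s := by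
  induction t', htt using Nat.le_induction with
  | base => exact h
  | succ t' _ ih => exact R.bad_mono t' e s ih

/-- The potential. -/
noncomputable def pot (t : ℕ) (e : E) (s : E → Γ) : ℝ :=
  (1 / 2 : ℝ) ^ (R.raw t s e).2 / ((R.raw t s e).1.card : ℝ)

lemma pot_nonneg (t : ℕ) (e : E) (s : E → Γ) : 0 ≤ R.pot t e s := by
  unfold pot; positivity

lemma pot_step (t : ℕ) (e : E) : ∑ s, R.pot (t + 1) e s ≤ ∑ s, R.pot t e s := by
  classical
  have h0 := (R.filt.partAt t).tower (fun _ => 1) (R.pot (t + 1) e) (fun _ _ _ => rfl)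
  simp only [one_mul] at h0
  rw [← h0]
  refine Finset.sum_le_sum fun s _ => ?_
  set P := R.filt.partAt t with hP
  have hbox : (0 : ℝ) < ((P.box s).card : ℝ) := P.card_box_pos s
  have hmem : ∀ s' ∈ P.box s, ∀ e, s' e ∈ known b K s (R.raw t s) e := by
    intro s' hs'
    exact P.mem_box.1 hs'
  have hnc : (R.raw t s e).1.Nonempty := ⟨_, R.mem_raw t s e⟩
  have hcard : (0 : ℝ) < ((R.raw t s e).1.card : ℝ) := by
    exact_mod_cast Finset.card_pos.2 hnc
  by_cases hb : badc b K (R.raw t s e)
  · have hval : ∀ s' ∈ P.box s, R.pot (t + 1) e s' = R.pot t e s := by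
      intro s' hs'
      obtain ⟨h1, h2⟩ := R.adapted t s s' (hmem s' hs')
      unfold pot
      rw [R.succ, h1, rstep_bad hb]
    unfold BoxPart.avg
    rw [Finset.sum_congr rfl hval, Finset.sum_const, nsmul_eq_mul]
    rw [mul_comm, mul_div_assoc, div_self hbox.ne', mul_one]
  by_cases hex : ∃ f, R.act t s = some (e, f)
  · obtain ⟨f, hf⟩ := hex
    have hval : ∀ s' ∈ P.box s, R.pot (t + 1) e s' =
        (1 / 2 : ℝ) ^ ((R.raw t s e).2 + 1) *
          (1 / ((((R.raw t s e).1.filter fun γ => f γ = f (s' e)).card : ℝ))) := by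
      intro s' hs'
      obtain ⟨h1, h2⟩ := R.adapted t s s' (hmem s' hs')
      unfold pot
      rw [R.succ, h1, h2, hf, rstep_of_some hb]
      ring
    unfold BoxPart.avg
    rw [Finset.sum_congr rfl hval, ← Finset.mul_sum]
    have hCe : known b K s (R.raw t s) e = (R.raw t s e).1 := by
      unfold known
      rw [if_neg hb]
    have hs := sum_coord (P.C s) (fun e => ⟨_, P.mem s e⟩) e
      (fun α => (1 : ℝ) / ((((R.raw t s e).1.filter fun γ => f γ = f α).card : ℝ)))
    have hCe' : P.C s e = (R.raw t s e).1 := hCe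
    rw [hCe'] at hs
    have hs' : ((R.raw t s e).1.card : ℝ) * ∑ s' ∈ P.box s,
        (1 / ((((R.raw t s e).1.filter fun γ => f γ = f (s' e)).card : ℝ))) =
        ((P.box s).card : ℝ) * ∑ α ∈ (R.raw t s e).1,
          (1 : ℝ) / ((((R.raw t s e).1.filter fun γ => f γ = f α).card : ℝ)) := hs
    have h2 := Reading.sum_split (R.raw t s e).1 f
    set S := ∑ s' ∈ P.box s,
        (1 / ((((R.raw t s e).1.filter fun γ => f γ = f (s' e)).card : ℝ))) with hS
    have h3 : ((R.raw t s e).1.card : ℝ) * S ≤ ((P.box s).card : ℝ) * 2 := by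
      rw [hs']
      exact mul_le_mul_of_nonneg_left h2 hbox.le
    unfold pot
    rw [div_le_div_iff₀ hbox hcard]
    have hp : (0 : ℝ) ≤ (1 / 2 : ℝ) ^ (R.raw t s e).2 := by positivity
    have h4 := mul_le_mul_of_nonneg_left h3 hp
    calc (1 / 2 : ℝ) ^ ((R.raw t s e).2 + 1) * S * ((R.raw t s e).1.card : ℝ)
        = (1 / 2 : ℝ) ^ (R.raw t s e).2 * (((R.raw t s e).1.card : ℝ) * S) / 2 := by ring
      _ ≤ (1 / 2 : ℝ) ^ (R.raw t s e).2 * (((P.box s).card : ℝ) * 2) / 2 := by
          linarith
      _ = (1 / 2 : ℝ) ^ (R.raw t s e).2 * ((P.box s).card : ℝ) := by ring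
  · have hval : ∀ s' ∈ P.box s, R.pot (t + 1) e s' = R.pot t e s := by
      intro s' hs'
      obtain ⟨h1, h2⟩ := R.adapted t s s' (hmem s' hs')
      unfold pot
      rw [R.succ, h1, h2, rstep_of_ne (fun f hf => hex ⟨f, hf⟩)]
    unfold BoxPart.avg
    rw [Finset.sum_congr rfl hval, Finset.sum_const, nsmul_eq_mul]
    rw [mul_comm, mul_div_assoc, div_self hbox.ne', mul_one]

lemma pot_le (t : ℕ) (e : E) :
    ∑ s, R.pot t e s ≤ (Fintype.card (E → Γ) : ℝ) / (Fintype.card Γ : ℝ) := by
  classical
  induction t with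
  | zero =>
    have h : ∀ s, R.pot 0 e s = 1 / (Fintype.card Γ : ℝ) := by
      intro s
      unfold pot
      rw [R.zero]
      simp
    rw [Finset.sum_congr rfl fun s _ => h s]
    simp [div_eq_mul_inv]
  | succ t ih => exact (R.pot_step t e).trans ih

/-- Few points have a small cell after few readings. -/
lemma card_small_le (L t : ℕ) (hK : K = 2 ^ (b + t)) (e : E) :
    (2 : ℝ) ^ t * ((Finset.univ.filter fun s : E → Γ =>
      (R.raw L s e).1.card * K < Fintype.card Γ ∧ (R.raw L s e).2 ≤ b).card : ℝ) ≤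
      (Fintype.card (E → Γ) : ℝ) := by
  set A := Finset.univ.filter fun s : E → Γ =>
      (R.raw L s e).1.card * K < Fintype.card Γ ∧ (R.raw L s e).2 ≤ b with hA
  have hpot := R.pot_le L e
  by_cases hG : Fintype.card Γ = 0
  · have : A = ∅ := by
      rw [hA, Finset.filter_eq_empty_iff]
      intro r _ h
      rw [hG] at h
      exact Nat.not_lt_zero _ h.1
    rw [this]
    simp
  have hG' : (0 : ℝ) < (Fintype.card Γ : ℝ) := by exact_mod_cast Nat.pos_of_ne_zero hG
  have h1 : ∀ s ∈ A, (2 : ℝ) ^ t / (Fintype.card Γ : ℝ) ≤ R.pot L e s := by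
    intro s hs
    obtain ⟨hr', hb⟩ := (Finset.mem_filter.1 hs).2
    have hKr : (K : ℝ) = 2 ^ (b + t) := by exact_mod_cast hK
    have hr'' : ((R.raw L s e).1.card : ℝ) * 2 ^ (b + t) < (Fintype.card Γ : ℝ) := by
      have h0 : ((R.raw L s e).1.card : ℝ) * (K : ℝ) < (Fintype.card Γ : ℝ) := by
        exact_mod_cast hr'
      calc ((R.raw L s e).1.card : ℝ) * 2 ^ (b + t) = ((R.raw L s e).1.card : ℝ) * (K : ℝ) := by
            congr 1
            exact hKr.symm
        _ < _ := h0
    have hc : (0 : ℝ) < ((R.raw L s e).1.card : ℝ) := by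
      exact_mod_cast Finset.card_pos.2 ⟨_, R.mem_raw L s e⟩
    unfold pot
    rw [div_le_div_iff₀ hG' hc]
    have h2 : (1 / 2 : ℝ) ^ b ≤ (1 / 2 : ℝ) ^ (R.raw L s e).2 :=
      pow_le_pow_of_le_one (by norm_num) (by norm_num) hb
    have h3 : (2 : ℝ) ^ t * ((R.raw L s e).1.card : ℝ) =
        (1 / 2 : ℝ) ^ b * (((R.raw L s e).1.card : ℝ) * 2 ^ (b + t)) := by
      rw [pow_add]
      have : (1 / 2 : ℝ) ^ b * 2 ^ b = 1 := by rw [← mul_pow]; norm_num
      linear_combination (-(2 : ℝ) ^ t * ((R.raw L s e).1.card : ℝ)) * this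
    rw [h3]
    calc (1 / 2 : ℝ) ^ b * (((R.raw L s e).1.card : ℝ) * 2 ^ (b + t))
        ≤ (1 / 2 : ℝ) ^ b * (Fintype.card Γ : ℝ) :=
          mul_le_mul_of_nonneg_left hr''.le (by positivity)
      _ ≤ (1 / 2 : ℝ) ^ (R.raw L s e).2 * (Fintype.card Γ : ℝ) :=
          mul_le_mul_of_nonneg_right h2 hG'.le
  have h2 : (A.card : ℝ) * ((2 : ℝ) ^ t / (Fintype.card Γ : ℝ)) ≤ ∑ s, R.pot L e s := by
    calc (A.card : ℝ) * ((2 : ℝ) ^ t / (Fintype.card Γ : ℝ))
        = ∑ s ∈ A, (2 : ℝ) ^ t / (Fintype.card Γ : ℝ) := by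
          rw [Finset.sum_const, nsmul_eq_mul]
      _ ≤ ∑ s ∈ A, R.pot L e s := Finset.sum_le_sum h1
      _ ≤ ∑ s, R.pot L e s := by
          refine Finset.sum_le_sum_of_subset_of_nonneg (Finset.subset_univ _) ?_
          intro s _ _
          exact R.pot_nonneg L e s
  have h3 := h2.trans hpot
  rw [mul_div_assoc', div_le_div_iff_of_pos_right hG'] at h3
  linarith

/-- The probability that `e` becomes bad. -/
noncomputable def rho (L t : ℕ) (e : E) : ℝ :=
  (1 / 2 : ℝ) ^ t + ((Finset.univ.filter fun s : E → Γ => b < (R.raw L s e).2).card : ℝ) /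
    (Fintype.card (E → Γ) : ℝ)

lemma rho_nonneg (L t : ℕ) (e : E) : 0 ≤ R.rho L t e := by
  unfold rho
  positivity

lemma card_bad_le (L t : ℕ) (hK : K = 2 ^ (b + t)) (e : E) :
    ((Finset.univ.filter fun s : E → Γ => R.bad L e s).card : ℝ) ≤
      R.rho L t e * (Fintype.card (E → Γ) : ℝ) := by
  set M : ℝ := (Fintype.card (E → Γ) : ℝ) with hM
  by_cases hM0 : M = 0
  · have hemp : IsEmpty (E → Γ) := by
      rw [← Fintype.card_eq_zero_iff]
      rw [hM] at hM0
      exact_mod_cast hM0
    rw [hM0, mul_zero]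
    simp
  have hMpos : 0 < M := lt_of_le_of_ne (Nat.cast_nonneg _) (Ne.symm hM0)
  have h1 : (Finset.univ.filter fun s : E → Γ => R.bad L e s) ⊆
      (Finset.univ.filter fun s : E → Γ =>
        (R.raw L s e).1.card * K < Fintype.card Γ ∧ (R.raw L s e).2 ≤ b) ∪
      (Finset.univ.filter fun s : E → Γ => b < (R.raw L s e).2) := by
    intro s hs
    rw [Finset.mem_filter] at hs
    rw [Finset.mem_union, Finset.mem_filter, Finset.mem_filter]
    by_cases hu : b < (R.raw L s e).2
    · exact Or.inr ⟨Finset.mem_univ _, hu⟩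
    · left
      refine ⟨Finset.mem_univ _, ?_, not_lt.1 hu⟩
      rcases hs.2 with h | h
      · exact h
      · exact absurd h hu
  have h2 : ((Finset.univ.filter fun s : E → Γ => R.bad L e s).card : ℝ) ≤
      ((Finset.univ.filter fun s : E → Γ =>
        (R.raw L s e).1.card * K < Fintype.card Γ ∧ (R.raw L s e).2 ≤ b).card : ℝ) +
      ((Finset.univ.filter fun s : E → Γ => b < (R.raw L s e).2).card : ℝ) := by
    exact_mod_cast (Finset.card_le_card h1).trans (Finset.card_union_le _ _)
  have h3 := R.card_small_le L t hK e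
  have h2t : (1 / 2 : ℝ) ^ t * 2 ^ t = 1 := by rw [← mul_pow]; norm_num
  have h4 := mul_le_mul_of_nonneg_left h3 (show (0 : ℝ) ≤ (1 / 2 : ℝ) ^ t by positivity)
  rw [← mul_assoc, h2t, one_mul] at h4
  unfold rho
  rw [add_mul, div_mul_cancel₀ _ hM0]
  linarith

end general

section edges

variable {n : ℕ} {Γ : Type*} [Fintype Γ] [DecidableEq Γ] {b K : ℕ} (R : RR (Edge n) Γ b K)

/-- Bad edges. -/
def badF (hK : 1 ≤ K) : BadF R.filt K where
  bad := R.bad
  mono := R.bad_mono
  meas := by
    intro t e s s' h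
    unfold bad
    rw [(R.adapted t s s' h).1]
  zero := by
    intro e s h
    unfold bad badc at h
    rw [R.zero] at h
    simp only [Finset.card_univ, Nat.not_lt_zero, or_false] at h
    have : Fintype.card Γ ≤ Fintype.card Γ * K := Nat.le_mul_of_pos_right _ hK
    omega
  one := by
    intro t e e' s hee h h' h1 h2
    unfold bad at h h' h1 h2
    rw [R.succ] at h1 h2
    by_cases ha : ∃ f, R.act t s = some (e, f)
    · obtain ⟨f, hf⟩ := ha
      apply h'
      rw [rstep_of_ne (e := e')] at h2
      · exact h2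
      · intro f' hf'
        rw [hf] at hf'
        simp only [Option.some.injEq, Prod.mk.injEq] at hf'
        exact hee hf'.1
    · push Not at ha
      apply h
      rw [rstep_of_ne ha] at h1
      exact h1
  cell := by
    intro t e s h
    have h1 : R.filt.C t s e = (R.raw t s e).1 := by
      unfold filt known
      simp only
      rw [if_neg]
      exact h
    rw [h1]
    by_contra hc
    exact h (Or.inl (not_le.1 hc))

lemma sum_rho_le (L t k : ℕ) (hn : 0 < n) (hM0 : 0 < Fintype.card (Edge n → Γ))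
    (hk : ∀ s : Edge n → Γ, (Finset.univ.filter fun e => b < (R.raw L s e).2).card ≤ k)
    (i : Fin 3) :
    ∑ p : Fin n × Fin n, R.rho L t (i, p.1, p.2) ≤
      (n : ℝ) ^ 2 * ((1 / 2 : ℝ) ^ t + (k : ℝ) / (n : ℝ) ^ 2) := by
  have hMpos : (0 : ℝ) < (Fintype.card (Edge n → Γ) : ℝ) := by exact_mod_cast hM0
  have hn0 : (0 : ℝ) < (n : ℝ) := by exact_mod_cast hn
  unfold rho
  rw [Finset.sum_add_distrib, Finset.sum_const, ← Finset.sum_div]
  have h1 : ∑ p : Fin n × Fin n,
      ((Finset.univ.filter fun s : Edge n → Γ => b < (R.raw L s (i, p.1, p.2)).2).card : ℝ) ≤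
      (k : ℝ) * (Fintype.card (Edge n → Γ) : ℝ) := by
    have h2 : ∑ p : Fin n × Fin n,
        (Finset.univ.filter fun s : Edge n → Γ => b < (R.raw L s (i, p.1, p.2)).2).card =
        ∑ s : Edge n → Γ,
          (Finset.univ.filter fun p : Fin n × Fin n => b < (R.raw L s (i, p.1, p.2)).2).card := by
      simp_rw [Finset.card_filter]
      exact Finset.sum_comm
    have h3 : ∀ s : Edge n → Γ,
        (Finset.univ.filter fun p : Fin n × Fin n => b < (R.raw L s (i, p.1, p.2)).2).card ≤ k := by
      intro s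
      refine le_trans ?_ (hk s)
      apply Finset.card_le_card_of_injOn (fun p : Fin n × Fin n => ((i, p.1, p.2) : Edge n))
      · intro p hp
        rw [Finset.mem_coe, Finset.mem_filter] at hp ⊢
        exact ⟨Finset.mem_univ _, hp.2⟩
      · intro p _ p' _ hpp
        simp only [Prod.mk.injEq, true_and] at hpp
        exact Prod.ext hpp.1 hpp.2
    have h4 : ∑ p : Fin n × Fin n,
        (Finset.univ.filter fun s : Edge n → Γ => b < (R.raw L s (i, p.1, p.2)).2).card ≤
        k * Fintype.card (Edge n → Γ) := by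
      rw [h2]
      refine (Finset.sum_le_sum fun s _ => h3 s).trans (le_of_eq ?_)
      rw [Finset.sum_const, Finset.card_univ, smul_eq_mul, mul_comm]
    exact_mod_cast h4
  have h5 : (∑ p : Fin n × Fin n,
      ((Finset.univ.filter fun s : Edge n → Γ => b < (R.raw L s (i, p.1, p.2)).2).card : ℝ)) /
      (Fintype.card (Edge n → Γ) : ℝ) ≤ k := by
    rw [div_le_iff₀ hMpos]
    exact h1
  simp only [Finset.card_univ, Fintype.card_prod, Fintype.card_fin, nsmul_eq_mul]
  have h6 : (n : ℝ) ^ 2 * ((1 / 2 : ℝ) ^ t + (k : ℝ) / (n : ℝ) ^ 2) =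
      (n : ℝ) ^ 2 * (1 / 2 : ℝ) ^ t + k := by
    field_simp
  rw [h6]
  push_cast
  nlinarith [h5]

end edges

end RR

end Pool.Agent.Helper7.LKX
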