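import Mathlib
import Pool.Agent.Helper7.LK.ArbP
import Pool.Agent.Helper7.LKX.RRead
import Pool.Agent.Helper7.LKX.DefsX

/-!
# The ideal run with revealed labels

The ideal run of an algorithm on a labelling. Bits are answered truthfully; as soon as an edge is
bad its label is substituted into all value polynomials; the values of two polynomials are declared
to be equal if and only if the polynomials are equal after this substitution.
-/

set_option autoImplicit false

namespace Pool.Agent.Helper7.LKX

open Finset Pool.Agent.Helper95.LK
open Pool.Agent.Helper22.ETModel (E RForm rev tk te te_inter card_te Inst Query SignOK instOf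
  flagOf enc sgnCode redc code instOf_valid instOf_yes pot wtOf)
open Pool.Agent.Helper22.EP (redP totalDegree_redP eval_aeval totalDegree_aeval_le)
open Pool.Agent.Helper8.LK (LAlg Act cellE cellE_spec wtOf_cellE)
open Pool.Agent.Helper7.LK (Lab wv wpt)

variable {m n L R G : ℕ}

section red

variable (b K : ℕ) (π : E m → ℤ) (s : E m → Lab G) (w : Raw (E m) (Lab G))

/-- Substitution of the labels of the bad edges. -/
noncomputable def redK (f : RForm m) : RForm m :=
  MvPolynomial.aeval (fun e => if badc b K (w e) then MvPolynomial.C ((wpt π s e : ℤ) : ℝ)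
    else MvPolynomial.X e) f

lemma eval_redK (v : E m → ℝ) (f : RForm m) :
    MvPolynomial.eval v (redK b K π s w f) =
      MvPolynomial.eval (fun e => if badc b K (w e) then ((wpt π s e : ℤ) : ℝ) else v e) f := by
  unfold redK
  rw [eval_aeval]
  congr 1
  congr 1
  funext e
  split_ifs <;> simp

lemma rev_redK (f : RForm m) : rev (wpt π s) (redK b K π s w f) = rev (wpt π s) f := by
  unfold rev
  rw [eval_redK]
  congr 1
  congr 1
  funext e
  split_ifs <;> rfl

lemma redK_congr {s' : E m → Lab G} (h : ∀ e, s' e ∈ known b K s w e) :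
    redK b K π s' w = redK b K π s w := by
  have h1 : (fun e => if badc b K (w e) then MvPolynomial.C ((wpt π s' e : ℤ) : ℝ)
      else MvPolynomial.X e) = fun e => if badc b K (w e) then
        (MvPolynomial.C ((wpt π s e : ℤ) : ℝ) : RForm m) else MvPolynomial.X e := by
    funext e
    split_ifs with hb
    · have h2 := h e
      unfold known at h2
      rw [if_pos hb, Finset.mem_singleton] at h2
      unfold wpt
      rw [h2]
    · rfl
  funext f
  unfold redK
  rw [h1]

lemma totalDegree_redK (f : RForm m) : (redK b K π s w f).totalDegree ≤ f.totalDegree := by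
  unfold redK
  apply totalDegree_aeval_le
  intro e
  split_ifs
  · rw [MvPolynomial.totalDegree_C]
    exact Nat.zero_le _
  · exact le_of_eq (MvPolynomial.totalDegree_X _)

lemma vars_redK (f : RForm m) {e : E m} (he : e ∈ (redK b K π s w f).vars) :
    ¬ badc b K (w e) := by
  classical
  unfold redK at he
  have h1 := MvPolynomial.vars_bind₁ (fun e => if badc b K (w e) then
    (MvPolynomial.C ((wpt π s e : ℤ) : ℝ) : RForm m) else MvPolynomial.X e) f
  have h2 := h1 he
  rw [Finset.mem_biUnion] at h2
  obtain ⟨e', _, h3⟩ := h2
  by_cases hb : badc b K (w e')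
  · simp only [if_pos hb, MvPolynomial.vars_C] at h3
    exact absurd h3 (Finset.notMem_empty _)
  · simp only [if_neg hb] at h3
    rw [MvPolynomial.vars_X, Finset.mem_singleton] at h3
    rw [h3]
    exact hb

end red

/-- State of the ideal run: the answers, the polynomials, the number of queries and the cells. -/
structure St (m G : ℕ) where
  ans : List ℕ
  pol : List (RForm m)
  nq : ℕ
  raw : Raw (E m) (Lab G)

section mach

variable (A : LAlg n L R) (h : 3 * m ≤ n) (p : Fin 3 × Fin m → ℤ) (ρ : Fin R → Bool)
  (D b K k : ℕ)

/-- The reading of a step. -/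
noncomputable def ra (G : ℕ) : Act n → Option (E m × (Lab G → Bool))
  | .query _ => none
  | .bit i j φ => (cellE h i j).map fun e => (e, fun α => φ (pot p e + wv α))

open Classical in
/-- One step of the ideal run. -/
noncomputable def mstep (s : E m → Lab G) (st : St m G) : Act n → St m G
  | .query (.value f) => ⟨st.ans ++ [(st.pol.map (redK b K (pot p) s st.raw)).idxOf
      (redK b K (pot p) s st.raw (redP h f))], st.pol ++ [redP h f], st.nq + 1, st.raw⟩
  | .query (.sign a c) => ⟨st.ans ++ [code p (redc h a) c], st.pol, st.nq + 1, st.raw⟩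
  | .bit i j φ => ⟨st.ans ++ [(φ (wtOf h (wpt (pot p) s) i j)).toNat], st.pol, st.nq,
      rstep b K s st.raw (ra h p G (.bit i j φ))⟩

/-- The budgets. -/
def okSt (st : St m G) : Prop :=
  st.nq ≤ D ∧ (univ.filter fun e => b < (st.raw e).2).card ≤ k

open Classical in
/-- The ideal run; it stops at the budgets. -/
noncomputable def mrun (s : E m → Lab G) : ℕ → St m G
  | 0 => ⟨[], [], 0, fun _ => (univ, 0)⟩
  | t + 1 =>
    if okSt D b k (mstep h p b K s (mrun s t) (A.next (flagOf h) ρ (mrun s t).ans)) then
      mstep h p b K s (mrun s t) (A.next (flagOf h) ρ (mrun s t).ans) else mrun s t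

/-- The action at time `t`. -/
noncomputable def mact (s : E m → Lab G) (t : ℕ) : Act n :=
  A.next (flagOf h) ρ (mrun A h p ρ D b K k s t).ans

/-- The step at time `t` is within the budgets. -/
def mok (s : E m → Lab G) (t : ℕ) : Prop :=
  okSt D b k (mstep h p b K s (mrun A h p ρ D b K k s t) (mact A h p ρ D b K k s t))

lemma mrun_zero (s : E m → Lab G) : mrun A h p ρ D b K k s 0 = ⟨[], [], 0, fun _ => (univ, 0)⟩ :=
  rfl

lemma mrun_succ_ok {s : E m → Lab G} {t : ℕ} (hok : mok A h p ρ D b K k s t) :
    mrun A h p ρ D b K k s (t + 1) =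
      mstep h p b K s (mrun A h p ρ D b K k s t) (mact A h p ρ D b K k s t) := by
  classical
  unfold mok mact at hok
  rw [mrun, if_pos hok]
  rfl

lemma mrun_succ_not {s : E m → Lab G} {t : ℕ} (hok : ¬ mok A h p ρ D b K k s t) :
    mrun A h p ρ D b K k s (t + 1) = mrun A h p ρ D b K k s t := by
  classical
  unfold mok mact at hok
  rw [mrun, if_neg hok]

lemma mstep_raw (s : E m → Lab G) (st : St m G) (a : Act n) :
    (mstep h p b K s st a).raw = rstep b K s st.raw (ra h p G a) := by
  classical
  rcases a with (f | ⟨a, c⟩) | ⟨i, j, φ⟩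
  · rfl
  · rfl
  · rfl

open Classical in
/-- The reading at time `t`. -/
noncomputable def mra (t : ℕ) (s : E m → Lab G) : Option (E m × (Lab G → Bool)) :=
  if mok A h p ρ D b K k s t then ra h p G (mact A h p ρ D b K k s t) else none

lemma mrun_raw (t : ℕ) (s : E m → Lab G) : (mrun A h p ρ D b K k s (t + 1)).raw =
    rstep b K s (mrun A h p ρ D b K k s t).raw (mra A h p ρ D b K k t s) := by
  classical
  unfold mra
  by_cases hok : mok A h p ρ D b K k s t
  · rw [if_pos hok, mrun_succ_ok A h p ρ D b K k hok, mstep_raw]
  · rw [if_neg hok, mrun_succ_not A h p ρ D b K k hok]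
    rfl

lemma mem_mraw (t : ℕ) (s : E m → Lab G) (e : E m) :
    s e ∈ ((mrun A h p ρ D b K k s t).raw e).1 := by
  induction t with
  | zero => rw [mrun_zero]; exact Finset.mem_univ _
  | succ t ih => rw [mrun_raw]; exact mem_rstep ih

/-- The budget does not depend on the answers. -/
lemma okSt_congr {s s' : E m → Lab G} (st : St m G) (a : Act n) :
    okSt D b k (mstep h p b K s' st a) ↔ okSt D b k (mstep h p b K s st a) := by
  classical
  rcases a with (f | ⟨a, c⟩) | ⟨i, j, φ⟩
  · simp only [okSt, mstep]
  · simp only [okSt, mstep]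
  · unfold okSt
    have h1 : ∀ e, ((mstep h p b K s' st (.bit i j φ)).raw e).2 =
        ((mstep h p b K s st (.bit i j φ)).raw e).2 := by
      intro e
      rw [mstep_raw, mstep_raw]
      by_cases hb : badc b K (st.raw e)
      · rw [rstep_bad hb, rstep_bad hb]
      · by_cases ha : ∃ f, ra h p G (.bit i j φ) = some (e, f)
        · obtain ⟨f, hf⟩ := ha
          rw [hf, rstep_of_some hb, rstep_of_some hb]
        · push Not at ha
          rw [rstep_of_ne ha, rstep_of_ne ha]
    have h2 : (mstep h p b K s' st (.bit i j φ)).nq = (mstep h p b K s st (.bit i j φ)).nq := rfl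
    rw [h2]
    simp only [h1]

/-- The states agree on consistent labellings. -/
theorem mrun_congr {s s' : E m → Lab G} (t : ℕ)
    (H : ∀ e, s' e ∈ known b K s (mrun A h p ρ D b K k s t).raw e) :
    mrun A h p ρ D b K k s' t = mrun A h p ρ D b K k s t := by
  classical
  induction t with
  | zero => rfl
  | succ t ih =>
    have Ht : ∀ e, s' e ∈ known b K s (mrun A h p ρ D b K k s t).raw e := by
      intro e
      have h1 := H e
      rw [mrun_raw] at h1
      exact known_anti (mem_mraw A h p ρ D b K k t s e) h1
    have ih' := ih Ht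
    have hact : mact A h p ρ D b K k s' t = mact A h p ρ D b K k s t := by
      unfold mact
      rw [ih']
    have hiff : mok A h p ρ D b K k s' t ↔ mok A h p ρ D b K k s t := by
      unfold mok
      rw [hact, ih']
      exact okSt_congr h p D b K k _ _
    by_cases hok : mok A h p ρ D b K k s t
    · rw [mrun_succ_ok A h p ρ D b K k hok, mrun_succ_ok A h p ρ D b K k (hiff.2 hok), hact, ih']
      rw [mrun_succ_ok A h p ρ D b K k hok, mstep_raw] at H
      set st := mrun A h p ρ D b K k s t with hst
      rcases hq : mact A h p ρ D b K k s t with (f | ⟨a, c⟩) | ⟨i, j, φ⟩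
      · simp only [mstep]
        rw [redK_congr b K (pot p) s st.raw Ht]
      · simp only [mstep]
      · rw [hq] at H
        simp only [mstep]
        have h3 := rstep_congr (fun e => mem_mraw A h p ρ D b K k t s e) H
        rw [← hst] at h3
        rw [h3]
        congr 3
        rw [wtOf_cellE, wtOf_cellE]
        rcases hc : cellE h i j with _ | e
        · rfl
        · simp only
          have hra : ra h p G (.bit i j φ) = some (e, fun α => φ (pot p e + wv α)) := by
            simp only [ra, hc]
            rfl
          have h4 := H e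
          rw [hra] at h4
          by_cases hb : badc b K (st.raw e)
          · have h5 := Ht e
            unfold known at h5
            rw [if_pos hb, Finset.mem_singleton] at h5
            unfold wpt
            rw [h5]
          · have h5 := known_subset (mem_rstep (b := b) (K := K)
              (a := some (e, fun α => φ (pot p e + wv α)))
              (mem_mraw A h p ρ D b K k t s e)) h4
            rw [rstep_of_some hb] at h5
            have h6 : φ (wpt (pot p) s' e) = φ (wpt (pot p) s e) := (Finset.mem_filter.1 h5).2
            rw [h6]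
    · rw [mrun_succ_not A h p ρ D b K k hok,
        mrun_succ_not A h p ρ D b K k (fun h' => hok (hiff.1 h')), ih']

lemma mact_congr {s s' : E m → Lab G} (t : ℕ)
    (H : ∀ e, s' e ∈ known b K s (mrun A h p ρ D b K k s t).raw e) :
    mact A h p ρ D b K k s' t = mact A h p ρ D b K k s t := by
  unfold mact
  rw [mrun_congr A h p ρ D b K k t H]

lemma mok_congr {s s' : E m → Lab G} (t : ℕ)
    (H : ∀ e, s' e ∈ known b K s (mrun A h p ρ D b K k s t).raw e) :
    mok A h p ρ D b K k s' t ↔ mok A h p ρ D b K k s t := by
  unfold mok
  rw [mact_congr A h p ρ D b K k t H, mrun_congr A h p ρ D b K k t H]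
  exact okSt_congr h p D b K k _ _

/-- The reading with revealing of the bad edges. -/
noncomputable def mrr (G : ℕ) : RR (E m) (Lab G) b K where
  raw t s := (mrun A h p ρ D b K k s t).raw
  act := mra A h p ρ D b K k
  zero s := rfl
  succ t s := mrun_raw A h p ρ D b K k t s
  adapted t s s' H := by
    classical
    refine ⟨by rw [mrun_congr A h p ρ D b K k t H], ?_⟩
    unfold mra
    rw [mact_congr A h p ρ D b K k t H]
    have := mok_congr A h p ρ D b K k t H
    by_cases hok : mok A h p ρ D b K k s t
    · rw [if_pos hok, if_pos (this.2 hok)]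
    · rw [if_neg hok, if_neg (fun h' => hok (this.1 h'))]

/-- All states are within the budgets. -/
lemma ok_mrun (s : E m → Lab G) (t : ℕ) : okSt D b k (mrun A h p ρ D b K k s t) := by
  induction t with
  | zero => rw [mrun_zero]; unfold okSt; simp
  | succ t ih =>
    by_cases hok : mok A h p ρ D b K k s t
    · rw [mrun_succ_ok A h p ρ D b K k hok]
      exact hok
    · rw [mrun_succ_not A h p ρ D b K k hok]
      exact ih

lemma length_pol (s : E m → Lab G) (t : ℕ) :
    (mrun A h p ρ D b K k s t).pol.length ≤ (mrun A h p ρ D b K k s t).nq := by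
  classical
  induction t with
  | zero => rw [mrun_zero]; simp
  | succ t ih =>
    by_cases hok : mok A h p ρ D b K k s t
    · rw [mrun_succ_ok A h p ρ D b K k hok]
      rcases mact A h p ρ D b K k s t with (f | ⟨a, c⟩) | ⟨i, j, φ⟩
      · simp only [mstep, List.length_append, List.length_singleton]; omega
      · simp only [mstep]; omega
      · simp only [mstep]; exact ih
    · rw [mrun_succ_not A h p ρ D b K k hok]
      exact ih

lemma length_pol_le (s : E m → Lab G) (t : ℕ) :
    (mrun A h p ρ D b K k s t).pol.length ≤ D :=
  (length_pol A h p ρ D b K k s t).trans (ok_mrun A h p ρ D b K k s t).1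

lemma degree_pol {d : ℕ}
    (hA1 : ∀ fl ρ ans f, A.next fl ρ ans = Act.query (Query.value f) → f.totalDegree ≤ d)
    (s : E m → Lab G) (t : ℕ) :
    ∀ f ∈ (mrun A h p ρ D b K k s t).pol, f.totalDegree ≤ d := by
  classical
  induction t with
  | zero => rw [mrun_zero]; simp
  | succ t ih =>
    by_cases hok : mok A h p ρ D b K k s t
    · rw [mrun_succ_ok A h p ρ D b K k hok]
      rcases hq : mact A h p ρ D b K k s t with (f | ⟨a, c⟩) | ⟨i, j, φ⟩
      · intro f' hf'
        simp only [mstep] at hf'
        rw [List.mem_append, List.mem_singleton] at hf'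
        rcases hf' with hf' | hf'
        · exact ih f' hf'
        · rw [hf']
          exact (totalDegree_redP h f).trans (hA1 _ _ _ _ hq)
      · simp only [mstep]; exact ih
      · simp only [mstep]; exact ih
    · rw [mrun_succ_not A h p ρ D b K k hok]
      exact ih

lemma pol_mono (s : E m → Lab G) {t t' : ℕ} (htt : t ≤ t') {f : RForm m}
    (hf : f ∈ (mrun A h p ρ D b K k s t).pol) : f ∈ (mrun A h p ρ D b K k s t').pol := by
  classical
  induction t', htt using Nat.le_induction with
  | base => exact hf
  | succ t' _ ih =>
    by_cases hok : mok A h p ρ D b K k s t'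
    · rw [mrun_succ_ok A h p ρ D b K k hok]
      rcases mact A h p ρ D b K k s t' with (f | ⟨a, c⟩) | ⟨i, j, φ⟩
      · simp only [mstep]; exact List.mem_append_left _ ih
      · simp only [mstep]; exact ih
      · simp only [mstep]; exact ih
    · rw [mrun_succ_not A h p ρ D b K k hok]
      exact ih

/-- A value query is carried out at time `t`. -/
def isQ (t : ℕ) (s : E m → Lab G) : Prop :=
  mok A h p ρ D b K k s t ∧ ∃ f, mact A h p ρ D b K k s t = Act.query (Query.value f)

lemma pol_of_isQ {s : E m → Lab G} {t : ℕ} (hok : mok A h p ρ D b K k s t)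
    {f : MvPolynomial (Fin n × Fin n) ℝ}
    (hf : mact A h p ρ D b K k s t = Act.query (Query.value f)) :
    redP h f ∈ (mrun A h p ρ D b K k s (t + 1)).pol := by
  classical
  rw [mrun_succ_ok A h p ρ D b K k hok, hf]
  simp only [mstep]
  exact List.mem_append_right _ (List.mem_singleton_self _)

lemma isQ_congr {s s' : E m → Lab G} (t : ℕ)
    (H : ∀ e, s' e ∈ known b K s (mrun A h p ρ D b K k s t).raw e) :
    isQ A h p ρ D b K k t s' ↔ isQ A h p ρ D b K k t s := by
  unfold isQ
  rw [mok_congr A h p ρ D b K k t H, mact_congr A h p ρ D b K k t H]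

open Classical in
lemma card_isQ (s : E m → Lab G) (t : ℕ) :
    ((Finset.range t).filter fun i => isQ A h p ρ D b K k i s).card ≤
      (mrun A h p ρ D b K k s t).nq := by
  induction t with
  | zero => simp
  | succ t ih =>
    rw [Finset.range_add_one, Finset.filter_insert]
    by_cases hok : mok A h p ρ D b K k s t
    · rw [mrun_succ_ok A h p ρ D b K k hok]
      split_ifs with hq
      · obtain ⟨f, hf⟩ := hq.2
        rw [hf]
        simp only [mstep]
        exact (Finset.card_insert_le _ _).trans (by omega)
      · refine ih.trans ?_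
        rcases mact A h p ρ D b K k s t with (f | ⟨a, c⟩) | ⟨i, j, φ⟩
        · simp only [mstep]; omega
        · simp only [mstep]; omega
        · simp only [mstep]; exact le_rfl
    · rw [mrun_succ_not A h p ρ D b K k hok, if_neg (fun hq => hok hq.1)]
      exact ih

open Classical in
lemma card_isQ_le (s : E m → Lab G) (t : ℕ) :
    ((Finset.range t).filter fun i => isQ A h p ρ D b K k i s).card ≤ D :=
  (card_isQ A h p ρ D b K k s t).trans (ok_mrun A h p ρ D b K k s t).1

end mach

end Pool.Agent.Helper7.LKX
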