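import Mathlib
import Pool.Agent.Helper7.LKX.Mach

/-!
# Coincidences of values at query times
-/

set_option autoImplicit false

namespace Pool.Agent.Helper7.LKX

open Finset Pool.Agent.Helper95.LK
open Pool.Agent.Helper22.ETModel (E RForm rev tk te te_inter card_te Inst Query SignOK instOf
  flagOf enc sgnCode redc code instOf_valid instOf_yes pot wtOf)
open Pool.Agent.Helper22.EP (redP totalDegree_redP eval_aeval totalDegree_aeval_le)
open Pool.Agent.Helper8.LK (LAlg Act cellE cellE_spec wtOf_cellE)
open Pool.Agent.Helper7.LK (Lab wv wpt plantZ)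

variable {m n L R G : ℕ} (A : LAlg n L R) (h : 3 * m ≤ n) (p : Fin 3 × Fin m → ℤ)
  (ρ : Fin R → Bool) (D b K k : ℕ)

/-- A value query is carried out at time `t`, and its value is equal to the value of an earlier
polynomial which is different after the substitution of the known labels. -/
def evN (t : ℕ) (s : E m → Lab G) : Prop :=
  mok A h p ρ D b K k s t ∧ ∃ f, mact A h p ρ D b K k s t = Act.query (Query.value f) ∧
    ∃ f' ∈ (mrun A h p ρ D b K k s t).pol,
      redK b K (pot p) s (mrun A h p ρ D b K k s t).raw f' ≠
        redK b K (pot p) s (mrun A h p ρ D b K k s t).raw (redP h f) ∧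
      rev (wpt (pot p) s) f' = rev (wpt (pot p) s) (redP h f)

/-- A value query is carried out at time `t`, no edge of `T` is bad, and the value is equal to the
value of an earlier polynomial which does not agree with it on the hyperplane of `T` after the
substitution of the known labels. -/
def evT (T : Pool.Agent.Helper22.ETModel.Tri m) (t : ℕ) (s : E m → Lab G) : Prop :=
  mok A h p ρ D b K k s t ∧
    (∀ i, ¬ badc b K ((mrun A h p ρ D b K k s t).raw (tk T i))) ∧
    ∃ f, mact A h p ρ D b K k s t = Act.query (Query.value f) ∧
    ∃ f' ∈ (mrun A h p ρ D b K k s t).pol,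
      (¬ ∀ w : E m → ℝ, ∑ e ∈ te T, w e = 0 →
        MvPolynomial.eval w (redK b K (pot p) s (mrun A h p ρ D b K k s t).raw f') =
          MvPolynomial.eval w
            (redK b K (pot p) s (mrun A h p ρ D b K k s t).raw (redP h f))) ∧
      rev (wpt (pot p) s) f' = rev (wpt (pot p) s) (redP h f)

end Pool.Agent.Helper7.LKX
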