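import Mathlib
import Pool.Agent.Helper95.LK.Assembly
import Pool.Agent.Helper7.LKX.CoreX

/-!
# Exceptional edges: few edges of which more than `b` bits are read
-/

set_option autoImplicit false

namespace Pool.Agent.Helper7.LKX

open Finset Pool.Agent.Helper95.LK Pool.Agent.Helper7.LK

section heavy

variable {n : ℕ} {Γ : Type*} [Fintype Γ] [DecidableEq Γ] (R : Reading (Edge n) Γ)

lemma used_zero (r : Edge n → Γ) (e : Edge n) : R.used 0 r e = 0 := by
  unfold Reading.used
  simp

lemma used_mono {s t : ℕ} (hst : s ≤ t) (r : Edge n → Γ) (e : Edge n) :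
    R.used s r e ≤ R.used t r e := by
  unfold Reading.used
  apply Finset.card_le_card
  apply Finset.filter_subset_filter
  exact Finset.range_subset_range.2 hst

/-- An edge is bad when its cell is small, or when more than `b` bits of it have been read. -/
def badH (b t : ℕ) : BadP R (2 ^ (b + t)) where
  bad s e r := (R.cell s r e).card * 2 ^ (b + t) < Fintype.card Γ ∨ b < R.used s r e
  mono := by
    intro s e r h
    rcases h with h | h
    · left
      exact lt_of_le_of_lt
        (Nat.mul_le_mul_right _ (Finset.card_le_card (R.cell_mono (Nat.le_succ s) r e))) h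
    · right
      exact lt_of_lt_of_le h (used_mono R (Nat.le_succ s) r e)
  meas := by
    intro s e r r' h
    rw [R.cell_eq_of_mem h s le_rfl, R.used_eq h le_rfl e]
  zero := by
    intro e r h
    rcases h with h | h
    · have h0 : R.cell 0 r e = Finset.univ := by
        ext γ; rw [Reading.mem_cell]; simp
      rw [h0, Finset.card_univ] at h
      have : Fintype.card Γ ≤ Fintype.card Γ * 2 ^ (b + t) :=
        Nat.le_mul_of_pos_right _ (by positivity)
      omega
    · rw [used_zero] at h
      omega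
  step := by
    intro s e r hno h
    rcases h with h | h
    · left
      rwa [R.cell_succ_of_not hno] at h
    · right
      classical
      rw [R.used_succ s r e, if_neg hno] at h
      simpa using h
  cell := by
    intro s e r h
    by_contra hc
    exact h (Or.inl (not_le.1 hc))

open Classical in
/-- Rare cells with few readings have small probability under the uniform law. -/
lemma card_rareX (L b t : ℕ) (e : Edge n) :
    (2 : ℝ) ^ t * ((Finset.univ.filter fun r : Edge n → Γ =>
      (R.cell L r e).card * 2 ^ (b + t) < Fintype.card Γ ∧ R.used L r e ≤ b).card : ℝ) ≤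
      (Fintype.card (Edge n → Γ) : ℝ) := by
  set A := Finset.univ.filter fun r : Edge n → Γ =>
      (R.cell L r e).card * 2 ^ (b + t) < Fintype.card Γ ∧ R.used L r e ≤ b with hA
  have hpot := R.pot_le L e
  by_cases hG : Fintype.card Γ = 0
  · have : A = ∅ := by
      rw [hA, Finset.filter_eq_empty_iff]
      intro r _ h
      rw [hG] at h
      exact Nat.not_lt_zero _ h.1
    rw [this]
    simp
  have hG' : (0 : ℝ) < (Fintype.card Γ : ℝ) := by exact_mod_cast Nat.pos_of_ne_zero hG
  have h1 : ∀ r ∈ A, (2 : ℝ) ^ t / (Fintype.card Γ : ℝ) ≤ R.pot L e r := by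
    intro r hr
    obtain ⟨hr', hb⟩ := (Finset.mem_filter.1 hr).2
    have hr'' : ((R.cell L r e).card : ℝ) * 2 ^ (b + t) < (Fintype.card Γ : ℝ) := by
      exact_mod_cast hr'
    have hc : (0 : ℝ) < ((R.cell L r e).card : ℝ) := by
      exact_mod_cast Finset.card_pos.2 (R.cell_nonempty L r e)
    unfold Reading.pot
    rw [div_le_div_iff₀ hG' hc]
    have h2 : (1 / 2 : ℝ) ^ b ≤ (1 / 2 : ℝ) ^ R.used L r e :=
      pow_le_pow_of_le_one (by norm_num) (by norm_num) hb
    have h3 : (2 : ℝ) ^ t * ((R.cell L r e).card : ℝ) =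
        (1 / 2 : ℝ) ^ b * (((R.cell L r e).card : ℝ) * 2 ^ (b + t)) := by
      rw [pow_add]
      have : (1 / 2 : ℝ) ^ b * 2 ^ b = 1 := by rw [← mul_pow]; norm_num
      linear_combination (-(2 : ℝ) ^ t * ((R.cell L r e).card : ℝ)) * this
    rw [h3]
    calc (1 / 2 : ℝ) ^ b * (((R.cell L r e).card : ℝ) * 2 ^ (b + t))
        ≤ (1 / 2 : ℝ) ^ b * (Fintype.card Γ : ℝ) :=
          mul_le_mul_of_nonneg_left hr''.le (by positivity)
      _ ≤ (1 / 2 : ℝ) ^ R.used L r e * (Fintype.card Γ : ℝ) :=
          mul_le_mul_of_nonneg_right h2 hG'.le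
  have h2 : (A.card : ℝ) * ((2 : ℝ) ^ t / (Fintype.card Γ : ℝ)) ≤ ∑ r, R.pot L e r := by
    calc (A.card : ℝ) * ((2 : ℝ) ^ t / (Fintype.card Γ : ℝ))
        = ∑ r ∈ A, (2 : ℝ) ^ t / (Fintype.card Γ : ℝ) := by
          rw [Finset.sum_const, nsmul_eq_mul]
      _ ≤ ∑ r ∈ A, R.pot L e r := Finset.sum_le_sum h1
      _ ≤ ∑ r, R.pot L e r := by
          refine Finset.sum_le_sum_of_subset_of_nonneg (Finset.subset_univ _) ?_
          intro r _ _
          unfold Reading.pot
          positivity
  have h3 := h2.trans hpot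
  rw [mul_div_assoc', div_le_div_iff_of_pos_right hG'] at h3
  linarith

open Classical in
/-- The probability that `e` becomes bad. -/
noncomputable def rhoH (L b t : ℕ) (e : Edge n) : ℝ :=
  (1 / 2 : ℝ) ^ t + ((Finset.univ.filter fun r : Edge n → Γ => b < R.used L r e).card : ℝ) /
    (Fintype.card (Edge n → Γ) : ℝ)

lemma rhoH_nonneg (L b t : ℕ) (e : Edge n) : 0 ≤ rhoH R L b t e := by
  unfold rhoH
  positivity

open Classical in
lemma card_badH_le (L b t : ℕ) (e : Edge n) :
    ((Finset.univ.filter fun r : Edge n → Γ => (badH R b t).bad L e r).card : ℝ) ≤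
      rhoH R L b t e * (Fintype.card (Edge n → Γ) : ℝ) := by
  set M : ℝ := (Fintype.card (Edge n → Γ) : ℝ) with hM
  by_cases hM0 : M = 0
  · have hemp : IsEmpty (Edge n → Γ) := by
      rw [← Fintype.card_eq_zero_iff]
      rw [hM] at hM0
      exact_mod_cast hM0
    rw [hM0, mul_zero]
    simp
  have hMpos : 0 < M := lt_of_le_of_ne (Nat.cast_nonneg _) (Ne.symm hM0)
  have h1 : (Finset.univ.filter fun r : Edge n → Γ => (badH R b t).bad L e r) ⊆
      (Finset.univ.filter fun r : Edge n → Γ =>
        (R.cell L r e).card * 2 ^ (b + t) < Fintype.card Γ ∧ R.used L r e ≤ b) ∪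
      (Finset.univ.filter fun r : Edge n → Γ => b < R.used L r e) := by
    intro r hr
    rw [Finset.mem_filter] at hr
    rw [Finset.mem_union, Finset.mem_filter, Finset.mem_filter]
    by_cases hu : b < R.used L r e
    · exact Or.inr ⟨Finset.mem_univ _, hu⟩
    · left
      refine ⟨Finset.mem_univ _, ?_, not_lt.1 hu⟩
      rcases hr.2 with h | h
      · exact h
      · exact absurd h hu
  have h2 : ((Finset.univ.filter fun r : Edge n → Γ => (badH R b t).bad L e r).card : ℝ) ≤
      ((Finset.univ.filter fun r : Edge n → Γ =>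
        (R.cell L r e).card * 2 ^ (b + t) < Fintype.card Γ ∧ R.used L r e ≤ b).card : ℝ) +
      ((Finset.univ.filter fun r : Edge n → Γ => b < R.used L r e).card : ℝ) := by
    exact_mod_cast (Finset.card_le_card h1).trans (Finset.card_union_le _ _)
  have h3 := card_rareX R L b t e
  have h2t : (1 / 2 : ℝ) ^ t * 2 ^ t = 1 := by rw [← mul_pow]; norm_num
  have h4 := mul_le_mul_of_nonneg_left h3 (show (0 : ℝ) ≤ (1 / 2 : ℝ) ^ t by positivity)
  rw [← mul_assoc, h2t, one_mul] at h4
  unfold rhoH
  rw [add_mul, div_mul_cancel₀ _ hM0]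
  linarith

open Classical in
lemma sum_rhoH_le (L b t k : ℕ) (hn : 0 < n) (hM0 : 0 < Fintype.card (Edge n → Γ))
    (hk : ∀ r : Edge n → Γ, (Finset.univ.filter fun e => b < R.used L r e).card ≤ k) (i : Fin 3) :
    ∑ p : Fin n × Fin n, rhoH R L b t (i, p.1, p.2) ≤
      (n : ℝ) ^ 2 * ((1 / 2 : ℝ) ^ t + (k : ℝ) / (n : ℝ) ^ 2) := by
  have hMpos : (0 : ℝ) < (Fintype.card (Edge n → Γ) : ℝ) := by exact_mod_cast hM0
  have hn0 : (0 : ℝ) < (n : ℝ) := by exact_mod_cast hn
  unfold rhoH
  rw [Finset.sum_add_distrib, Finset.sum_const, ← Finset.sum_div]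
  have h1 : ∑ p : Fin n × Fin n,
      ((Finset.univ.filter fun r : Edge n → Γ => b < R.used L r (i, p.1, p.2)).card : ℝ) ≤
      (k : ℝ) * (Fintype.card (Edge n → Γ) : ℝ) := by
    have h2 : ∑ p : Fin n × Fin n,
        (Finset.univ.filter fun r : Edge n → Γ => b < R.used L r (i, p.1, p.2)).card =
        ∑ r : Edge n → Γ,
          (Finset.univ.filter fun p : Fin n × Fin n => b < R.used L r (i, p.1, p.2)).card := by
      simp_rw [Finset.card_filter]
      exact Finset.sum_comm
    have h3 : ∀ r : Edge n → Γ,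
        (Finset.univ.filter fun p : Fin n × Fin n => b < R.used L r (i, p.1, p.2)).card ≤ k := by
      intro r
      refine le_trans ?_ (hk r)
      apply Finset.card_le_card_of_injOn (fun p : Fin n × Fin n => ((i, p.1, p.2) : Edge n))
      · intro p hp
        simp only [Finset.coe_filter, Finset.mem_univ, true_and, Set.mem_setOf_eq] at hp ⊢
        exact hp
      · intro p _ p' _ hpp
        simp only [Prod.mk.injEq, true_and] at hpp
        exact Prod.ext hpp.1 hpp.2
    have h4 : ∑ p : Fin n × Fin n,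
        (Finset.univ.filter fun r : Edge n → Γ => b < R.used L r (i, p.1, p.2)).card ≤
        k * Fintype.card (Edge n → Γ) := by
      rw [h2]
      refine (Finset.sum_le_sum fun r _ => h3 r).trans (le_of_eq ?_)
      rw [Finset.sum_const, Finset.card_univ, smul_eq_mul, mul_comm]
    exact_mod_cast h4
  have h5 : (∑ p : Fin n × Fin n,
      ((Finset.univ.filter fun r : Edge n → Γ => b < R.used L r (i, p.1, p.2)).card : ℝ)) /
      (Fintype.card (Edge n → Γ) : ℝ) ≤ k := by
    rw [div_le_iff₀ hMpos]
    exact h1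
  simp only [Finset.card_univ, Fintype.card_prod, Fintype.card_fin, nsmul_eq_mul]
  have h6 : (n : ℝ) ^ 2 * ((1 / 2 : ℝ) ^ t + (k : ℝ) / (n : ℝ) ^ 2) =
      (n : ℝ) ^ 2 * (1 / 2 : ℝ) ^ t + k := by
    field_simp
  rw [h6]
  push_cast
  nlinarith [h5]

end heavy

/-- The planted law `sum of the three values is zero`. -/
noncomputable def plant0 (n : ℕ) (Γ : Type*) [Fintype Γ] [DecidableEq Γ] [AddCommGroup Γ] :
    Plant n Γ where
  ind T r := Pool.Agent.Helper95.LK.ind T r
  g _ := (Fintype.card Γ : ℝ)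
  C := 1
  one_le_C := le_rfl
  g_nonneg _ := Nat.cast_nonneg _
  g_le _ := by rw [one_mul]
  ind_01 T r := Pool.Agent.Helper95.LK.ind_01 T r
  ind_congr T r r' h := Pool.Agent.Helper95.LK.ind_congr h
  ind_unique T i r α β := Pool.Agent.Helper95.LK.ind_unique T i r α β
  sum_ind T := Pool.Agent.Helper95.LK.sum_ind T

end Pool.Agent.Helper7.LKX
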