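import Mathlib
import Pool.Agent.Helper7.LKX.Heavy

/-!
# Assembly of the lower bound with exceptional edges
-/

set_option autoImplicit false

namespace Pool.Agent.Helper7.LKX

open Finset Pool.Agent.Helper95.LK Pool.Agent.Helper7.LK

/-- The ideal run of an algorithm for one random string: the bits that it reads of the residues
modulo `q`, its output and the set of the triangles that it covers. At most `k` edges are read more
than `b` times. -/
structure IdealX (m L b k N q : ℕ) [NeZero q] where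
  R : Reading (Edge m) (ZMod q)
  heavy_le : ∀ r : Edge m → ZMod q,
    (@Finset.filter (Edge m) (fun e => b < R.used L r e) (fun _ => Classical.dec _)
      Finset.univ).card ≤ k
  lout : (Edge m → ZMod q) → Bool
  lout_eq : ∀ r r', (∀ e, r' e ∈ R.cell L r e) → lout r' = lout r
  Cov : (Edge m → ZMod q) → Finset (Tri m)
  Cov_eq : ∀ r r', (∀ e, r' e ∈ R.cell L r e) → Cov r' = Cov r
  Cov_le : ∀ r, (Cov r).card ≤ N

variable {m L b k N q : ℕ} [NeZero q]

open Classical in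
/-- Probability of the output `false` under the uniform law of the residues. -/
noncomputable def IdealX.pB (I : IdealX m L b k N q) : ℝ :=
  ((univ.filter fun r : Edge m → ZMod q => I.lout r = false).card : ℝ) /
    (q : ℝ) ^ Fintype.card (Edge m)

open Classical in
/-- Probability of the output `false`, with `T` not covered, under the law planted at `T`. -/
noncomputable def IdealX.pT (I : IdealX m L b k N q) (T : Tri m) : ℝ :=
  (q : ℝ) * ((univ.filter fun r : Edge m → ZMod q =>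
    ∑ i, r (ed i T) = 0 ∧ I.lout r = false ∧ T ∉ I.Cov r).card : ℝ) /
    (q : ℝ) ^ Fintype.card (Edge m)

lemma IdealX.planted_sum (I : IdealX m L b k N q) (hm : 0 < m) (hK : 2 ^ (b + 16) ≤ m) :
    (m : ℝ) ^ 3 * I.pB - (m : ℝ) ^ 3 *
        (Real.sqrt (3 * 2 ^ (b + 16) / (m : ℝ) ^ 2 +
            6 * Real.sqrt (2 * ((1 / 2 : ℝ) ^ 16 + (k : ℝ) / (m : ℝ) ^ 2))) +
          (N : ℝ) * 2 ^ (b + 16) / (m : ℝ) ^ 3) ≤ ∑ T : Tri m, I.pT T := by
  classical
  have hq0 : (0 : ℝ) < (q : ℝ) := by exact_mod_cast Nat.pos_of_ne_zero (NeZero.ne q)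
  set W : ℝ := (q : ℝ) ^ Fintype.card (Edge m) with hW
  have hW0 : 0 < W := by positivity
  have hcard : (Fintype.card (Edge m → ZMod q) : ℝ) = W := by
    rw [Fintype.card_fun, ZMod.card]
    push_cast
    rfl
  have hcard0 : 0 < Fintype.card (Edge m → ZMod q) := by
    rw [Fintype.card_fun, ZMod.card]
    exact Nat.pow_pos (Nat.pos_of_ne_zero (NeZero.ne q))
  have key := leak_coreX (plant0 m (ZMod q)) (badH I.R b 16) L N hm hK
    (rhoH I.R L b 16) (rhoH_nonneg I.R L b 16)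
    (by
      intro e
      convert card_badH_le I.R L b 16 e)
    ((1 / 2 : ℝ) ^ 16 + (k : ℝ) / (m : ℝ) ^ 2)
    (fun i => sum_rhoH_le I.R L b 16 k hm hcard0 (fun r => by convert I.heavy_le r) i)
    (fun r => if I.lout r = false then 1 else 0)
    (by intro r; split_ifs <;> norm_num)
    (by intro r; split_ifs <;> norm_num)
    (by intro r r' h; simp only [I.lout_eq r r' h])
    I.Cov I.Cov_eq I.Cov_le
  rw [hcard] at key
  have hC : (plant0 m (ZMod q)).C = 1 := rfl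
  have hg : ∀ T, (plant0 m (ZMod q)).g T = (q : ℝ) := by
    intro T
    change ((Fintype.card (ZMod q) : ℕ) : ℝ) = q
    rw [ZMod.card]
  have hind : ∀ T r, (plant0 m (ZMod q)).ind T r = if ∑ i, r (ed i T) = 0 then 1 else 0 := by
    intro T r
    rfl
  rw [hC] at key
  simp only [one_mul, mul_one] at key
  push_cast at key
  set δ := Real.sqrt (3 * 2 ^ (b + 16) / (m : ℝ) ^ 2 +
            6 * Real.sqrt (2 * ((1 / 2 : ℝ) ^ 16 + (k : ℝ) / (m : ℝ) ^ 2))) +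
          (N : ℝ) * 2 ^ (b + 16) / (m : ℝ) ^ 3 with hδ
  have h1 : ∑ r : Edge m → ZMod q, (if I.lout r = false then (1 : ℝ) else 0) = I.pB * W := by
    rw [← Finset.sum_filter, Finset.sum_const, nsmul_eq_mul, mul_one]
    unfold IdealX.pB
    rw [div_mul_cancel₀ _ hW0.ne']
  have h2 : ∀ T : Tri m, ∑ r : Edge m → ZMod q,
      (if T ∉ I.Cov r then
        (plant0 m (ZMod q)).g T * (plant0 m (ZMod q)).ind T r *
          (if I.lout r = false then 1 else 0) else 0) =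
      I.pT T * W := by
    intro T
    have h3 : ∀ r : Edge m → ZMod q,
        (if T ∉ I.Cov r then
          (plant0 m (ZMod q)).g T * (plant0 m (ZMod q)).ind T r *
            (if I.lout r = false then 1 else 0) else 0) =
        if ∑ i, r (ed i T) = 0 ∧ I.lout r = false ∧ T ∉ I.Cov r then (q : ℝ) else 0 := by
      intro r
      rw [hg, hind]
      by_cases a1 : ∑ i, r (ed i T) = 0
      · by_cases a2 : T ∈ I.Cov r
        · simp [a1, a2]
        · by_cases a3 : I.lout r = false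
          · simp [a1, a2, a3]
          · simp [a1, a2, a3]
      · simp [a1]
    rw [Finset.sum_congr rfl fun r _ => h3 r, ← Finset.sum_filter, Finset.sum_const,
      nsmul_eq_mul]
    unfold IdealX.pT
    rw [div_mul_cancel₀ _ hW0.ne']
    ring
  rw [h1, Finset.sum_congr rfl fun T _ => h2 T, ← Finset.sum_mul] at key
  have h4 : ((m : ℝ) ^ 3 * I.pB - (m : ℝ) ^ 3 * δ) * W ≤ (∑ T : Tri m, I.pT T) * W := by
    calc ((m : ℝ) ^ 3 * I.pB - (m : ℝ) ^ 3 * δ) * W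
        = (m : ℝ) ^ 3 * (I.pB * W) - (m : ℝ) ^ 3 * W * δ := by ring
      _ ≤ _ := key
  exact le_of_mul_le_mul_right h4 hW0

/-- The numerical defect. -/
lemma defect_leX {m b k : ℕ} (hK : 2 ^ (b + 16) ≤ m) (hk : 2 ^ 16 * k ≤ 5 * m ^ 2) :
    Real.sqrt (3 * 2 ^ (b + 16) / (m : ℝ) ^ 2 +
      6 * Real.sqrt (2 * ((1 / 2 : ℝ) ^ 16 + (k : ℝ) / (m : ℝ) ^ 2))) ≤ 286 / 1000 := by
  have hm : (2 : ℝ) ^ (b + 16) ≤ (m : ℝ) := by exact_mod_cast hK
  have hm15 : (65536 : ℝ) ≤ (m : ℝ) := by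
    have : 2 ^ 16 ≤ m := le_trans (Nat.pow_le_pow_right (by norm_num) (by omega)) hK
    have : (2 : ℝ) ^ 16 ≤ (m : ℝ) := by exact_mod_cast this
    linarith
  have hm0 : (0 : ℝ) < (m : ℝ) := by linarith
  have hkr : (2 : ℝ) ^ 16 * (k : ℝ) ≤ 5 * (m : ℝ) ^ 2 := by exact_mod_cast hk
  have hk2 : (k : ℝ) / (m : ℝ) ^ 2 ≤ 5 * (1 / 2 : ℝ) ^ 16 := by
    rw [div_le_iff₀ (by positivity)]
    have : (1 / 2 : ℝ) ^ 16 * (2 ^ 16 * (k : ℝ)) ≤ (1 / 2 : ℝ) ^ 16 * (5 * (m : ℝ) ^ 2) :=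
      mul_le_mul_of_nonneg_left hkr (by positivity)
    calc (k : ℝ) = (1 / 2 : ℝ) ^ 16 * (2 ^ 16 * (k : ℝ)) := by
          rw [← mul_assoc, ← mul_pow]; norm_num
      _ ≤ _ := this
      _ = 5 * (1 / 2 : ℝ) ^ 16 * (m : ℝ) ^ 2 := by ring
  have hs : Real.sqrt (2 * ((1 / 2 : ℝ) ^ 16 + (k : ℝ) / (m : ℝ) ^ 2)) ≤ 1354 / 100000 := by
    apply Real.sqrt_le_iff.2
    constructor
    · norm_num
    · calc 2 * ((1 / 2 : ℝ) ^ 16 + (k : ℝ) / (m : ℝ) ^ 2)
          ≤ 2 * ((1 / 2 : ℝ) ^ 16 + 5 * (1 / 2 : ℝ) ^ 16) := by linarith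
        _ ≤ (1354 / 100000) ^ 2 := by norm_num
  have h1 : 3 * 2 ^ (b + 16) / (m : ℝ) ^ 2 ≤ 1 / 10000 := by
    rw [div_le_div_iff₀ (by positivity) (by norm_num)]
    nlinarith
  apply Real.sqrt_le_iff.2
  constructor
  · norm_num
  · linarith

open Classical in
/-- **Assembly.** A randomized algorithm whose runs on the null and on the planted instances are
close to its ideal runs covers many triangles. -/
theorem assemblyX {m L b k N R : ℕ} (hm : 0 < m) (hK : 2 ^ (b + 16) ≤ m)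
    (hk : 2 ^ 16 * k ≤ 5 * m ^ 2)
    (q : (Fin R → Bool) → ℕ) [hq : ∀ ρ, NeZero (q ρ)] (I : ∀ ρ, IdealX m L b k N (q ρ))
    (fB : (Fin R → Bool) → ℝ) (fT : Tri m → (Fin R → Bool) → ℝ) (err : ℝ)
    (herr : err ≤ 1 / 200)
    (hB : 2 * (2 : ℝ) ^ R ≤ 3 * ∑ ρ, fB ρ)
    (hT : ∀ T, 3 * ∑ ρ, fT T ρ ≤ (2 : ℝ) ^ R)
    (MB : ∀ ρ, fB ρ ≤ (I ρ).pB + err)
    (MT : ∀ ρ T, (I ρ).pT T - err ≤ fT T ρ) :
    (m : ℝ) ^ 3 ≤ 27 * (N : ℝ) * 2 ^ (b + 16) := by
  set δ := Real.sqrt (3 * 2 ^ (b + 16) / (m : ℝ) ^ 2 +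
            6 * Real.sqrt (2 * ((1 / 2 : ℝ) ^ 16 + (k : ℝ) / (m : ℝ) ^ 2))) +
          (N : ℝ) * 2 ^ (b + 16) / (m : ℝ) ^ 3 with hδ
  set M3 : ℝ := (m : ℝ) ^ 3 with hM3
  have hm0 : (0 : ℝ) < (m : ℝ) := by exact_mod_cast hm
  have hM30 : 0 < M3 := by positivity
  have hcardT : (Fintype.card (Tri m) : ℝ) = M3 := by simp [Tri, hM3]
  have hcardρ : (Fintype.card (Fin R → Bool) : ℝ) = 2 ^ R := by simp
  have hQ0 : (0 : ℝ) < 2 ^ R := by positivity
  have h1 : ∀ ρ, M3 * fB ρ - M3 * (δ + 2 * err) ≤ ∑ T : Tri m, fT T ρ := by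
    intro ρ
    have h2 := (I ρ).planted_sum hm hK
    have h3 : ∑ T : Tri m, ((I ρ).pT T - err) ≤ ∑ T : Tri m, fT T ρ :=
      Finset.sum_le_sum fun T _ => MT ρ T
    rw [Finset.sum_sub_distrib, Finset.sum_const, Finset.card_univ, nsmul_eq_mul, hcardT] at h3
    have h4 : M3 * fB ρ ≤ M3 * ((I ρ).pB + err) := mul_le_mul_of_nonneg_left (MB ρ) hM30.le
    rw [← hδ] at h2
    nlinarith
  have h2 := Finset.sum_le_sum fun ρ (_ : ρ ∈ (Finset.univ : Finset (Fin R → Bool))) => h1 ρ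
  rw [Finset.sum_sub_distrib, ← Finset.mul_sum, Finset.sum_const, Finset.card_univ, nsmul_eq_mul,
    hcardρ, Finset.sum_comm] at h2
  have h3 : ∑ T : Tri m, ∑ ρ, fT T ρ ≤ ∑ _T : Tri m, (2 : ℝ) ^ R / 3 :=
    Finset.sum_le_sum fun T _ => by linarith [hT T]
  rw [Finset.sum_const, Finset.card_univ, nsmul_eq_mul, hcardT] at h3
  have h4 : M3 * (2 * (2 : ℝ) ^ R / 3) ≤ M3 * ∑ ρ, fB ρ :=
    mul_le_mul_of_nonneg_left (by linarith) hM30.le
  have h5 : M3 * (2 : ℝ) ^ R * (1 / 3) ≤ M3 * (2 : ℝ) ^ R * (δ + 2 * err) := by nlinarith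
  have h6 : (1 / 3 : ℝ) ≤ δ + 2 * err := le_of_mul_le_mul_left h5 (by positivity)
  have h7 := defect_leX hK hk
  have h8 : (1 / 27 : ℝ) ≤ (N : ℝ) * 2 ^ (b + 16) / M3 := by
    rw [hδ] at h6
    linarith
  rw [le_div_iff₀ hM30] at h8
  linarith

end Pool.Agent.Helper7.LKX
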