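import Mathlib
import Pool.Agent.Helper7.LK.SgnMain
import Pool.Agent.Helper7.LKX.AsmX
import Pool.Agent.Helper7.LKX.DefsX

/-!
# Periodic bits with exceptional weights
-/

set_option autoImplicit false

namespace Pool.Agent.Helper7.LKX

open Finset
open Pool.Agent.Helper22.ETModel Pool.Agent.Helper22.EP Pool.Agent.Helper14.LK
open Pool.Agent.Helper8.LK Pool.Agent.Helper7.LK

section cells

variable {m n : ℕ} {L R : ℕ}

open Classical in
/-- Every edge of the tripartite instance with many inspected bits gives two cells. -/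
lemma two_heavy (A : LAlg n L R) (h : 3 * m ≤ n) (I : Inst n) (ρ : Fin R → Bool) (b : ℕ)
    (S : Finset (E m))
    (hS : ∀ e ∈ S, b < A.bits I ρ (enc h e).1 (enc h e).2) :
    2 * S.card ≤ (univ.filter fun p : Fin n × Fin n => b < A.bits I ρ p.1 p.2).card := by
  have hswap : ∀ i j, A.bits I ρ i j = A.bits I ρ j i := by
    intro i j
    unfold LAlg.bits
    congr 1
    apply Finset.filter_congr
    intro t _
    exact exists_congr fun φ => or_comm
  have h1 : (S.image (enc h)) ∪ (S.image fun e => (enc h e).swap) ⊆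
      univ.filter fun p : Fin n × Fin n => b < A.bits I ρ p.1 p.2 := by
    intro p hp
    rw [mem_filter]
    refine ⟨mem_univ _, ?_⟩
    rw [mem_union, mem_image, mem_image] at hp
    rcases hp with ⟨e, he, rfl⟩ | ⟨e, he, rfl⟩
    · exact hS e he
    · rw [Prod.fst_swap, Prod.snd_swap, hswap]
      exact hS e he
  have h2 : Disjoint (S.image (enc h)) (S.image fun e => (enc h e).swap) := by
    rw [Finset.disjoint_left]
    intro p hp hp'
    rw [mem_image] at hp hp'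
    obtain ⟨e, _, rfl⟩ := hp
    obtain ⟨e', _, he'⟩ := hp'
    exact enc_swap h e e' he'.symm
  have h3 : (S.image (enc h)).card = S.card :=
    Finset.card_image_of_injective _ fun e e' he => enc_inj h he
  have h4 : (S.image fun e => (enc h e).swap).card = S.card :=
    Finset.card_image_of_injective _ fun e e' he => enc_inj h (Prod.swap_injective he)
  have h5 := Finset.card_le_card h1
  rw [Finset.card_union_of_disjoint h2, h3, h4] at h5
  omega

end cells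

section chain

variable {m n : ℕ} {L R : ℕ} (A : LAlg n L R) (h : 3 * m ≤ n) (p : Fin 3 × Fin m → ℤ)
  {D d b : ℕ} (ρ : Fin R → Bool) {q : ℕ} {S : (Fin n → Fin n → ℤ) → ℤ → Prop}

open Classical in
/-- the bits read of an edge in the ideal run are inspected in the real run -/
theorem ract_le_bits
    (x : E m → ZMod q) (w : E m → ℤ)
    (hrun : ∀ t ≤ L, A.run (instOf h w) ρ t =
      ((lrun A h p ρ x t).1, (lrun A h p ρ x t).2.map (rev w))) (e : E m) :
    ((Finset.range L).filter fun t => ∃ f, ract A h p ρ t x = some (e, f)).card ≤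
      A.bits (instOf h w) ρ (enc h e).1 (enc h e).2 := by
  unfold LAlg.bits
  apply Finset.card_le_card
  intro t ht
  rw [mem_filter, Finset.mem_range] at ht ⊢
  obtain ⟨h1, f, h2⟩ := ht
  refine ⟨h1, ?_⟩
  have h3 : A.next (instOf h w).flag ρ (A.run (instOf h w) ρ t).1 = lact A h p ρ x t := by
    rw [hrun t (by omega)]; rfl
  rw [h3]
  unfold ract at h2
  rcases hq : lact A h p ρ x t with qu | ⟨i, j, φ⟩
  · rw [hq] at h2; simp at h2
  · rw [hq] at h2
    simp only at h2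
    refine ⟨φ, ?_⟩
    rcases hc : cellE h i j with _ | e'
    · rw [hc] at h2; simp at h2
    · rw [hc] at h2
      simp only [Option.map_some, Option.some.injEq, Prod.mk.injEq] at h2
      obtain ⟨rfl, _⟩ := h2
      rcases cellE_spec h hc with h4 | h4
      · left; rw [h4]
      · right; rw [h4]

end chain

section glue

variable {m n : ℕ} {L R : ℕ} (A : LAlg n L R) (h : 3 * m ≤ n) (p : Fin 3 × Fin m → ℤ) (B G : ℕ)
  {D d b : ℕ} (ρ : Fin R → Bool) {q : ℕ} [NeZero q] {S : (Fin n → Fin n → ℤ) → ℤ → Prop}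

open Classical in
/-- more than `b` bits are read of few edges only -/
lemma heavy_leS (hH : HidesS n h p B G S) (hbig : D ^ 2 * d < (G + 1) / q)
    (hW : WithinX A D b)
    (hA1 : ∀ fl ρ ans f, A.next fl ρ ans = Act.query (Query.value f) → f.totalDegree ≤ d)
    (hA2 : ∀ ans a b, A.next (flagOf h) ρ ans = Act.query (Query.sign a b) → S a b)
    (hper : ∀ ans i j φ, A.next (flagOf h) ρ ans = Act.bit i j φ → ∀ z : ℤ, φ (z + q) = φ z)
    (x : E m → ZMod q) :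
    (univ.filter fun e : E m => b < (reading A h p ρ q).used L x e).card ≤ n ^ 2 / 2 ^ 18 := by
  have hgen := generic_ofS (n := n) h p B G (S := S) (D := D) (d := d) (q := q) hH hbig
  obtain ⟨w, hw1, hw2, hw3, hw4⟩ := hgen x (lrun A h p ρ x L).2
    ((lrun_length A h p ρ x L).trans (nq_leS A h p ρ hW.within hA1 hA2 hper hgen x L le_rfl))
    (lrun_degree A h p ρ x hA1 L)
  have hrun := run_eq_lrun A h p ρ x w hw1 hper (T := L) hw3
    (fun s _ a b hq => hw4 a b (hA2 _ _ _ hq))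
  have h1 := two_heavy A h (instOf h w) ρ b
    (univ.filter fun e : E m => b < (reading A h p ρ q).used L x e) (by
      intro e he
      refine lt_of_lt_of_le (mem_filter.1 he).2 ?_
      refine le_trans (le_of_eq ?_) (ract_le_bits A h p ρ x w hrun e)
      unfold Helper95.LK.Reading.used
      apply congrArg Finset.card
      ext t
      simp only [mem_filter]
      rfl)
  have h2 := (hW _ hw2 ρ).2
  rw [Nat.le_div_iff_mul_le (by positivity)]
  calc (univ.filter fun e : E m => b < (reading A h p ρ q).used L x e).card * 2 ^ 18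
      = 2 ^ 17 * (2 * (univ.filter fun e : E m => b < (reading A h p ρ q).used L x e).card) := by
        ring
    _ ≤ 2 ^ 17 * (univ.filter fun p : Fin n × Fin n =>
          b < A.bits (instOf h w) ρ p.1 p.2).card := Nat.mul_le_mul_left _ h1
    _ ≤ n ^ 2 := by
        refine le_trans (le_of_eq ?_) h2
        congr!

end glue

variable {n m L R D b d r c e : ℕ}

/-- The ideal run of an algorithm for the random string `ρ`. -/
noncomputable def idealOfX (A : LAlg n L R) (h : 3 * m ≤ n) (p : Fin 3 × Fin m → ℤ)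
    (ρ : Fin R → Bool) (B G q : ℕ) [NeZero q] {S : (Fin n → Fin n → ℤ) → ℤ → Prop}
    (hH : HidesS n h p B G S)
    (hbig : D ^ 2 * d < (G + 1) / q) (hW : WithinX A D b)
    (hA1 : ∀ fl ρ ans f, A.next fl ρ ans = Act.query (Query.value f) → f.totalDegree ≤ d)
    (hA2 : ∀ ans a b, A.next (flagOf h) ρ ans = Act.query (Query.sign a b) → S a b)
    (hper : ∀ ans i j φ, A.next (flagOf h) ρ ans = Act.bit i j φ → ∀ z : ℤ, φ (z + q) = φ z)
    (l : ℕ) (hl : 1 ≤ l) (hD : D < 2 ^ l) :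
    IdealX m L b (n ^ 2 / 2 ^ 18) ((468 * (d + 1) * l ^ 3) * D + D) q where
  R := reading A h p ρ q
  heavy_le := fun x => by convert heavy_leS A h p B G ρ hH hbig hW hA1 hA2 hper x
  lout := fun x => lout A h p ρ x
  lout_eq := fun _ _ hc => lout_congr A h p ρ hc
  Cov := fun x => Cov A h p ρ x
  Cov_eq := fun _ _ hc => Cov_congr A h p ρ hc
  Cov_le := fun x => card_Cov_leS A h p B G ρ hH hbig hW.within hA1 hA2 hper hl hD x

/-- The bound for one potential that hides the planted triangles. -/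
theorem core_boundX {G : ℕ} (hn : 2 ^ (b + 18) ≤ n)
    (hbig' : ∀ q, 1 ≤ q → q ≤ n ^ e → D ^ 2 * d < (G + 1) / q)
    (herr' : ∀ q, 1 ≤ q → q ≤ n ^ e → err m G q D d ≤ 1 / 200)
    (A : LAlg n L R)
    (hA1 : ∀ fl ρ ans f, A.next fl ρ ans = Act.query (Query.value f) → f.totalDegree ≤ d)
    (hA2 : ∀ fl ρ ans a x, A.next fl ρ ans = Act.query (Query.sign a x) →
      SignOK2 n r c fl a x)
    (hA3 : ∃ q : (Fin n → Fin n → Bool) → (Fin R → Bool) → ℕ,
      (∀ fl ρ, 1 ≤ q fl ρ ∧ q fl ρ ≤ n ^ e) ∧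
      ∀ fl ρ ans i j φ, A.next fl ρ ans = Act.bit i j φ → ∀ z : ℤ, φ (z + q fl ρ) = φ z)
    (hW : WithinX A D b) (hdec : A.Decides)
    (h : 3 * m ≤ n) (hK : 2 ^ (b + 16) ≤ m) (hk : 2 ^ 16 * (n ^ 2 / 2 ^ 18) ≤ 5 * m ^ 2)
    (p : Fin 3 × Fin m → ℤ) (B : ℕ)
    (hG : G = n ^ (12 + e))
    (H : HidesS n h p B G (fun a b => SignOK2 n r c (flagOf h) a b)) (l : ℕ) (hl : 1 ≤ l)
    (hDl : D < 2 ^ l) :
    (m : ℝ) ^ 3 ≤ 27 * ((468 * (d + 1) * l ^ 3 * D + D : ℕ) : ℝ) * 2 ^ (b + 16) := by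
  obtain ⟨q0, hq0, hper0⟩ := hA3
  have hA2' : ∀ ρ ans a x, A.next (flagOf h) ρ ans = Act.query (Query.sign a x) →
      SignOK2 n r c (flagOf h) a x := fun ρ ans a x hq => hA2 _ _ _ _ _ hq
  have hn17 : 2 ^ 18 ≤ n := le_trans (Nat.pow_le_pow_right (by norm_num) (by omega)) hn
  have hn1000 : 1000 ≤ n := le_trans (by norm_num) hn17
  have hm0 : 0 < m := lt_of_lt_of_le (by positivity) hK
  let q : (Fin R → Bool) → ℕ := fun ρ => q0 (flagOf h) ρ
  have hq1 : ∀ ρ, 1 ≤ q ρ := fun ρ => (hq0 (flagOf h) ρ).1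
  have hqe : ∀ ρ, q ρ ≤ n ^ e := fun ρ => (hq0 (flagOf h) ρ).2
  haveI hqz : ∀ ρ, NeZero (q ρ) := fun ρ => ⟨by have := hq1 ρ; omega⟩
  have hper : ∀ ρ, ∀ ans i j φ, A.next (flagOf h) ρ ans = Act.bit i j φ →
      ∀ z : ℤ, φ (z + q ρ) = φ z := fun ρ ans i j φ hφ => hper0 (flagOf h) ρ ans i j φ hφ
  have hbig : ∀ ρ, D ^ 2 * d < (G + 1) / q ρ := fun ρ => hbig' _ (hq1 ρ) (hqe ρ)
  have hR : ∀ ρ, Fintype.card (E m) * q ρ ≤ G + 1 := fun ρ => by
    rw [hG]; exact card_le_of (by omega) h (hqe ρ)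
  have herr : ∀ ρ, err m G (q ρ) D d ≤ 1 / 200 := fun ρ => herr' _ (hq1 ρ) (hqe ρ)
  have hsum := assemblyX (m := m) (L := L) (b := b) (k := n ^ 2 / 2 ^ 18)
    (N := (468 * (d + 1) * l ^ 3) * D + D) (R := R)
    hm0 hK hk q
    (fun ρ => idealOfX A h p ρ B G (q ρ) H (hbig ρ) hW hA1 (hA2' ρ) (hper ρ) l hl hDl)
    (Helper95.LK.fB A h p B G) (Helper95.LK.fT A h p B G) (1 / 200) le_rfl
    (sum_fBS hdec H) (sum_fTS hdec H)
    (by
      intro ρ
      have h1 := out_nullS A h p B G ρ H (hbig ρ) (hR ρ) hW.within hA1 (hA2' ρ) (hper ρ)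
      have h2 := herr ρ
      refine le_trans (le_of_eq ?_) (h1.trans (add_le_add (le_of_eq ?_) h2))
      · unfold Helper95.LK.fB
        push_cast
        congr!
      · unfold IdealX.pB idealOfX
        congr!)
    (by
      intro ρ T
      have h1 := out_plantedS A h p B G ρ H (hbig ρ) (hR ρ) hW.within hA1 (hA2' ρ) (hper ρ) T
      have h2 := herr ρ
      refine le_trans (sub_le_sub (le_of_eq ?_) h2) (h1.trans (le_of_eq ?_))
      · unfold IdealX.pT idealOfX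
        congr!
      · unfold Helper95.LK.fT
        push_cast
        congr!)
  exact hsum

/-- Numerical conclusion. -/
lemma numericX {n b D d l : ℕ} (hn : 2 ^ (b + 18) ≤ n) (hD : 0 < D) (hDn : D ≤ n ^ 3)
    (hl : l = Nat.log 2 D + 1)
    (h : ((n / 3 : ℕ) : ℝ) ^ 3 ≤
      27 * ((468 * (d + 1) * l ^ 3 * D + D : ℕ) : ℝ) * 2 ^ (b + 16)) :
    (n : ℝ) ^ 3 ≤ 2 ^ (b + 40) * (D : ℝ) * ((d : ℝ) + 1) * (Real.logb 2 n) ^ 3 := by
  set lam := Real.logb 2 n with hlam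
  have hn17 : (2 : ℝ) ^ 17 ≤ (n : ℝ) := by
    have : 2 ^ 17 ≤ n := le_trans (Nat.pow_le_pow_right (by norm_num) (by omega)) hn
    exact_mod_cast this
  have hn0 : (0 : ℝ) < (n : ℝ) := lt_of_lt_of_le (by norm_num) hn17
  have hlam17 : 17 ≤ lam := by
    rw [hlam, Real.le_logb_iff_rpow_le (by norm_num) hn0]
    have : (2 : ℝ) ^ (17 : ℝ) = 2 ^ 17 := by norm_num
    rw [this]; exact hn17
  have hl4 : (l : ℝ) ≤ 3 * lam + 1 := by
    have h2 : 2 ^ (Nat.log 2 D) ≤ n ^ 3 := (Nat.pow_log_le_self 2 hD.ne').trans hDn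
    have h3 : ((2 : ℝ)) ^ (Nat.log 2 D) ≤ (n : ℝ) ^ 3 := by exact_mod_cast h2
    have h4 : (Nat.log 2 D : ℝ) ≤ 3 * lam := by
      have h5 : Real.logb 2 ((2 : ℝ) ^ (Nat.log 2 D)) ≤ Real.logb 2 ((n : ℝ) ^ 3) :=
        Real.logb_le_logb_of_le (by norm_num) (by positivity) h3
      rw [Real.logb_pow, Real.logb_pow, Real.logb_self_eq_one (by norm_num), mul_one] at h5
      push_cast at h5
      exact h5
    rw [hl]; push_cast; linarith
  have hl5 : (l : ℝ) ≤ 307 / 100 * lam := by linarith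
  have hl1 : (1 : ℝ) ≤ l := by
    rw [hl]; push_cast; linarith [(Nat.cast_nonneg _ : (0 : ℝ) ≤ (Nat.log 2 D : ℝ))]
  have hl3 : (l : ℝ) ^ 3 ≤ 29 * lam ^ 3 := by
    calc (l : ℝ) ^ 3 ≤ (307 / 100 * lam) ^ 3 := by gcongr
      _ = (307 / 100) ^ 3 * lam ^ 3 := by ring
      _ ≤ 29 * lam ^ 3 := by
          apply mul_le_mul_of_nonneg_right (by norm_num)
          positivity
  have h1l3 : 1 ≤ (l : ℝ) ^ 3 := one_le_pow₀ hl1
  have hDr : (0 : ℝ) ≤ D := Nat.cast_nonneg _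
  have hd0 : (0 : ℝ) ≤ d := Nat.cast_nonneg _
  have hN : ((468 * (d + 1) * l ^ 3 * D + D : ℕ) : ℝ) ≤
      13601 * (((d : ℝ) + 1) * lam ^ 3 * D) := by
    push_cast
    have hq : 1 ≤ ((d : ℝ) + 1) * (l : ℝ) ^ 3 := by nlinarith
    have h5 : 468 * ((d : ℝ) + 1) * (l : ℝ) ^ 3 * D + D ≤
        469 * (((d : ℝ) + 1) * (l : ℝ) ^ 3) * D := by
      nlinarith [mul_le_mul_of_nonneg_right hq hDr]
    have h8 : (((d : ℝ) + 1) * (l : ℝ) ^ 3) * D ≤ (((d : ℝ) + 1) * (29 * lam ^ 3)) * D := by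
      apply mul_le_mul_of_nonneg_right _ hDr
      exact mul_le_mul_of_nonneg_left hl3 (by linarith)
    linarith
  have hm : (n : ℝ) ≤ 3 * ((n / 3 : ℕ) : ℝ) + 2 := by
    have : n ≤ 3 * (n / 3) + 2 := by omega
    exact_mod_cast this
  have hm2 : (32768 : ℝ) ≤ ((n / 3 : ℕ) : ℝ) := by
    have h1 : 2 ^ 17 ≤ n := le_trans (Nat.pow_le_pow_right (by norm_num) (by omega)) hn
    have : 32768 ≤ n / 3 := by omega
    exact_mod_cast this
  have h6 : (n : ℝ) ^ 3 ≤ 28 * ((n / 3 : ℕ) : ℝ) ^ 3 := by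
    have h7 : (n : ℝ) ≤ 3001 / 1000 * ((n / 3 : ℕ) : ℝ) := by linarith
    calc (n : ℝ) ^ 3 ≤ (3001 / 1000 * ((n / 3 : ℕ) : ℝ)) ^ 3 := by gcongr
      _ = (3001 / 1000) ^ 3 * ((n / 3 : ℕ) : ℝ) ^ 3 := by ring
      _ ≤ 28 * ((n / 3 : ℕ) : ℝ) ^ 3 := by
          apply mul_le_mul_of_nonneg_right (by norm_num)
          positivity
  have h9 : 0 ≤ ((d : ℝ) + 1) * lam ^ 3 * D := by positivity
  have h10 : (0 : ℝ) ≤ 2 ^ (b + 16) := by positivity
  calc (n : ℝ) ^ 3 ≤ 28 * ((n / 3 : ℕ) : ℝ) ^ 3 := h6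
    _ ≤ 28 * (27 * ((468 * (d + 1) * l ^ 3 * D + D : ℕ) : ℝ) * 2 ^ (b + 16)) := by linarith
    _ ≤ 28 * (27 * (13601 * (((d : ℝ) + 1) * lam ^ 3 * D)) * 2 ^ (b + 16)) := by
        gcongr
    _ = 28 * 27 * 13601 * 2 ^ 16 * (2 ^ b * (((d : ℝ) + 1) * lam ^ 3 * D)) := by
        rw [pow_add]; ring
    _ ≤ 2 ^ 40 * (2 ^ b * (((d : ℝ) + 1) * lam ^ 3 * D)) := by
        apply mul_le_mul_of_nonneg_right _ (by positivity)
        norm_num
    _ = 2 ^ (b + 40) * (D : ℝ) * ((d : ℝ) + 1) * lam ^ 3 := by rw [pow_add]; ring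

lemma kX {n : ℕ} (hn : 2 ^ 18 ≤ n) : 2 ^ 16 * (n ^ 2 / 2 ^ 18) ≤ 5 * (n / 3) ^ 2 := by
  have h1 : 2 ^ 18 * (n ^ 2 / 2 ^ 18) ≤ n ^ 2 := Nat.mul_div_le _ _
  have h2 : n ≤ 3 * (n / 3) + 2 := by omega
  have h3 : 1000 ≤ n / 3 := by omega
  have h4 : n ^ 2 ≤ (3 * (n / 3) + 2) ^ 2 := Nat.pow_le_pow_left h2 2
  have h5 : (3 * (n / 3) + 2) ^ 2 ≤ 10 * (n / 3) ^ 2 := by nlinarith
  omega

/-- **Lower bound with periodic bits and exceptional weights.** -/
theorem lower_bound_X {n L R D b d r c e : ℕ} (hrc : r * (c + 4) + 2 * c + e ≤ 270)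
    (hn : 2 ^ (b + 18) ≤ n) (A : LAlg n L R)
    (hA1 : ∀ fl ρ ans f, A.next fl ρ ans = Act.query (Query.value f) → f.totalDegree ≤ d)
    (hA2 : ∀ fl ρ ans a x, A.next fl ρ ans = Act.query (Query.sign a x) →
      SignOK2 n r c fl a x)
    (hA3 : ∃ q : (Fin n → Fin n → Bool) → (Fin R → Bool) → ℕ,
      (∀ fl ρ, 1 ≤ q fl ρ ∧ q fl ρ ≤ n ^ e) ∧
      ∀ fl ρ ans i j φ, A.next fl ρ ans = Act.bit i j φ → ∀ z : ℤ, φ (z + q fl ρ) = φ z)
    (hW : WithinX A D b) (hdec : A.Decides) :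
    (n : ℝ) ^ 3 ≤ 2 ^ (b + 40) * (D : ℝ) * ((d : ℝ) + 1) * (Real.logb 2 (n : ℝ)) ^ 3 := by
  have hn17 : 2 ^ 18 ≤ n := le_trans (Nat.pow_le_pow_right (by norm_num) (by omega)) hn
  have hn3 : 3 ≤ n := le_trans (by norm_num) hn17
  have hK : 2 ^ (b + 16) ≤ n / 3 := by
    have h1 : 2 ^ (b + 18) = 4 * 2 ^ (b + 16) := by
      rw [show b + 18 = (b + 16) + 2 by ring, pow_add]; ring
    have h2 : 1 ≤ 2 ^ (b + 16) := Nat.one_le_two_pow
    omega
  have hk := kX hn17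
  have hm0 : 0 < n / 3 := lt_of_lt_of_le (by positivity) hK
  have h : 3 * (n / 3) ≤ n := Nat.mul_div_le n 3
  have hlam1 : 1 ≤ Real.logb 2 (n : ℝ) := by
    have hn3' : (3 : ℝ) ≤ n := by exact_mod_cast hn3
    rw [Real.le_logb_iff_rpow_le (by norm_num) (by linarith)]
    norm_num; linarith
  have hlam3 : 1 ≤ (Real.logb 2 (n : ℝ)) ^ 3 := one_le_pow₀ hlam1
  have hn4 : 10000 ≤ n := le_trans (by norm_num) hn17
  obtain ⟨p, H⟩ := exists_hidesS hn3 hrc h hm0
  have hmR : (0 : ℝ) < ((n / 3 : ℕ) : ℝ) ^ 3 := by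
    have : (0 : ℝ) < ((n / 3 : ℕ) : ℝ) := by exact_mod_cast hm0
    positivity
  have hD1 : 1 ≤ D := by
    by_contra hcon
    have hD0 : D = 0 := by omega
    subst hD0
    have h1 := core_boundX (d := d) hn
      (fun q hq1 hq => by
        have := big_of (D := 0) (d := 0) (by omega : 100 ≤ n) hq1 hq (Nat.zero_le _) (Nat.zero_le _)
        simpa using this)
      (fun q hq1 hq => by
        have := err_le' (m := n / 3) (D := 0) (d := 0) hn4 h hq1 hq (Nat.zero_le _) (Nat.zero_le _)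
        refine le_trans (le_of_eq ?_) (this.trans (by norm_num))
        unfold err
        simp)
      A hA1 hA2 hA3 hW hdec h hK hk p _ rfl H 1 le_rfl (by norm_num)
    simp only [mul_zero, add_zero, Nat.cast_zero, zero_mul] at h1
    linarith
  by_cases hDn : D ≤ n ^ 3 ∧ d ≤ n ^ 3
  · obtain ⟨hDn, hdn⟩ := hDn
    set l := Nat.log 2 D + 1 with hl
    have hDl : D < 2 ^ l := Nat.lt_pow_succ_log_self (by norm_num) D
    have h1 := core_boundX hn
      (fun q hq1 hq => big_of (by omega) hq1 hq hDn hdn)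
      (fun q hq1 hq => (err_le' hn4 h hq1 hq hDn hdn).trans (by norm_num))
      A hA1 hA2 hA3 hW hdec h hK hk p _ rfl H l (by omega) hDl
    exact numericX hn hD1 hDn hl h1
  · rw [not_and_or] at hDn
    push Not at hDn
    have hDr : (1 : ℝ) ≤ D := by exact_mod_cast hD1
    have hd0 : (0 : ℝ) ≤ d := Nat.cast_nonneg _
    have h0 : (n : ℝ) ^ 3 ≤ D * ((d : ℝ) + 1) := by
      rcases hDn with hDn | hdn
      · have h1 : (n : ℝ) ^ 3 ≤ D := by exact_mod_cast hDn.le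
        nlinarith
      · have h1 : (n : ℝ) ^ 3 ≤ d := by exact_mod_cast hdn.le
        nlinarith
    have h2 : (1 : ℝ) ≤ 2 ^ (b + 40) := one_le_pow₀ (by norm_num)
    calc (n : ℝ) ^ 3 ≤ D * ((d : ℝ) + 1) := h0
      _ ≤ 2 ^ (b + 40) * (D * ((d : ℝ) + 1)) := by
          have : 0 ≤ (D : ℝ) * ((d : ℝ) + 1) := by positivity
          nlinarith
      _ = 2 ^ (b + 40) * D * ((d : ℝ) + 1) * 1 := by ring
      _ ≤ _ := by gcongr

/-- **Lower bound with periodic bits, in terms of the total number `B` of inspected bits.** -/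
theorem lower_bound_total {n L R D B d r c e : ℕ} (hrc : r * (c + 4) + 2 * c + e ≤ 270)
    (hn : 2 ^ (2 ^ 18 * B / n ^ 2 + 18) ≤ n) (A : LAlg n L R)
    (hA1 : ∀ fl ρ ans f, A.next fl ρ ans = Act.query (Query.value f) → f.totalDegree ≤ d)
    (hA2 : ∀ fl ρ ans a x, A.next fl ρ ans = Act.query (Query.sign a x) →
      SignOK2 n r c fl a x)
    (hA3 : ∃ q : (Fin n → Fin n → Bool) → (Fin R → Bool) → ℕ,
      (∀ fl ρ, 1 ≤ q fl ρ ∧ q fl ρ ≤ n ^ e) ∧
      ∀ fl ρ ans i j φ, A.next fl ρ ans = Act.bit i j φ → ∀ z : ℤ, φ (z + q fl ρ) = φ z)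
    (hW : WithinTotal A D B) (hdec : A.Decides) :
    (n : ℝ) ^ 3 ≤ 2 ^ (2 ^ 18 * B / n ^ 2 + 40) * (D : ℝ) * ((d : ℝ) + 1) *
      (Real.logb 2 (n : ℝ)) ^ 3 :=
  lower_bound_X hrc hn A hA1 hA2 hA3 hW.withinX hdec

end Pool.Agent.Helper7.LKX
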