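import Mathlib
import Pool.Agent.Helper7.LKX.Ev
import Pool.Agent.Helper7.LKX.SgnX

/-!
# The ideal run with revealed labels is the real run, unless there is a coincidence
-/

set_option autoImplicit false

namespace Pool.Agent.Helper7.LKX

open Finset Pool.Agent.Helper95.LK
open Pool.Agent.Helper22.ETModel (E RForm rev tk te te_inter card_te Inst Query SignOK instOf
  flagOf enc sgnCode redc code instOf_valid instOf_yes pot wtOf step evalP_instOf' evalZ_instOf
  idxOf_map_eq evalP)
open Pool.Agent.Helper22.EP (redP totalDegree_redP eval_aeval totalDegree_aeval_le)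
open Pool.Agent.Helper8.LK (LAlg Act act cellE cellE_spec wtOf_cellE)
open Pool.Agent.Helper7.LK (Lab wv wpt plantZ)

variable {m n L R G : ℕ} (A : LAlg n L R) (h : 3 * m ≤ n) (p : Fin 3 × Fin m → ℤ)
  (ρ : Fin R → Bool) (D b K k : ℕ)

open Classical in
/-- Number of queries of the real run before time `t`. -/
noncomputable def rq (I : Inst n) (t : ℕ) : ℕ :=
  ((Finset.range t).filter fun i => ∃ q, A.next I.flag ρ (A.run I ρ i).1 = Act.query q).card

open Classical in
/-- Number of inspected bits of a weight in the real run before time `t`. -/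
noncomputable def rb (I : Inst n) (t : ℕ) (i j : Fin n) : ℕ :=
  ((Finset.range t).filter fun t => ∃ φ, A.next I.flag ρ (A.run I ρ t).1 = Act.bit i j φ ∨
    A.next I.flag ρ (A.run I ρ t).1 = Act.bit j i φ).card

lemma rq_mono (I : Inst n) {t t' : ℕ} (htt : t ≤ t') : rq A ρ I t ≤ rq A ρ I t' := by
  classical
  unfold rq
  apply Finset.card_le_card
  apply Finset.filter_subset_filter
  exact Finset.range_subset_range.2 htt

lemma rb_mono (I : Inst n) {t t' : ℕ} (htt : t ≤ t') (i j : Fin n) :
    rb A ρ I t i j ≤ rb A ρ I t' i j := by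
  classical
  unfold rb
  apply Finset.card_le_card
  apply Finset.filter_subset_filter
  exact Finset.range_subset_range.2 htt

lemma rq_succ (I : Inst n) {t : ℕ} {q : Query n}
    (hq : A.next I.flag ρ (A.run I ρ t).1 = Act.query q) : rq A ρ I (t + 1) = rq A ρ I t + 1 := by
  classical
  unfold rq
  rw [Finset.range_add_one, Finset.filter_insert, if_pos ⟨q, hq⟩, Finset.card_insert_of_notMem]
  simp

lemma rb_succ (I : Inst n) {t : ℕ} {i j : Fin n} {φ : ℤ → Bool}
    (hq : A.next I.flag ρ (A.run I ρ t).1 = Act.bit i j φ ∨
      A.next I.flag ρ (A.run I ρ t).1 = Act.bit j i φ) :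
    rb A ρ I (t + 1) i j = rb A ρ I t i j + 1 := by
  classical
  unfold rb
  rw [Finset.range_add_one, Finset.filter_insert, if_pos ⟨φ, hq⟩, Finset.card_insert_of_notMem]
  simp

/-- **Simulation.** -/
theorem msim {s : E m → Lab G} (hval : (instOf h (wpt (pot p) s)).Valid) (hW : WithinX A D b)
    (hk : k = n ^ 2 / 2 ^ 18)
    (hsg : ∀ ans a c, A.next (flagOf h) ρ ans = Act.query (Query.sign a c) →
      sgnCode (c + ∑ e, redc h a e * wpt (pot p) s e) = code p (redc h a) c)
    (t : ℕ) (ht : t ≤ L) (H : ∀ i < t, ¬ evN A h p ρ D b K k i s) :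
    A.run (instOf h (wpt (pot p) s)) ρ t =
      ((mrun A h p ρ D b K k s t).ans,
        (mrun A h p ρ D b K k s t).pol.map (rev (wpt (pot p) s))) ∧
    (mrun A h p ρ D b K k s t).nq ≤ rq A ρ (instOf h (wpt (pot p) s)) t ∧
    ∀ e, ((mrun A h p ρ D b K k s t).raw e).2 ≤
      rb A ρ (instOf h (wpt (pot p) s)) t (enc h e).1 (enc h e).2 := by
  classical
  induction t with
  | zero =>
    refine ⟨rfl, ?_, ?_⟩
    · rw [mrun_zero]; exact Nat.zero_le _
    · intro e
      rw [mrun_zero]; exact Nat.zero_le _
  | succ t ih =>
    obtain ⟨ih1, ih2, ih3⟩ := ih (by omega) (fun i hi => H i (by omega))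
    set I := instOf h (wpt (pot p) s) with hI
    set st := mrun A h p ρ D b K k s t with hst
    have hnext : A.next I.flag ρ (A.run I ρ t).1 = mact A h p ρ D b K k s t := by
      rw [ih1]; rfl
    -- counts
    have c1 : (mstep h p b K s st (mact A h p ρ D b K k s t)).nq ≤ rq A ρ I (t + 1) := by
      rcases hq : mact A h p ρ D b K k s t with (f | ⟨a, c⟩) | ⟨i, j, φ⟩
      · rw [rq_succ A ρ I (hnext.trans hq)]
        simp only [mstep]; omega
      · rw [rq_succ A ρ I (hnext.trans hq)]
        simp only [mstep]; omega
      · simp only [mstep]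
        exact ih2.trans (rq_mono A ρ I (Nat.le_succ t))
    have c2 : ∀ e, ((mstep h p b K s st (mact A h p ρ D b K k s t)).raw e).2 ≤
        rb A ρ I (t + 1) (enc h e).1 (enc h e).2 := by
      intro e
      rw [mstep_raw]
      by_cases hb : badc b K (st.raw e)
      · rw [rstep_bad hb]
        exact (ih3 e).trans (rb_mono A ρ I (Nat.le_succ t) _ _)
      · by_cases ha : ∃ f, ra h p G (mact A h p ρ D b K k s t) = some (e, f)
        · obtain ⟨f, hf⟩ := ha
          rw [hf, rstep_of_some hb]
          rcases hq : mact A h p ρ D b K k s t with (f' | ⟨a, c⟩) | ⟨i, j, φ⟩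
          · rw [hq] at hf; simp [ra] at hf
          · rw [hq] at hf; simp [ra] at hf
          · rw [hq] at hf
            simp only [ra] at hf
            rcases hc : cellE h i j with _ | e'
            · rw [hc] at hf; simp at hf
            · rw [hc] at hf
              simp only [Option.map_some, Option.some.injEq, Prod.mk.injEq] at hf
              obtain ⟨rfl, _⟩ := hf
              have h5 : rb A ρ I (t + 1) (enc h e').1 (enc h e').2 =
                  rb A ρ I t (enc h e').1 (enc h e').2 + 1 := by
                apply rb_succ A ρ I (φ := φ)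
                rcases cellE_spec h hc with h6 | h6
                · left; rw [h6]; exact hnext.trans hq
                · right; rw [h6]; exact hnext.trans hq
              rw [h5]
              exact Nat.add_le_add_right (ih3 e') 1
        · push Not at ha
          rw [rstep_of_ne ha]
          exact (ih3 e).trans (rb_mono A ρ I (Nat.le_succ t) _ _)
    have hok : mok A h p ρ D b K k s t := by
      have h4 := hW I hval ρ
      refine ⟨?_, ?_⟩
      · refine c1.trans (le_trans ?_ h4.1)
        exact rq_mono A ρ I (by omega : t + 1 ≤ L)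
      · have h5 := two_heavy A h I ρ b
          (univ.filter fun e => b < ((mstep h p b K s st (mact A h p ρ D b K k s t)).raw e).2) (by
            intro e he
            refine lt_of_lt_of_le (mem_filter.1 he).2 ((c2 e).trans ?_)
            exact rb_mono A ρ I (by omega : t + 1 ≤ L) _ _)
        refine le_trans ?_ (le_of_eq hk.symm)
        rw [Nat.le_div_iff_mul_le (by positivity)]
        have h6 : 2 ^ 17 * (univ.filter fun q : Fin n × Fin n => b < A.bits I ρ q.1 q.2).card ≤
            n ^ 2 := by
          refine le_trans (le_of_eq ?_) h4.2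
          congr!
        calc (univ.filter fun e =>
              b < ((mstep h p b K s st (mact A h p ρ D b K k s t)).raw e).2).card * 2 ^ 18
            = 2 ^ 17 * (2 * (univ.filter fun e =>
              b < ((mstep h p b K s st (mact A h p ρ D b K k s t)).raw e).2).card) := by ring
          _ ≤ 2 ^ 17 * (univ.filter fun q : Fin n × Fin n => b < A.bits I ρ q.1 q.2).card :=
              Nat.mul_le_mul_left _ h5
          _ ≤ n ^ 2 := h6
    rw [mrun_succ_ok A h p ρ D b K k hok]
    refine ⟨?_, c1, c2⟩
    have hrun : A.run I ρ (t + 1) =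
        act I (A.run I ρ t) (A.next I.flag ρ (A.run I ρ t).1) := rfl
    rw [hrun, hnext, ih1]
    have Ht := H t (by omega)
    rcases hq : mact A h p ρ D b K k s t with (f | ⟨a, c⟩) | ⟨i, j, φ⟩
    · simp only [act, step, mstep]
      rw [evalP_instOf', List.map_append, List.map_singleton]
      have hl : (st.pol.map (rev (wpt (pot p) s))).idxOf (rev (wpt (pot p) s) (redP h f)) =
          (st.pol.map (redK b K (pot p) s st.raw)).idxOf
            (redK b K (pot p) s st.raw (redP h f)) := by
        have e1 : st.pol.map (rev (wpt (pot p) s)) =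
            (st.pol.map (redK b K (pot p) s st.raw)).map (rev (wpt (pot p) s)) := by
          rw [List.map_map]
          apply List.map_congr_left
          intro f' _
          exact (rev_redK b K (pot p) s st.raw f').symm
        have e2 : rev (wpt (pot p) s) (redP h f) =
            rev (wpt (pot p) s) (redK b K (pot p) s st.raw (redP h f)) :=
          (rev_redK b K (pot p) s st.raw (redP h f)).symm
        rw [e1, e2]
        apply idxOf_map_eq
        intro y hy hyx
        rw [List.mem_map] at hy
        obtain ⟨f', hf', rfl⟩ := hy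
        by_contra hne
        apply Ht
        refine ⟨hok, f, hq, f', hf', hne, ?_⟩
        rw [rev_redK, rev_redK] at hyx
        exact hyx
      congr 2
      simp only [List.cons.injEq, and_true]
      convert hl
    · simp only [act, step, mstep]
      rw [evalZ_instOf, hsg _ a c hq]
    · simp only [act, mstep]
      rfl

/-- Without a coincidence the outputs agree. -/
theorem msim_out {s : E m → Lab G} (hval : (instOf h (wpt (pot p) s)).Valid) (hW : WithinX A D b)
    (hk : k = n ^ 2 / 2 ^ 18)
    (hsg : ∀ ans a c, A.next (flagOf h) ρ ans = Act.query (Query.sign a c) →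
      sgnCode (c + ∑ e, redc h a e * wpt (pot p) s e) = code p (redc h a) c)
    (H : ¬ ∃ i < L, evN A h p ρ D b K k i s) :
    A.output (instOf h (wpt (pot p) s)) ρ =
      A.out (flagOf h) ρ (mrun A h p ρ D b K k s L).ans := by
  push Not at H
  unfold LAlg.output
  rw [(msim A h p ρ D b K k hval hW hk hsg L le_rfl H).1]
  rfl

end Pool.Agent.Helper7.LKX
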