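import Mathlib
import Pool.Agent.Helper7.LKX.Sim

/-!
# Arbitrary bits with exceptional weights: null and planted runs
-/

set_option autoImplicit false

namespace Pool.Agent.Helper7.LKX

open Finset Pool.Agent.Helper95.LK
open Pool.Agent.Helper22.ETModel (E RForm rev tk te te_inter card_te Inst Query SignOK instOf
  flagOf enc sgnCode redc code instOf_valid instOf_yes pot wtOf sum_te)
open Pool.Agent.Helper22.EP (redP totalDegree_redP eval_aeval totalDegree_aeval_le)
open Pool.Agent.Helper8.LK (LAlg Act cellE cellE_spec wtOf_cellE)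
open Pool.Agent.Helper7.LK (Lab wv wpt plantZ covL mem_covL card_covL_le oFP oFP_01)

variable {m n L R G : ℕ} (A : LAlg n L R) (h : 3 * m ≤ n) (p : Fin 3 × Fin m → ℤ)
  (ρ : Fin R → Bool) (D b K k : ℕ)

lemma known_of_le {s s' : E m → Lab G} {t : ℕ} (ht : t ≤ L)
    (H : ∀ e, s' e ∈ known b K s (mrun A h p ρ D b K k s L).raw e) :
    ∀ e, s' e ∈ known b K s (mrun A h p ρ D b K k s t).raw e := fun e =>
  (mrr A h p ρ D b K k G).filt.cell_mono ht s e (H e)

/-- Two polynomials that were declared to be different become equal after the substitution of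
labels that are revealed later. -/
def coll (s : E m → Lab G) : Prop :=
  ∃ t, t < L ∧ mok A h p ρ D b K k s t ∧
    ∃ f, mact A h p ρ D b K k s t = Act.query (Query.value f) ∧
    ∃ f' ∈ (mrun A h p ρ D b K k s t).pol,
      redK b K (pot p) s (mrun A h p ρ D b K k s t).raw f' ≠
        redK b K (pot p) s (mrun A h p ρ D b K k s t).raw (redP h f) ∧
      redK b K (pot p) s (mrun A h p ρ D b K k s L).raw f' =
        redK b K (pot p) s (mrun A h p ρ D b K k s L).raw (redP h f)

lemma evN_of_coll {s : E m → Lab G} (hc : coll A h p ρ D b K k s) :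
    ∃ t < L, evN A h p ρ D b K k t s := by
  obtain ⟨t, ht, hok, f, hf, f', hf', hne, heq⟩ := hc
  refine ⟨t, ht, hok, f, hf, f', hf', hne, ?_⟩
  rw [← rev_redK b K (pot p) s (mrun A h p ρ D b K k s L).raw f', heq, rev_redK]

lemma coll_congr {s s' : E m → Lab G}
    (H : ∀ e, s' e ∈ known b K s (mrun A h p ρ D b K k s L).raw e) :
    coll A h p ρ D b K k s' ↔ coll A h p ρ D b K k s := by
  unfold coll
  refine exists_congr fun t => and_congr_right fun ht => ?_
  have Ht := known_of_le A h p ρ D b K k ht.le H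
  rw [mok_congr A h p ρ D b K k t Ht, mact_congr A h p ρ D b K k t Ht,
    mrun_congr A h p ρ D b K k t Ht, mrun_congr A h p ρ D b K k L H,
    redK_congr b K (pot p) s _ Ht, redK_congr b K (pot p) s _ H]

/-- The covered triangles. -/
noncomputable def covX (s : E m → Lab G) : Finset (Helper7.LK.Tr m) :=
  covL ((mrun A h p ρ D b K k s L).pol.map (redK b K (pot p) s (mrun A h p ρ D b K k s L).raw))

lemma covX_congr {s s' : E m → Lab G}
    (H : ∀ e, s' e ∈ known b K s (mrun A h p ρ D b K k s L).raw e) :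
    covX A h p ρ D b K k s' = covX A h p ρ D b K k s := by
  unfold covX
  rw [mrun_congr A h p ρ D b K k L H, redK_congr b K (pot p) s _ H]

lemma card_covX {d l : ℕ}
    (hA1 : ∀ fl ρ ans f, A.next fl ρ ans = Act.query (Query.value f) → f.totalDegree ≤ d)
    (hl : 1 ≤ l) (hD : D < 2 ^ l) (s : E m → Lab G) :
    (covX A h p ρ D b K k s).card ≤ (468 * (d + 1) * l ^ 3) * D := by
  unfold covX
  apply card_covL_le _ _ _ hl hD
  · rw [List.length_map]
    exact length_pol_le A h p ρ D b K k s L
  · intro g hg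
    rw [List.mem_map] at hg
    obtain ⟨f, hf, rfl⟩ := hg
    exact (totalDegree_redK b K (pot p) s _ f).trans (degree_pol A h p ρ D b K k hA1 s L f hf)

/-- A coincidence at a planted point without collapse. -/
lemma evT_of_evN {s : E m → Lab G} {T : Helper7.LK.Tr m}
    (hT : ∀ j, ¬ badc b K ((mrun A h p ρ D b K k s L).raw (tk T j)))
    (hC : T ∉ covX A h p ρ D b K k s) (hnc : ¬ coll A h p ρ D b K k s)
    (he : ∃ t < L, evN A h p ρ D b K k t s) : ∃ t < L, evT A h p ρ D b K k T t s := by
  obtain ⟨t, ht, hok, f, hf, f', hf', hne, hrev⟩ := he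
  have hmono : ∀ e, badc b K ((mrun A h p ρ D b K k s t).raw e) →
      badc b K ((mrun A h p ρ D b K k s L).raw e) := fun e hb =>
    (mrr A h p ρ D b K k G).bad_mono' ht.le e s hb
  refine ⟨t, ht, hok, fun i hb => hT i (hmono _ hb), f, hf, f', hf', ?_, hrev⟩
  intro hall
  apply hC
  unfold covX
  rw [mem_covL]
  refine ⟨_, List.mem_map.2 ⟨f', pol_mono A h p ρ D b K k s ht.le hf', rfl⟩, _,
    List.mem_map.2 ⟨redP h f, pol_mono A h p ρ D b K k s (Nat.succ_le_of_lt ht)
      (pol_of_isQ A h p ρ D b K k hok hf), rfl⟩, ?_, ?_⟩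
  · intro heq
    exact hnc ⟨t, ht, hok, f, hf, f', hf', hne, heq⟩
  · intro w hw
    set w' : E m → ℝ := fun e => if badc b K ((mrun A h p ρ D b K k s L).raw e) then
      ((wpt (pot p) s e : ℤ) : ℝ) else w e with hw'
    have h1 : ∀ g : RForm m, MvPolynomial.eval w
        (redK b K (pot p) s (mrun A h p ρ D b K k s L).raw g) = MvPolynomial.eval w' g := by
      intro g
      rw [eval_redK]
    have h2 : ∀ g : RForm m, MvPolynomial.eval w'
        (redK b K (pot p) s (mrun A h p ρ D b K k s t).raw g) = MvPolynomial.eval w' g := by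
      intro g
      rw [eval_redK]
      congr 1
      congr 1
      funext e
      split_ifs with hb
      · simp only [hw']
        rw [if_pos (hmono e hb)]
      · rfl
    have h3 : ∑ e ∈ te T, w' e = 0 := by
      rw [sum_te] at hw ⊢
      simp only [hw']
      rw [if_neg (hT 0), if_neg (hT 1), if_neg (hT 2)]
      exact hw
    rw [h1, h1, ← h2 f', ← h2 (redP h f)]
    exact hall w' h3

open Classical in
/-- The ideal run rejects without collapse. -/
noncomputable def aX (s : E m → Lab G) : ℝ :=
  if coll A h p ρ D b K k s then 0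
  else if A.out (flagOf h) ρ (mrun A h p ρ D b K k s L).ans = false then 1 else 0

lemma aX_01 (s : E m → Lab G) : 0 ≤ aX A h p ρ D b K k s ∧ aX A h p ρ D b K k s ≤ 1 := by
  unfold aX; split_ifs <;> norm_num

lemma aX_congr {s s' : E m → Lab G}
    (H : ∀ e, s' e ∈ known b K s (mrun A h p ρ D b K k s L).raw e) :
    aX A h p ρ D b K k s' = aX A h p ρ D b K k s := by
  classical
  unfold aX
  rw [mrun_congr A h p ρ D b K k L H]
  by_cases hc : coll A h p ρ D b K k s
  · rw [if_pos hc, if_pos ((coll_congr A h p ρ D b K k H).2 hc)]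
  · rw [if_neg hc, if_neg (fun h' => hc ((coll_congr A h p ρ D b K k H).1 h'))]

section steps

variable (hval : ∀ s : E m → Lab G, (instOf h (wpt (pot p) s)).Valid) (hW : WithinX A D b)
  (hk : k = n ^ 2 / 2 ^ 18)
  (hsg : ∀ ans a c, A.next (flagOf h) ρ ans = Act.query (Query.sign a c) →
      ∀ s : E m → Lab G, sgnCode (c + ∑ e, redc h a e * wpt (pot p) s e) = code p (redc h a) c)

include hval hW hk hsg

lemma oFP_eq_aX {s : E m → Lab G} (hs : ¬ ∃ t < L, evN A h p ρ D b K k t s) :
    oFP A h p ρ s = aX A h p ρ D b K k s := by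
  classical
  have h1 := msim_out A h p ρ D b K k (hval s) hW hk (fun ans a c hq => hsg ans a c hq s) hs
  have h2 : ¬ coll A h p ρ D b K k s := fun hc => hs (evN_of_coll A h p ρ D b K k hc)
  unfold oFP aX
  rw [if_neg h2, h1]

open Classical in
/-- null law -/
lemma null_stepX :
    ∑ s : E m → Lab G, oFP A h p ρ s ≤ ∑ s : E m → Lab G, aX A h p ρ D b K k s +
      ((univ.filter fun s : E m → Lab G => ∃ t < L, evN A h p ρ D b K k t s).card : ℝ) := by
  have h1 : ((univ.filter fun s : E m → Lab G => ∃ t < L, evN A h p ρ D b K k t s).card : ℝ) =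
      ∑ s : E m → Lab G, (if ∃ t < L, evN A h p ρ D b K k t s then (1 : ℝ) else 0) := by
    rw [← Finset.sum_filter, Finset.sum_const]; simp
  rw [h1, ← Finset.sum_add_distrib]
  refine Finset.sum_le_sum fun s _ => ?_
  have h2 := (oFP_01 (A := A) (h := h) p ρ s).2
  have h3 := (aX_01 A h p ρ D b K k s).1
  by_cases hs : ∃ t < L, evN A h p ρ D b K k t s
  · rw [if_pos hs]; linarith
  · rw [if_neg hs, add_zero, oFP_eq_aX A h p ρ D b K k hval hW hk hsg hs]

open Classical in
/-- planted law -/
lemma planted_stepX (T : Helper7.LK.Tr m) :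
    ∑ s : E m → Lab G, (if T ∉ covX A h p ρ D b K k s ∧
          ¬ ∃ j, badc b K ((mrun A h p ρ D b K k s L).raw (tk T j)) then
        (plantZ m G).g T * (plantZ m G).ind T s * aX A h p ρ D b K k s else 0) ≤
      (plantZ m G).g T * ∑ s : E m → Lab G, (plantZ m G).ind T s * oFP A h p ρ s +
      (plantZ m G).g T * ∑ s : E m → Lab G,
        (if ∃ t < L, evT A h p ρ D b K k T t s then (plantZ m G).ind T s else 0) := by
  rw [← mul_add, ← Finset.sum_add_distrib, Finset.mul_sum]
  refine Finset.sum_le_sum fun s _ => ?_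
  have hg := (plantZ m G).g_nonneg T
  have hi := (plantZ m G).ind_nonneg T s
  have ho := (oFP_01 (A := A) (h := h) p ρ s).1
  have ha := aX_01 A h p ρ D b K k s
  have h0 : 0 ≤ (plantZ m G).ind T s * oFP A h p ρ s := mul_nonneg hi ho
  have h2 : 0 ≤ (if ∃ t < L, evT A h p ρ D b K k T t s then (plantZ m G).ind T s else 0) := by
    split_ifs
    · exact hi
    · exact le_rfl
  by_cases hT : T ∉ covX A h p ρ D b K k s ∧
      ¬ ∃ j, badc b K ((mrun A h p ρ D b K k s L).raw (tk T j))
  · rw [if_pos hT, mul_assoc]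
    apply mul_le_mul_of_nonneg_left _ hg
    by_cases hc : coll A h p ρ D b K k s
    · have h3 : aX A h p ρ D b K k s = 0 := by
        unfold aX
        rw [if_pos hc]
      rw [h3, mul_zero]
      linarith
    · by_cases he : ∃ t < L, evN A h p ρ D b K k t s
      · have h4 := evT_of_evN A h p ρ D b K k (fun j hb => hT.2 ⟨j, hb⟩) hT.1 hc he
        rw [if_pos h4]
        have h5 : (plantZ m G).ind T s * aX A h p ρ D b K k s ≤ (plantZ m G).ind T s * 1 :=
          mul_le_mul_of_nonneg_left ha.2 hi
        linarith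
      · rw [← oFP_eq_aX A h p ρ D b K k hval hW hk hsg he]
        linarith
  · rw [if_neg hT]
    exact mul_nonneg hg (add_nonneg h0 h2)

end steps

end Pool.Agent.Helper7.LKX
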