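import Mathlib
import Pool.Agent.Helper7.LKX.ArbX

/-!
# Arbitrary bits with exceptional weights: the main inequality
-/

set_option autoImplicit false

namespace Pool.Agent.Helper7.LKX

open Finset Pool.Agent.Helper95.LK
open Pool.Agent.Helper22.ETModel (E RForm rev tk te te_inter card_te Inst Query SignOK instOf
  flagOf enc sgnCode redc code instOf_valid instOf_yes pot wtOf sum_te)
open Pool.Agent.Helper22.EP (redP totalDegree_redP eval_aeval totalDegree_aeval_le)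
open Pool.Agent.Helper8.LK (LAlg Act cellE cellE_spec wtOf_cellE)
open Pool.Agent.Helper7.LK (Lab wv wpt plantZ covL mem_covL card_covL_le oFP oFP_01 null_noP
  planted_yesP SparseOK Moves exists_potF card_lab)

variable {m n L R G D b k d : ℕ}

/-- the main inequality -/
theorem main_ineqX (A : LAlg n L R) (h : 3 * m ≤ n) (p : Fin 3 × Fin m → ℤ) {t l : ℕ}
    (hm : 0 < m) (hK : 2 ^ (b + t) ≤ m)
    (hval : ∀ s : E m → Lab G, (instOf h (wpt (pot p) s)).Valid)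
    (hW : WithinX A D b) (hk : k = n ^ 2 / 2 ^ 18) (hdec : A.Decides)
    (hA1 : ∀ fl ρ ans f, A.next fl ρ ans = Act.query (Query.value f) → f.totalDegree ≤ d)
    (hsg : ∀ ρ ans a c, A.next (flagOf h) ρ ans = Act.query (Query.sign a c) →
      ∀ s : E m → Lab G, sgnCode (c + ∑ e, redc h a e * wpt (pot p) s e) = code p (redc h a) c)
    (hl : 1 ≤ l) (hD : D < 2 ^ l) (eN eT : ℝ)
    (hN : ∀ ρ, ((@Finset.filter (E m → Lab G)
      (fun s => ∃ t' < L, evN A h p ρ D b (2 ^ (b + t)) k t' s)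
      (fun _ => Classical.dec _) univ).card : ℝ) ≤ eN * (Fintype.card (E m → Lab G) : ℝ))
    (hT : ∀ ρ, ∀ T : Helper7.LK.Tr m, (plantZ m G).g T * ∑ s : E m → Lab G,
        (@ite ℝ (∃ t' < L, evT A h p ρ D b (2 ^ (b + t)) k T t' s) (Classical.dec _)
          ((plantZ m G).ind T s) 0) ≤ eT * (Fintype.card (E m → Lab G) : ℝ)) :
    (1 : ℝ) / 3 ≤ (2 / 3) * ((m : ℝ) ^ 3 / (Fintype.card (Lab G) : ℝ)) + eN + eT +
      (Real.sqrt (3 * (2 * 2 ^ (b + t)) / (m : ℝ) ^ 2 +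
            6 * Real.sqrt (2 * 2 * ((1 / 2) ^ t + (k : ℝ) / (m : ℝ) ^ 2))) +
          (((468 * (d + 1) * l ^ 3) * D : ℕ) : ℝ) * (2 * 2 ^ (b + t)) / (m : ℝ) ^ 3) := by
  classical
  set N : ℕ := (468 * (d + 1) * l ^ 3) * D with hN'
  set M : ℝ := (Fintype.card (E m → Lab G) : ℝ) with hM
  set gΓ : ℝ := (Fintype.card (Lab G) : ℝ) with hgΓ
  have hM0 : 0 < M := by rw [hM]; exact_mod_cast Fintype.card_pos
  have hg0 : 0 < gΓ := by rw [hgΓ]; exact_mod_cast Fintype.card_pos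
  have hm0 : (0 : ℝ) < (m : ℝ) := by exact_mod_cast hm
  have hR0 : (0 : ℝ) < 2 ^ R := by positivity
  set Δ : ℝ := Real.sqrt (3 * (2 * 2 ^ (b + t)) / (m : ℝ) ^ 2 +
            6 * Real.sqrt (2 * 2 * ((1 / 2) ^ t + (k : ℝ) / (m : ℝ) ^ 2))) +
          (N : ℝ) * (2 * 2 ^ (b + t)) / (m : ℝ) ^ 3
    with hΔ
  -- one random string
  have hρ : ∀ ρ : Fin R → Bool,
      (m : ℝ) ^ 3 * ∑ s : E m → Lab G, oFP A h p ρ s ≤
        (m : ℝ) ^ 3 * M * Δ + (m : ℝ) ^ 3 * (eN * M) +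
        (m : ℝ) ^ 3 * (eT * M) +
        ∑ T : Tri m, ((plantZ m G).g T * ∑ s : E m → Lab G, (plantZ m G).ind T s * oFP A h p ρ s) := by
    intro ρ
    have hmr := (mrr A h p ρ D b (2 ^ (b + t)) k G)
    have hcore := leak_coreF (plantZ m G)
      ((mrr A h p ρ D b (2 ^ (b + t)) k G).badF (Nat.one_le_two_pow)) L N hm hK
      ((mrr A h p ρ D b (2 ^ (b + t)) k G).rho L t)
      ((mrr A h p ρ D b (2 ^ (b + t)) k G).rho_nonneg L t)
      (by
        intro e
        have h1 := (mrr A h p ρ D b (2 ^ (b + t)) k G).card_bad_le L t rfl e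
        refine le_trans (le_of_eq ?_) h1
        congr!)
      ((1 / 2 : ℝ) ^ t + (k : ℝ) / (m : ℝ) ^ 2)
      (fun i => (mrr A h p ρ D b (2 ^ (b + t)) k G).sum_rho_le L t k hm Fintype.card_pos
        (fun s => (ok_mrun A h p ρ D b (2 ^ (b + t)) k s L).2) i)
      (aX A h p ρ D b (2 ^ (b + t)) k)
      (fun s => (aX_01 A h p ρ D b (2 ^ (b + t)) k s).1)
      (fun s => (aX_01 A h p ρ D b (2 ^ (b + t)) k s).2)
      (fun s s' hc => aX_congr A h p ρ D b (2 ^ (b + t)) k hc)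
      (fun s => covX A h p ρ D b (2 ^ (b + t)) k s)
      (fun s s' hc => covX_congr A h p ρ D b (2 ^ (b + t)) k hc)
      (fun s => card_covX A h p ρ D b (2 ^ (b + t)) k hA1 hl hD s)
    have h1 := null_stepX A h p ρ D b (2 ^ (b + t)) k hval hW hk (hsg ρ)
    have h2 : ∀ T : Tri m, _ := fun T =>
      planted_stepX A h p ρ D b (2 ^ (b + t)) k hval hW hk (hsg ρ) T
    have hC : (plantZ m G).C = 2 := rfl
    rw [hC] at hcore
    have hT' : ∀ T : Tri m, (plantZ m G).g T * ∑ s : E m → Lab G,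
        (if ∃ t' < L, evT A h p ρ D b (2 ^ (b + t)) k T t' s then (plantZ m G).ind T s else 0) ≤
        eT * M := by
      intro T
      refine le_trans (le_of_eq ?_) (hT ρ T)
      congr!
    have hN2 : ((univ.filter fun s : E m → Lab G =>
        ∃ t' < L, evN A h p ρ D b (2 ^ (b + t)) k t' s).card : ℝ) ≤ eN * M := by
      refine le_trans (le_of_eq ?_) (hN ρ)
      congr!
    have h3 : ∑ T : Tri m, ∑ s : E m → Lab G, (if T ∉ covX A h p ρ D b (2 ^ (b + t)) k s ∧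
          ¬ ∃ j, badc b (2 ^ (b + t)) ((mrun A h p ρ D b (2 ^ (b + t)) k s L).raw (tk T j)) then
        (plantZ m G).g T * (plantZ m G).ind T s * aX A h p ρ D b (2 ^ (b + t)) k s else 0) ≤
        ∑ T : Tri m, ((plantZ m G).g T * ∑ s : E m → Lab G, (plantZ m G).ind T s * oFP A h p ρ s) +
          (m : ℝ) ^ 3 * (eT * M) := by
      calc _ ≤ ∑ T : Tri m, ((plantZ m G).g T *
              ∑ s : E m → Lab G, (plantZ m G).ind T s * oFP A h p ρ s + eT * M) := by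
            refine Finset.sum_le_sum fun T _ => ?_
            exact (h2 T).trans (add_le_add le_rfl (hT' T))
        _ = _ := by
            rw [Finset.sum_add_distrib]
            congr 1
            rw [Finset.sum_const, Finset.card_univ, nsmul_eq_mul]
            simp [Tri]
    have h4 : (m : ℝ) ^ 3 * ∑ s : E m → Lab G, oFP A h p ρ s ≤
        (m : ℝ) ^ 3 * (∑ s : E m → Lab G, aX A h p ρ D b (2 ^ (b + t)) k s + eN * M) := by
      apply mul_le_mul_of_nonneg_left _ (by positivity)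
      linarith
    have h5 : (m : ℝ) ^ 3 * ∑ s : E m → Lab G, aX A h p ρ D b (2 ^ (b + t)) k s -
        (m : ℝ) ^ 3 * M * Δ ≤
        ∑ T : Tri m, ∑ s : E m → Lab G, (if T ∉ covX A h p ρ D b (2 ^ (b + t)) k s ∧
          ¬ ∃ j, badc b (2 ^ (b + t)) ((mrun A h p ρ D b (2 ^ (b + t)) k s L).raw (tk T j)) then
        (plantZ m G).g T * (plantZ m G).ind T s * aX A h p ρ D b (2 ^ (b + t)) k s else 0) := by
      refine le_trans (le_of_eq ?_) (hcore.trans (le_of_eq ?_))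
      · rw [hΔ]
        push_cast
        rfl
      · congr!
    linarith
  -- sum over the random strings
  have hsum := Finset.sum_le_sum fun ρ (_ : ρ ∈ (univ : Finset (Fin R → Bool))) => hρ ρ
  have hcR : ((univ : Finset (Fin R → Bool)).card : ℝ) = 2 ^ R := by simp
  have h6 : ∑ ρ : Fin R → Bool, ((m : ℝ) ^ 3 * M * Δ + (m : ℝ) ^ 3 * (eN * M) +
        (m : ℝ) ^ 3 * (eT * M) +
        ∑ T : Tri m, ((plantZ m G).g T * ∑ s : E m → Lab G, (plantZ m G).ind T s * oFP A h p ρ s)) ≤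
      2 ^ R * ((m : ℝ) ^ 3 * M * Δ + (m : ℝ) ^ 3 * (eN * M) +
        (m : ℝ) ^ 3 * (eT * M)) +
      (m : ℝ) ^ 3 * ((1 / 3) * 2 ^ R * M) := by
    rw [Finset.sum_add_distrib, Finset.sum_const, nsmul_eq_mul, hcR, Finset.sum_comm]
    refine add_le_add le_rfl ?_
    calc _ ≤ ∑ _T : Tri m, (1 / 3) * 2 ^ R * M :=
          Finset.sum_le_sum fun T _ => planted_yesP p hdec hval T
      _ = _ := by
          rw [Finset.sum_const, Finset.card_univ, nsmul_eq_mul]
          simp [Tri]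
  have h7 := null_noP (A := A) (h := h) p hdec hval
  rw [← Finset.mul_sum] at hsum
  have h8 := mul_le_mul_of_nonneg_left h7 (by positivity : (0 : ℝ) ≤ (m : ℝ) ^ 3)
  have h9 := h8.trans (hsum.trans h6)
  have hpos : (0 : ℝ) < (m : ℝ) ^ 3 * (2 ^ R * M) := by positivity
  have h10 : ((m : ℝ) ^ 3 * (2 ^ R * M)) * (1 / 3) ≤ ((m : ℝ) ^ 3 * (2 ^ R * M)) *
      ((2 / 3) * ((m : ℝ) ^ 3 / gΓ) + eN + eT + Δ) := by
    have e1 : (m : ℝ) ^ 3 * ((2 / 3) * 2 ^ R * (M - (m : ℝ) ^ 3 * (M / gΓ))) =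
        ((m : ℝ) ^ 3 * (2 ^ R * M)) * (2 / 3) -
          ((m : ℝ) ^ 3 * (2 ^ R * M)) * ((2 / 3) * ((m : ℝ) ^ 3 / gΓ)) := by
      ring
    have e2 : 2 ^ R * ((m : ℝ) ^ 3 * M * Δ + (m : ℝ) ^ 3 * (eN * M) +
        (m : ℝ) ^ 3 * (eT * M)) + (m : ℝ) ^ 3 * ((1 / 3) * 2 ^ R * M) =
        ((m : ℝ) ^ 3 * (2 ^ R * M)) * (eN + eT + Δ) +
          ((m : ℝ) ^ 3 * (2 ^ R * M)) * (1 / 3) := by
      ring
    rw [e1, e2] at h9
    linarith
  exact le_of_mul_le_mul_left h10 hpos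

end Pool.Agent.Helper7.LKX
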