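import Mathlib
import Pool.Agent.Helper7.LKX.ArbMain

/-!
# Numbers for the lower bound with arbitrary bits and exceptional weights
-/

set_option autoImplicit false

namespace Pool.Agent.Helper7.LKX

open Finset Pool.Agent.Helper95.LK
open Pool.Agent.Helper22.ETModel (E)
open Pool.Agent.Helper7.LK (Lab card_lab)

/-- The numerical defect. -/
lemma defect_leB {m b k : ℕ} (hK : 2 ^ (b + 18) ≤ m) (hk : 2 ^ 18 * k ≤ 10 * m ^ 2) :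
    Real.sqrt (3 * (2 * 2 ^ (b + 18)) / (m : ℝ) ^ 2 +
      6 * Real.sqrt (2 * 2 * ((1 / 2 : ℝ) ^ 18 + (k : ℝ) / (m : ℝ) ^ 2))) ≤ 279 / 1000 := by
  have hm : (2 : ℝ) ^ (b + 18) ≤ (m : ℝ) := by exact_mod_cast hK
  have hm15 : (262144 : ℝ) ≤ (m : ℝ) := by
    have : 2 ^ 18 ≤ m := le_trans (Nat.pow_le_pow_right (by norm_num) (by omega)) hK
    have : (2 : ℝ) ^ 18 ≤ (m : ℝ) := by exact_mod_cast this
    linarith
  have hm0 : (0 : ℝ) < (m : ℝ) := by linarith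
  have hkr : (2 : ℝ) ^ 18 * (k : ℝ) ≤ 10 * (m : ℝ) ^ 2 := by exact_mod_cast hk
  have hk2 : (k : ℝ) / (m : ℝ) ^ 2 ≤ 10 * (1 / 2 : ℝ) ^ 18 := by
    rw [div_le_iff₀ (by positivity)]
    have : (1 / 2 : ℝ) ^ 18 * (2 ^ 18 * (k : ℝ)) ≤ (1 / 2 : ℝ) ^ 18 * (10 * (m : ℝ) ^ 2) :=
      mul_le_mul_of_nonneg_left hkr (by positivity)
    calc (k : ℝ) = (1 / 2 : ℝ) ^ 18 * (2 ^ 18 * (k : ℝ)) := by
          rw [← mul_assoc, ← mul_pow]; norm_num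
      _ ≤ _ := this
      _ = 10 * (1 / 2 : ℝ) ^ 18 * (m : ℝ) ^ 2 := by ring
  have hs : Real.sqrt (2 * 2 * ((1 / 2 : ℝ) ^ 18 + (k : ℝ) / (m : ℝ) ^ 2)) ≤
      12957 / 1000000 := by
    apply Real.sqrt_le_iff.2
    constructor
    · norm_num
    · calc 2 * 2 * ((1 / 2 : ℝ) ^ 18 + (k : ℝ) / (m : ℝ) ^ 2)
          ≤ 2 * 2 * ((1 / 2 : ℝ) ^ 18 + 10 * (1 / 2 : ℝ) ^ 18) := by linarith
        _ ≤ (12957 / 1000000) ^ 2 := by norm_num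
  have h1 : 3 * (2 * 2 ^ (b + 18)) / (m : ℝ) ^ 2 ≤ 3 / 100000 := by
    rw [div_le_div_iff₀ (by positivity) (by norm_num)]
    nlinarith
  apply Real.sqrt_le_iff.2
  constructor
  · norm_num
  · linarith

lemma kB {n : ℕ} (hn : 2 ^ 18 ≤ n) : 2 ^ 18 * (n ^ 2 / 2 ^ 18) ≤ 10 * (n / 3) ^ 2 := by
  have h1 : 2 ^ 18 * (n ^ 2 / 2 ^ 18) ≤ n ^ 2 := Nat.mul_div_le _ _
  have h2 : n ≤ 3 * (n / 3) + 2 := by omega
  have h3 : 1000 ≤ n / 3 := by omega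
  have h4 : n ^ 2 ≤ (3 * (n / 3) + 2) ^ 2 := Nat.pow_le_pow_left h2 2
  have h5 : (3 * (n / 3) + 2) ^ 2 ≤ 10 * (n / 3) ^ 2 := by nlinarith
  omega

/-- all errors are small -/
lemma errs_leX {m n D d : ℕ} (hn : 2 ^ 20 ≤ n) (h : 3 * m ≤ n)
    (hDd' : D ^ 2 * d ≤ n ^ 9) :
    (2 / 3) * ((m : ℝ) ^ 3 / (Fintype.card (Lab (n ^ 25)) : ℝ)) +
      ((D ^ 2 * d : ℕ) : ℝ) / ((n ^ 24 : ℕ) : ℝ) +
      2 * (Fintype.card (Lab (n ^ 25)) : ℝ) * (((D ^ 2 * d : ℕ) : ℝ) / ((n ^ 24 : ℕ) : ℝ) ^ 2) ≤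
      1 / 1000 := by
  have hn20 : (2 : ℝ) ^ 20 ≤ (n : ℝ) := by exact_mod_cast hn
  have hn0 : (0 : ℝ) < (n : ℝ) := lt_of_lt_of_le (by norm_num) hn20
  have hn1 : (1 : ℝ) ≤ (n : ℝ) := le_trans (by norm_num) hn20
  have hm : (m : ℝ) ≤ (n : ℝ) := by
    have : m ≤ n := by omega
    exact_mod_cast this
  have hm0 : (0 : ℝ) ≤ (m : ℝ) := Nat.cast_nonneg _
  have hΓ : (Fintype.card (Lab (n ^ 25)) : ℝ) = 2 * (n : ℝ) ^ 25 + 1 := by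
    rw [card_lab]; push_cast; ring
  have hΓ1 : (n : ℝ) ^ 25 ≤ (Fintype.card (Lab (n ^ 25)) : ℝ) := by
    rw [hΓ]
    have : 0 ≤ (n : ℝ) ^ 25 := by positivity
    linarith
  have hΓ2 : (Fintype.card (Lab (n ^ 25)) : ℝ) ≤ 3 * (n : ℝ) ^ 25 := by
    rw [hΓ]
    have : 1 ≤ (n : ℝ) ^ 25 := one_le_pow₀ hn1
    linarith
  have hΓ0 : (0 : ℝ) < (Fintype.card (Lab (n ^ 25)) : ℝ) := lt_of_lt_of_le (by positivity) hΓ1
  have hDd : ((D ^ 2 * d : ℕ) : ℝ) ≤ (n : ℝ) ^ 9 := by exact_mod_cast hDd'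
  have hDd0 : (0 : ℝ) ≤ ((D ^ 2 * d : ℕ) : ℝ) := Nat.cast_nonneg _
  have hcH : ((n ^ 24 : ℕ) : ℝ) = (n : ℝ) ^ 24 := by push_cast; rfl
  have hpw : ∀ a c : ℕ, a ≤ c → (n : ℝ) ^ a ≤ (n : ℝ) ^ c := fun a c hac => pow_le_pow_right₀ hn1 hac
  have key : ∀ x y : ℝ, 0 < y → x * n ≤ y → x / y ≤ 1 / n := by
    intro x y hy hxy
    rw [div_le_div_iff₀ hy hn0]
    linarith
  have h1 : (2 / 3) * ((m : ℝ) ^ 3 / (Fintype.card (Lab (n ^ 25)) : ℝ)) ≤ 1 / n := by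
    have h2 : (m : ℝ) ^ 3 / (Fintype.card (Lab (n ^ 25)) : ℝ) ≤ 1 / n := by
      apply key _ _ hΓ0
      calc (m : ℝ) ^ 3 * n ≤ (n : ℝ) ^ 3 * n := by gcongr
        _ = (n : ℝ) ^ 4 := by ring
        _ ≤ (n : ℝ) ^ 25 := hpw _ _ (by norm_num)
        _ ≤ _ := hΓ1
    have h3 : (0 : ℝ) ≤ 1 / n := by positivity
    linarith
  have h2 : ((D ^ 2 * d : ℕ) : ℝ) / ((n ^ 24 : ℕ) : ℝ) ≤ 1 / n := by
    rw [hcH]
    apply key _ _ (by positivity)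
    calc ((D ^ 2 * d : ℕ) : ℝ) * n ≤ (n : ℝ) ^ 9 * n := by gcongr
      _ = (n : ℝ) ^ 10 := by ring
      _ ≤ (n : ℝ) ^ 24 := hpw _ _ (by norm_num)
  have h3 : 2 * (Fintype.card (Lab (n ^ 25)) : ℝ) *
      (((D ^ 2 * d : ℕ) : ℝ) / ((n ^ 24 : ℕ) : ℝ) ^ 2) ≤ 1 / n := by
    rw [hcH, ← mul_div_assoc]
    apply key _ _ (by positivity)
    calc 2 * (Fintype.card (Lab (n ^ 25)) : ℝ) * ((D ^ 2 * d : ℕ) : ℝ) * n
        ≤ 2 * (3 * (n : ℝ) ^ 25) * (n : ℝ) ^ 9 * n := by gcongr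
      _ = 6 * (n : ℝ) ^ 35 := by ring
      _ ≤ n * (n : ℝ) ^ 35 := by
          have : (6 : ℝ) ≤ n := le_trans (by norm_num) hn20
          gcongr
      _ = (n : ℝ) ^ 36 := by ring
      _ ≤ (n : ℝ) ^ 48 := hpw _ _ (by norm_num)
      _ = ((n : ℝ) ^ 24) ^ 2 := by rw [← pow_mul]
  have h4 : (1 : ℝ) / n ≤ 1 / 5000 := by
    apply one_div_le_one_div_of_le (by norm_num)
    refine le_trans ?_ hn20
    norm_num
  linarith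

/-- Numerical conclusion. -/
lemma numericB {n b D d l : ℕ} (hn : 2 ^ (b + 20) ≤ n) (hD : 0 < D) (hDn : D ≤ n ^ 3)
    (hl : l = Nat.log 2 D + 1)
    (h : ((n / 3 : ℕ) : ℝ) ^ 3 ≤
      38 * ((468 * (d + 1) * l ^ 3 * D : ℕ) : ℝ) * 2 ^ (b + 18)) :
    (n : ℝ) ^ 3 ≤ 2 ^ (b + 42) * (D : ℝ) * ((d : ℝ) + 1) * (Real.logb 2 n) ^ 3 := by
  set lam := Real.logb 2 n with hlam
  have hn17 : (2 : ℝ) ^ 17 ≤ (n : ℝ) := by
    have : 2 ^ 17 ≤ n := le_trans (Nat.pow_le_pow_right (by norm_num) (by omega)) hn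
    exact_mod_cast this
  have hn0 : (0 : ℝ) < (n : ℝ) := lt_of_lt_of_le (by norm_num) hn17
  have hlam17 : 17 ≤ lam := by
    rw [hlam, Real.le_logb_iff_rpow_le (by norm_num) hn0]
    have : (2 : ℝ) ^ (17 : ℝ) = 2 ^ 17 := by norm_num
    rw [this]; exact hn17
  have hl4 : (l : ℝ) ≤ 3 * lam + 1 := by
    have h2 : 2 ^ (Nat.log 2 D) ≤ n ^ 3 := (Nat.pow_log_le_self 2 hD.ne').trans hDn
    have h3 : ((2 : ℝ)) ^ (Nat.log 2 D) ≤ (n : ℝ) ^ 3 := by exact_mod_cast h2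
    have h4 : (Nat.log 2 D : ℝ) ≤ 3 * lam := by
      have h5 : Real.logb 2 ((2 : ℝ) ^ (Nat.log 2 D)) ≤ Real.logb 2 ((n : ℝ) ^ 3) :=
        Real.logb_le_logb_of_le (by norm_num) (by positivity) h3
      rw [Real.logb_pow, Real.logb_pow, Real.logb_self_eq_one (by norm_num), mul_one] at h5
      push_cast at h5
      exact h5
    rw [hl]; push_cast; linarith
  have hl5 : (l : ℝ) ≤ 307 / 100 * lam := by linarith
  have hl1 : (1 : ℝ) ≤ l := by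
    rw [hl]; push_cast; linarith [(Nat.cast_nonneg _ : (0 : ℝ) ≤ (Nat.log 2 D : ℝ))]
  have hl3 : (l : ℝ) ^ 3 ≤ 29 * lam ^ 3 := by
    calc (l : ℝ) ^ 3 ≤ (307 / 100 * lam) ^ 3 := by gcongr
      _ = (307 / 100) ^ 3 * lam ^ 3 := by ring
      _ ≤ 29 * lam ^ 3 := by
          apply mul_le_mul_of_nonneg_right (by norm_num)
          positivity
  have h1l3 : 1 ≤ (l : ℝ) ^ 3 := one_le_pow₀ hl1
  have hDr : (0 : ℝ) ≤ D := Nat.cast_nonneg _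
  have hd0 : (0 : ℝ) ≤ d := Nat.cast_nonneg _
  have hN : ((468 * (d + 1) * l ^ 3 * D : ℕ) : ℝ) ≤
      13601 * (((d : ℝ) + 1) * lam ^ 3 * D) := by
    push_cast
    have h8 : (((d : ℝ) + 1) * (l : ℝ) ^ 3) * D ≤ (((d : ℝ) + 1) * (29 * lam ^ 3)) * D := by
      apply mul_le_mul_of_nonneg_right _ hDr
      exact mul_le_mul_of_nonneg_left hl3 (by linarith)
    have h9 : 0 ≤ ((d : ℝ) + 1) * lam ^ 3 * D := by positivity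
    nlinarith
  have hm : (n : ℝ) ≤ 3 * ((n / 3 : ℕ) : ℝ) + 2 := by
    have : n ≤ 3 * (n / 3) + 2 := by omega
    exact_mod_cast this
  have hm2 : (32768 : ℝ) ≤ ((n / 3 : ℕ) : ℝ) := by
    have h1 : 2 ^ 17 ≤ n := le_trans (Nat.pow_le_pow_right (by norm_num) (by omega)) hn
    have : 32768 ≤ n / 3 := by omega
    exact_mod_cast this
  have h6 : (n : ℝ) ^ 3 ≤ 28 * ((n / 3 : ℕ) : ℝ) ^ 3 := by
    have h7 : (n : ℝ) ≤ 3001 / 1000 * ((n / 3 : ℕ) : ℝ) := by linarith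
    calc (n : ℝ) ^ 3 ≤ (3001 / 1000 * ((n / 3 : ℕ) : ℝ)) ^ 3 := by gcongr
      _ = (3001 / 1000) ^ 3 * ((n / 3 : ℕ) : ℝ) ^ 3 := by ring
      _ ≤ 28 * ((n / 3 : ℕ) : ℝ) ^ 3 := by
          apply mul_le_mul_of_nonneg_right (by norm_num)
          positivity
  have h9 : 0 ≤ ((d : ℝ) + 1) * lam ^ 3 * D := by positivity
  have h10 : (0 : ℝ) ≤ 2 ^ (b + 18) := by positivity
  calc (n : ℝ) ^ 3 ≤ 28 * ((n / 3 : ℕ) : ℝ) ^ 3 := h6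
    _ ≤ 28 * (38 * ((468 * (d + 1) * l ^ 3 * D : ℕ) : ℝ) * 2 ^ (b + 18)) := by linarith
    _ ≤ 28 * (38 * (13601 * (((d : ℝ) + 1) * lam ^ 3 * D)) * 2 ^ (b + 18)) := by
        gcongr
    _ = 28 * 38 * 13601 * 2 ^ 18 * (2 ^ b * (((d : ℝ) + 1) * lam ^ 3 * D)) := by
        rw [pow_add]; ring
    _ ≤ 2 ^ 42 * (2 ^ b * (((d : ℝ) + 1) * lam ^ 3 * D)) := by
        apply mul_le_mul_of_nonneg_right _ (by positivity)
        norm_num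
    _ = 2 ^ (b + 42) * (D : ℝ) * ((d : ℝ) + 1) * lam ^ 3 := by rw [pow_add]; ring

end Pool.Agent.Helper7.LKX
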