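import Mathlib
import Pool.Agent.Helper7.LKX.NumX
import Pool.Agent.Helper95.LKX.Err

/-!
# The lower bound with arbitrary inspected bits and exceptional weights
-/

set_option autoImplicit false

namespace Pool.Agent.Helper7.LKX

open Finset Pool.Agent.Helper95.LK
open Pool.Agent.Helper22.ETModel (Inst Query flagOf pot)
open Pool.Agent.Helper8.LK (LAlg Act)
open Pool.Agent.Helper7.LK (Lab wpt plantZ SparseOK Moves exists_potF card_lab)

/-- The bound for one set of parameters. -/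
theorem core_arbX {n L R D b d r c l : ℕ} (hrc : r * (c + 4) + 2 * c ≤ 270)
    (hn : 2 ^ (b + 20) ≤ n) (A : LAlg n L R)
    (hA1 : ∀ fl ρ ans f, A.next fl ρ ans = Act.query (Query.value f) → f.totalDegree ≤ d)
    (hA2 : ∀ fl ρ ans a x, A.next fl ρ ans = Act.query (Query.sign a x) →
      SparseOK n r c a x ∧ Moves fl a)
    (hW : WithinX A D b) (hdec : A.Decides) (hDd : D ^ 2 * d ≤ n ^ 9)
    (hl : 1 ≤ l) (hDl : D < 2 ^ l) :
    ((n / 3 : ℕ) : ℝ) ^ 3 ≤ 38 * ((468 * (d + 1) * l ^ 3 * D : ℕ) : ℝ) * 2 ^ (b + 18) := by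
  classical
  have hK : 2 ^ (b + 18) ≤ n / 3 := by
    have h1 : 2 ^ (b + 20) = 4 * 2 ^ (b + 18) := by
      rw [show b + 20 = (b + 18) + 2 by ring, pow_add]; ring
    have h2 : 1 ≤ 2 ^ (b + 18) := Nat.one_le_two_pow
    omega
  have hm0 : 0 < n / 3 := lt_of_lt_of_le (by positivity) hK
  have hn1 : 1 ≤ n := by omega
  have h : 3 * (n / 3) ≤ n := Nat.mul_div_le n 3
  have hn20 : 2 ^ 20 ≤ n := le_trans (Nat.pow_le_pow_right (by norm_num) (by omega)) hn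
  have hn18 : 2 ^ 18 ≤ n := le_trans (Nat.pow_le_pow_right (by norm_num) (by omega)) hn
  obtain ⟨p, hval, hcode⟩ := exists_potF (c := c) hn20 hrc h hm0
  have hHK : n ^ 24 * 2 ^ (b + 18) ≤ Fintype.card (Lab (n ^ 25)) := by
    rw [card_lab]
    have h1 : 2 ^ (b + 18) ≤ n := by omega
    calc n ^ 24 * 2 ^ (b + 18) ≤ n ^ 24 * n := Nat.mul_le_mul_left _ h1
      _ = n ^ 25 := by rw [← pow_succ]
      _ ≤ 2 * n ^ 25 + 1 := by omega
  have h1 := main_ineqX (G := n ^ 25) (k := n ^ 2 / 2 ^ 18) (t := 18) A h p hm0 hK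
    hval hW rfl hdec hA1
    (fun ρ ans a x hq s => hcode a x (hA2 _ _ _ _ _ hq).1 (hA2 _ _ _ _ _ hq).2 s) hl hDl
    (((D ^ 2 * d : ℕ) : ℝ) / ((n ^ 24 : ℕ) : ℝ))
    (2 * (Fintype.card (Lab (n ^ 25)) : ℝ) * (((D ^ 2 * d : ℕ) : ℝ) / ((n ^ 24 : ℕ) : ℝ) ^ 2))
    (fun ρ => by
      have h2 := Helper95.LKX.card_evN A h p ρ D b (2 ^ (b + 18)) (n ^ 2 / 2 ^ 18) (G := n ^ 25)
        (n ^ 24) d L (Nat.pow_pos hn1) (by positivity) hHK hA1
      refine le_trans (le_of_eq ?_) h2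
      congr!)
    (fun ρ T => by
      have h2 := Helper95.LKX.sum_evT A h p ρ D b (2 ^ (b + 18)) (n ^ 2 / 2 ^ 18) (G := n ^ 25)
        (n ^ 24) d L (Nat.pow_pos hn1) (by positivity) hHK hA1 T
      refine le_trans (le_of_eq ?_) h2
      congr!)
  have h2 := errs_leX (m := n / 3) hn20 h hDd
  have h3 := defect_leB hK (kB hn18)
  have hmR : (0 : ℝ) < ((n / 3 : ℕ) : ℝ) ^ 3 := by
    have : (0 : ℝ) < ((n / 3 : ℕ) : ℝ) := by exact_mod_cast hm0
    positivity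
  have h4 : (1 : ℝ) / 19 ≤ ((468 * (d + 1) * l ^ 3 * D : ℕ) : ℝ) * (2 * 2 ^ (b + 18)) /
      ((n / 3 : ℕ) : ℝ) ^ 3 := by
    have h5 : (1 : ℝ) / 3 ≤ 1 / 1000 + (279 / 1000 +
        ((468 * (d + 1) * l ^ 3 * D : ℕ) : ℝ) * (2 * 2 ^ (b + 18)) /
      ((n / 3 : ℕ) : ℝ) ^ 3) := h1.trans (add_le_add h2 (add_le_add h3 le_rfl))
    linarith
  rw [div_le_div_iff₀ (by norm_num) hmR] at h4
  linarith

/-- **Lower bound with arbitrary inspected bits, exceptional weights, and sign queries that are not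
determined by the triangle sums.** -/
theorem lower_bound_freeX {n L R D b d r c : ℕ} (hrc : r * (c + 4) + 2 * c ≤ 270)
    (hn : 2 ^ (b + 20) ≤ n) (A : LAlg n L R)
    (hA1 : ∀ fl ρ ans f, A.next fl ρ ans = Act.query (Query.value f) → f.totalDegree ≤ d)
    (hA2 : ∀ fl ρ ans a x, A.next fl ρ ans = Act.query (Query.sign a x) →
      SparseOK n r c a x ∧ Moves fl a)
    (hW : WithinX A D b) (hdec : A.Decides) :
    (n : ℝ) ^ 3 ≤ 2 ^ (b + 42) * (D : ℝ) * ((d : ℝ) + 1) * (Real.logb 2 (n : ℝ)) ^ 3 := by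
  have hn17 : 2 ^ 20 ≤ n := le_trans (Nat.pow_le_pow_right (by norm_num) (by omega)) hn
  have hn3 : 3 ≤ n := le_trans (by norm_num) hn17
  have hm0 : 0 < n / 3 := by
    have : 2 ^ 20 / 3 ≤ n / 3 := Nat.div_le_div_right hn17
    exact lt_of_lt_of_le (by norm_num) this
  have hlam1 : 1 ≤ Real.logb 2 (n : ℝ) := by
    have hn3' : (3 : ℝ) ≤ n := by exact_mod_cast hn3
    rw [Real.le_logb_iff_rpow_le (by norm_num) (by linarith)]
    norm_num; linarith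
  have hlam3 : 1 ≤ (Real.logb 2 (n : ℝ)) ^ 3 := one_le_pow₀ hlam1
  have hmR : (0 : ℝ) < ((n / 3 : ℕ) : ℝ) ^ 3 := by
    have : (0 : ℝ) < ((n / 3 : ℕ) : ℝ) := by exact_mod_cast hm0
    positivity
  have hD1 : 1 ≤ D := by
    by_contra hcon
    have hD0 : D = 0 := by omega
    subst hD0
    have h1 := core_arbX hrc hn A hA1 hA2 hW hdec (by simp) le_rfl (by norm_num : 0 < 2 ^ 1)
    simp only [mul_zero, Nat.cast_zero, zero_mul] at h1
    linarith
  by_cases hDn : D ≤ n ^ 3 ∧ d ≤ n ^ 3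
  · obtain ⟨hDn, hdn⟩ := hDn
    set l := Nat.log 2 D + 1 with hl
    have hDl : D < 2 ^ l := Nat.lt_pow_succ_log_self (by norm_num) D
    have hDd : D ^ 2 * d ≤ n ^ 9 := by
      calc D ^ 2 * d ≤ (n ^ 3) ^ 2 * n ^ 3 := Nat.mul_le_mul (Nat.pow_le_pow_left hDn 2) hdn
        _ = n ^ 9 := by ring
    have h1 := core_arbX hrc hn A hA1 hA2 hW hdec hDd (by omega : 1 ≤ l) hDl
    exact numericB hn hD1 hDn hl h1
  · rw [not_and_or] at hDn
    push Not at hDn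
    have hDr : (1 : ℝ) ≤ D := by exact_mod_cast hD1
    have hd0 : (0 : ℝ) ≤ d := Nat.cast_nonneg _
    have h0 : (n : ℝ) ^ 3 ≤ D * ((d : ℝ) + 1) := by
      rcases hDn with hDn | hdn
      · have h1 : (n : ℝ) ^ 3 ≤ D := by exact_mod_cast hDn.le
        nlinarith
      · have h1 : (n : ℝ) ^ 3 ≤ d := by exact_mod_cast hdn.le
        nlinarith
    have h2 : (1 : ℝ) ≤ 2 ^ (b + 42) := one_le_pow₀ (by norm_num)
    calc (n : ℝ) ^ 3 ≤ D * ((d : ℝ) + 1) := h0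
      _ ≤ 2 ^ (b + 42) * (D * ((d : ℝ) + 1)) := by
          have : 0 ≤ (D : ℝ) * ((d : ℝ) + 1) := by positivity
          nlinarith
      _ = 2 ^ (b + 42) * D * ((d : ℝ) + 1) * 1 := by ring
      _ ≤ _ := by gcongr

/-- **Lower bound with arbitrary inspected bits, in terms of the total number `B` of inspected
bits.** -/
theorem lower_bound_free_total {n L R D B d r c : ℕ} (hrc : r * (c + 4) + 2 * c ≤ 270)
    (hn : 2 ^ (2 ^ 18 * B / n ^ 2 + 20) ≤ n) (A : LAlg n L R)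
    (hA1 : ∀ fl ρ ans f, A.next fl ρ ans = Act.query (Query.value f) → f.totalDegree ≤ d)
    (hA2 : ∀ fl ρ ans a x, A.next fl ρ ans = Act.query (Query.sign a x) →
      SparseOK n r c a x ∧ Moves fl a)
    (hW : WithinTotal A D B) (hdec : A.Decides) :
    (n : ℝ) ^ 3 ≤ 2 ^ (2 ^ 18 * B / n ^ 2 + 42) * (D : ℝ) * ((d : ℝ) + 1) *
      (Real.logb 2 (n : ℝ)) ^ 3 :=
  lower_bound_freeX hrc hn A hA1 hA2 hW.withinX hdec

end Pool.Agent.Helper7.LKX
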